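import Pool.Agent.V7H68.UF.Path

/-!
Label paths of a random word, with weights for the states.
-/

namespace Pool.Agent.V7H68.UF

open Finset Real SS MS

set_option linter.unusedSectionVars false

section lea

variable {W : Type} [Fintype W] [Nonempty W] {X : Type} {Λ : Type} [DecidableEq Λ]

/-- The weighted probability of a label path. -/
noncomputable def PW (T : X → W → X) (lab : X → W → Λ) (a : X → ℝ) :
    (n : ℕ) → X → (Fin n → Λ) → ℝ
  | 0, _, _ => 1
  | n + 1, x, p => a x * ∑ d, if lab x d = p 0 then (Fintype.card W : ℝ)⁻¹ *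
      PW T lab a n (T x d) (fun j => p j.succ) else 0

/-- The weight of a word. -/
noncomputable def wt (T : X → W → X) (a : X → ℝ) : (n : ℕ) → X → (Fin n → W) → ℝ
  | 0, _, _ => 1
  | n + 1, x, w => a x * wt T a n (T x (w 0)) fun j => w j.succ

/-- The number of bad states on the way. -/
noncomputable def dcr (T : X → W → X) (dd : X → ℝ) : (n : ℕ) → X → (Fin n → W) → ℝ
  | 0, _, _ => 0
  | n + 1, x, w => dd x + dcr T dd n (T x (w 0)) fun j => w j.succ

variable (T : X → W → X) (lab : X → W → Λ) (a : X → ℝ)

theorem PW_nonneg (ha : ∀ x, 0 ≤ a x) (n : ℕ) : ∀ (x : X) (p : Fin n → Λ),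
    0 ≤ PW T lab a n x p := by
  induction n with
  | zero => intro x p; simp [PW]
  | succ n ih =>
    intro x p
    simp only [PW]
    refine mul_nonneg (ha x) (Finset.sum_nonneg fun d _ => ?_)
    split
    · exact mul_nonneg (by positivity) (ih _ _)
    · exact le_rfl

theorem wt_exp (dd : X → ℝ) (s : ℝ) (n : ℕ) : ∀ (x : X) (w : Fin n → W),
    wt T (fun x => exp (- (s * dd x))) n x w = exp (- (s * dcr T dd n x w)) := by
  induction n with
  | zero => intro x w; simp [wt, dcr]
  | succ n ih =>
    intro x w
    simp only [wt, dcr]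
    rw [ih, ← Real.exp_add]
    congr 1
    ring

theorem wmoment_step (ha : ∀ x, 0 ≤ a x) {lam : ℝ} (hlam : 0 ≤ lam) {n : ℕ} (x : X)
    (p : Fin (n + 1) → Λ) :
    PW T lab a (n + 1) x p ^ (1 + lam) ≤ a x ^ (1 + lam) * ∑ d, if lab x d = p 0 then
      (Fintype.card W : ℝ)⁻¹ * cc lab x d ^ lam *
        PW T lab a n (T x d) (fun j => p j.succ) ^ (1 + lam) else 0 := by
  classical
  set N : ℝ := (Fintype.card W : ℝ) with hN
  have hN0 : 0 < N := by rw [hN]; exact_mod_cast Fintype.card_pos
  have hs0 : 0 ≤ ∑ d, (if lab x d = p 0 then N⁻¹ *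
      PW T lab a n (T x d) (fun j => p j.succ) else 0) := by
    refine Finset.sum_nonneg fun d _ => ?_
    split
    · exact mul_nonneg (by positivity) (PW_nonneg _ _ _ ha _ _ _)
    · exact le_rfl
  simp only [PW]
  rw [Real.mul_rpow (ha x) hs0]
  refine mul_le_mul_of_nonneg_left ?_ (Real.rpow_nonneg (ha x) _)
  set A : Finset W := Finset.univ.filter fun d => lab x d = p 0 with hA
  rw [← Finset.sum_filter, ← Finset.sum_filter]
  rcases A.eq_empty_or_nonempty with h | h
  · rw [← hA, h, Finset.sum_empty, Finset.sum_empty, Real.zero_rpow (by linarith)]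
  · have hc : (0:ℝ) < A.card := by exact_mod_cast Finset.card_pos.2 h
    have hcc : ∀ d ∈ A, cc lab x d = A.card / N := by
      intro d hd
      unfold cc
      congr 2
      rw [hA, Finset.mem_filter] at hd
      unfold cls
      rw [hd.2]
    have h1 : ∑ d ∈ A, N⁻¹ * PW T lab a n (T x d) (fun j => p j.succ) =
        (A.card / N) * ∑ d ∈ A, (A.card : ℝ)⁻¹ * PW T lab a n (T x d)
          (fun j => p j.succ) := by
      rw [Finset.mul_sum]
      refine Finset.sum_congr rfl fun d _ => ?_
      field_simp
    have hs1 : 0 ≤ ∑ d ∈ A, (A.card : ℝ)⁻¹ * PW T lab a n (T x d) (fun j => p j.succ) :=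
      Finset.sum_nonneg fun d _ => mul_nonneg (by positivity) (PW_nonneg _ _ _ ha _ _ _)
    rw [← hA, h1, Real.mul_rpow (by positivity) hs1]
    have h2 := Real.rpow_arith_mean_le_arith_mean_rpow A (fun _ => (A.card : ℝ)⁻¹)
      (fun d => PW T lab a n (T x d) (fun j => p j.succ)) (fun _ _ => by positivity)
      (by rw [Finset.sum_const, nsmul_eq_mul, mul_inv_cancel₀ hc.ne'])
      (fun d _ => PW_nonneg _ _ _ ha _ _ _) (show (1:ℝ) ≤ 1 + lam by linarith)
    refine (mul_le_mul_of_nonneg_left h2 (by positivity)).trans (le_of_eq ?_)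
    rw [Finset.mul_sum]
    refine Finset.sum_congr rfl fun d hd => ?_
    rw [hcc d hd, Real.rpow_add (by positivity), Real.rpow_one]
    field_simp

theorem wmoment (ha : ∀ x, 0 ≤ a x) {lam rho : ℝ} (hlam : 0 ≤ lam) (hrho : 0 ≤ rho)
    (h : ∀ x, a x ^ (1 + lam) * ∑ d, (Fintype.card W : ℝ)⁻¹ * cc lab x d ^ lam ≤ rho) (n : ℕ) :
    ∀ (x : X) (Q : Finset (Fin n → Λ)),
      ∑ p ∈ Q, PW T lab a n x p ^ (1 + lam) ≤ rho ^ n := by
  classical
  induction n with
  | zero =>
    intro x Q
    simp only [PW, Real.one_rpow, Finset.sum_const, nsmul_eq_mul, mul_one, pow_zero]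
    have : Q.card ≤ 1 := Finset.card_le_one_of_subsingleton Q
    exact_mod_cast this
  | succ n ih =>
    intro x Q
    refine (Finset.sum_le_sum fun p _ => wmoment_step T lab a ha hlam x p).trans ?_
    rw [← Finset.mul_sum, Finset.sum_comm]
    have h1 : ∀ d : W, ∑ p ∈ Q, (if lab x d = p 0 then
        (Fintype.card W : ℝ)⁻¹ * cc lab x d ^ lam *
          PW T lab a n (T x d) (fun j => p j.succ) ^ (1 + lam) else 0) ≤
        ((Fintype.card W : ℝ)⁻¹ * cc lab x d ^ lam) * rho ^ n := by
      intro d
      rw [← Finset.sum_filter, ← Finset.mul_sum]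
      refine mul_le_mul_of_nonneg_left ?_
        (mul_nonneg (by positivity) (Real.rpow_nonneg (cc_pos lab x d).le _))
      set Q' := Q.filter fun p => lab x d = p 0 with hQ'
      have hinj : Set.InjOn (fun (p : Fin (n + 1) → Λ) (j : Fin n) => p j.succ) Q' := by
        intro p hp p' hp' he
        rw [hQ', Finset.mem_coe, Finset.mem_filter] at hp hp'
        funext j
        refine Fin.cases ?_ (fun j => ?_) j
        · rw [← hp.2, ← hp'.2]
        · exact congrFun he j
      have h2 := ih (T x d) (Q'.image fun (p : Fin (n + 1) → Λ) (j : Fin n) => p j.succ)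
      rw [Finset.sum_image hinj] at h2
      exact h2
    refine (mul_le_mul_of_nonneg_left (Finset.sum_le_sum fun d _ => h1 d)
      (Real.rpow_nonneg (ha x) _)).trans ?_
    rw [← Finset.sum_mul, ← mul_assoc, pow_succ, mul_comm (rho ^ n)]
    exact mul_le_mul_of_nonneg_right (h x) (by positivity)

/-- The weighted probability is a sum over words. -/
theorem PW_eq (n : ℕ) : ∀ (x : X) (p : Fin n → Λ), PW T lab a n x p =
    ((Fintype.card W : ℝ) ^ n)⁻¹ * ∑ w : Fin n → W,
      if pth T lab n x w = p then wt T a n x w else 0 := by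
  classical
  induction n with
  | zero =>
    intro x p
    simp only [PW, pow_zero, inv_one, one_mul, wt]
    have : ∀ w : Fin 0 → W, pth T lab 0 x w = p := fun w => Subsingleton.elim _ _
    simp [this]
  | succ n ih =>
    intro x p
    simp only [PW]
    have h1 : ∑ w : Fin (n + 1) → W, (if pth T lab (n + 1) x w = p then wt T a (n + 1) x w
          else 0) =
        ∑ d : W, if lab x d = p 0 then a x * ∑ w : Fin n → W,
          (if pth T lab n (T x d) w = (fun j => p j.succ) then wt T a n (T x d) w else 0)
          else 0 := by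
      rw [← (Fin.consEquiv fun _ : Fin (n+1) => W).sum_comp, Fintype.sum_prod_type]
      refine Finset.sum_congr rfl fun d _ => ?_
      have h4 : ∀ w : Fin n → W, (Fin.consEquiv fun _ : Fin (n+1) => W) (d, w) =
        Fin.cons d w := fun _ => rfl
      have h3 : ∀ w : Fin n → W, (if pth T lab (n + 1) x
          ((Fin.consEquiv fun _ : Fin (n+1) => W) (d, w)) = p then wt T a (n + 1) x
          ((Fin.consEquiv fun _ : Fin (n+1) => W) (d, w)) else 0) =
          if lab x d = p 0 then a x * (if pth T lab n (T x d) w = (fun j => p j.succ) then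
            wt T a n (T x d) w else 0) else 0 := by
        intro w
        rw [h4]
        simp only [pth, wt, Fin.cons_zero, Fin.cons_succ]
        have h5 : (Fin.cons (lab x d) (pth T lab n (T x d) w) : Fin (n + 1) → Λ) = p ↔
            (lab x d = p 0 ∧ pth T lab n (T x d) w = fun j => p j.succ) := by
          constructor
          · intro h6
            refine ⟨?_, ?_⟩
            · rw [← h6]; rfl
            · rw [← h6]; rfl
          · rintro ⟨h5, h7⟩
            funext j
            refine Fin.cases ?_ (fun j => ?_) j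
            · exact h5
            · rw [Fin.cons_succ]; exact congrFun h7 j
        by_cases h6 : lab x d = p 0
        · by_cases h7 : pth T lab n (T x d) w = fun j => p j.succ
          · rw [if_pos (h5.2 ⟨h6, h7⟩), if_pos h6, if_pos h7]
          · rw [if_neg (fun h => h7 (h5.1 h).2), if_pos h6, if_neg h7, mul_zero]
        · rw [if_neg (fun h => h6 (h5.1 h).1), if_neg h6]
      rw [Finset.sum_congr rfl fun w _ => h3 w]
      by_cases h6 : lab x d = p 0
      · simp only [if_pos h6]
        rw [Finset.mul_sum]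
      · simp [if_neg h6]
    rw [h1, Finset.mul_sum, Finset.mul_sum]
    refine Finset.sum_congr rfl fun d _ => ?_
    split
    · rw [ih, pow_succ, mul_inv]
      ring
    · simp

theorem av_dcr (dd : X → ℝ) (n : ℕ) : ∀ x : X,
    av (fun w : Fin n → W => dcr T dd n x w) = DD T dd n x := by
  classical
  induction n with
  | zero => intro x; simp [dcr, DD, av]
  | succ n ih =>
    intro x
    have hN : (Fintype.card W : ℝ) ≠ 0 := by exact_mod_cast Fintype.card_ne_zero
    have h1 : av (fun w : Fin (n + 1) → W => dcr T dd (n + 1) x w) =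
        av (fun d : W => av (fun w : Fin n → W => dd x + dcr T dd n (T x d) w)) := by
      unfold av
      rw [← (Fin.consEquiv fun _ : Fin (n+1) => W).sum_comp, Fintype.sum_prod_type]
      refine Finset.sum_congr rfl fun d _ => ?_
      rw [Finset.mul_sum]
      refine Finset.sum_congr rfl fun w _ => ?_
      have h4 : (Fin.consEquiv fun _ : Fin (n+1) => W) (d, w) = Fin.cons d w := rfl
      rw [h4]
      simp only [dcr, Fin.cons_zero, Fin.cons_succ]
      rw [Fintype.card_fun, Fintype.card_fun, Fintype.card_fin, Fintype.card_fin]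
      push_cast
      rw [pow_succ, mul_inv]
      ring
    rw [h1]
    have h2 : ∀ d : W, av (fun w : Fin n → W => dd x + dcr T dd n (T x d) w) =
        dd x + DD T dd n (T x d) := by
      intro d
      rw [av_add, av_const, ih]
    simp only [h2]
    rw [av_add, av_const]
    rfl

theorem sum_cc_le (x : X) {lam : ℝ} (hlam : 0 ≤ lam) :
    ∑ d, (Fintype.card W : ℝ)⁻¹ * cc lab x d ^ lam ≤ 1 := by
  have hN : (0:ℝ) < Fintype.card W := by exact_mod_cast Fintype.card_pos
  have h1 : ∀ d ∈ (Finset.univ : Finset W), (Fintype.card W : ℝ)⁻¹ * cc lab x d ^ lam ≤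
      (Fintype.card W : ℝ)⁻¹ * 1 := by
    intro d _
    refine mul_le_mul_of_nonneg_left ?_ (by positivity)
    refine Real.rpow_le_one (cc_pos lab x d).le ?_ hlam
    unfold cc
    rw [div_le_one hN]
    exact_mod_cast Finset.card_le_univ _
  refine (Finset.sum_le_sum h1).trans (le_of_eq ?_)
  rw [Finset.sum_const, nsmul_eq_mul, Finset.card_univ, mul_one, mul_inv_cancel₀ hN.ne']

/-- A large set of words with few bad states has many label paths. -/
theorem many_paths {L ε : ℝ} (hL : log (Fintype.card W) ≤ L) (hε : 0 < ε) :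
    ∃ lam : ℝ, 0 < lam ∧ lam ≤ 1 ∧
    ∀ (h : ℝ) (X : Type) (T : X → W → X) (lab : X → W → Λ) (dd : X → ℝ),
      (∀ x, dd x = 1 ∨ (dd x = 0 ∧ h ≤ HH lab x)) → ∀ (n : ℕ) (x : X)
      (S : Finset (Fin n → W)) (D mu : ℝ), 0 < mu → mu * Fintype.card (Fin n → W) ≤ S.card →
      (∀ w ∈ S, dcr T dd n x w ≤ D) →
      exp (lam * (max (h - ε) 0 * D - ε * n)) ≤ mu / 2 →
      mu / 2 * exp (max (h - ε) 0 * n - ε * n - max (h - ε) 0 * D) ≤
        (S.image (pth T lab n x)).card := by
  classical
  have hN1 : (1:ℝ) ≤ Fintype.card W := by exact_mod_cast Fintype.card_pos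
  have hlN := Real.log_nonneg hN1
  obtain ⟨lam0, hlam0, hl01, hl02⟩ := MS.exists_rate (hlN.trans hL) hε
  set lam := min lam0 1 with hlamdef
  have hlam : 0 < lam := lt_min hlam0 one_pos
  have hlam1 : lam ≤ 1 := min_le_right _ _
  have hl1 : lam * log (Fintype.card W) ≤ 1 := by
    have h1 : lam * log (Fintype.card W) ≤ lam0 * L :=
      mul_le_mul (min_le_left _ _) hL hlN hlam0.le
    linarith
  have hl2 : lam * log (Fintype.card W) ^ 2 ≤ ε := by
    have h1 : lam * log (Fintype.card W) ^ 2 ≤ lam0 * L ^ 2 :=
      mul_le_mul (min_le_left _ _) (pow_le_pow_left₀ hlN hL 2) (by positivity) hlam0.le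
    linarith
  refine ⟨lam, hlam, hlam1, ?_⟩
  intro h X T lab dd hdd n x S D mu hmu hS hD hsmall
  set g0 : ℝ := max (h - ε) 0 with hg0
  have hg00 : 0 ≤ g0 := le_max_right _ _
  set s : ℝ := lam * g0 with hs
  have hs0 : 0 ≤ s := mul_nonneg hlam.le hg00
  set a : X → ℝ := fun x => exp (- (s * dd x)) with ha
  have ha0 : ∀ x, 0 ≤ a x := fun x => (Real.exp_pos _).le
  set N : ℝ := (Fintype.card W : ℝ) with hN
  have hN0 : 0 < N := by linarith
  have hrho : ∀ x, a x ^ (1 + lam) * ∑ d, N⁻¹ * cc lab x d ^ lam ≤ exp (-s) := by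
    intro x
    have h0 := sum_cc_le lab x hlam.le
    have h00 : 0 ≤ ∑ d, N⁻¹ * cc lab x d ^ lam := Finset.sum_nonneg fun d _ =>
      mul_nonneg (by positivity) (Real.rpow_nonneg (cc_pos lab x d).le _)
    rcases hdd x with h1 | ⟨h1, h2⟩
    · have h3 : a x ^ (1 + lam) ≤ exp (-s) := by
        rw [ha]
        simp only
        rw [h1, mul_one, ← Real.exp_mul]
        refine Real.exp_le_exp.2 ?_
        nlinarith
      calc _ ≤ a x ^ (1 + lam) * 1 := mul_le_mul_of_nonneg_left h0
              (Real.rpow_nonneg (ha0 x) _)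
        _ ≤ _ := by rw [mul_one]; exact h3
    · have h3 : a x = 1 := by rw [ha]; simp [h1]
      rw [h3, Real.one_rpow, one_mul]
      have h4 := moment_of_entropy lab hlam hl1 x h2
      have h5 : lam ^ 2 * log N ^ 2 ≤ lam * ε := by
        have := mul_le_mul_of_nonneg_left hl2 hlam.le
        nlinarith
      rcases le_total (h - ε) 0 with h6 | h6
      · have h7 : g0 = 0 := max_eq_right h6
        rw [hs, h7, mul_zero, neg_zero, Real.exp_zero]
        exact h0
      · have h7 : g0 = h - ε := max_eq_left h6
        refine h4.trans (Real.exp_le_exp.2 ?_)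
        rw [hs, h7, ← hN]
        nlinarith
  set Q : (Fin n → W) → ℝ := fun w => PW T lab a n x (pth T lab n x w) with hQ
  have hwt : ∀ w, wt T a n x w = exp (- (s * dcr T dd n x w)) := fun w =>
    wt_exp T dd s n x w
  have hwt0 : ∀ w, 0 < wt T a n x w := fun w => by rw [hwt]; exact Real.exp_pos _
  have hcardW : (Fintype.card (Fin n → W) : ℝ) = N ^ n := by
    rw [Fintype.card_fun, Fintype.card_fin]
    push_cast
    rfl
  have hfib : ∀ p : Fin n → Λ, ∑ w ∈ Finset.univ.filter (fun w => pth T lab n x w = p),
      wt T a n x w = N ^ n * PW T lab a n x p := by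
    intro p
    rw [PW_eq, ← mul_assoc, mul_inv_cancel₀ (by positivity), one_mul, Finset.sum_filter]
  have hmom : ∑ w, wt T a n x w * Q w ^ lam ≤ N ^ n * exp (-s) ^ n := by
    have h1 : ∑ w, wt T a n x w * Q w ^ lam =
        N ^ n * ∑ p ∈ Finset.univ.image (pth T lab n x), PW T lab a n x p ^ (1 + lam) := by
      rw [Finset.mul_sum, ← Finset.sum_fiberwise_of_maps_to
        (t := Finset.univ.image (pth T lab n x))
        (g := pth T lab n x) fun w hw => Finset.mem_image_of_mem _ hw]
      refine Finset.sum_congr rfl fun p hp => ?_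
      have h3 : ∑ w ∈ Finset.univ.filter (fun w => pth T lab n x w = p),
          wt T a n x w * Q w ^ lam =
          (∑ w ∈ Finset.univ.filter (fun w => pth T lab n x w = p), wt T a n x w) *
            PW T lab a n x p ^ lam := by
        rw [Finset.sum_mul]
        refine Finset.sum_congr rfl fun w hw => ?_
        rw [Finset.mem_filter] at hw
        rw [hQ]
        simp only
        rw [hw.2]
      rw [h3, hfib]
      rcases (PW_nonneg T lab a ha0 n x p).eq_or_lt with h5 | h5
      · rw [← h5, Real.zero_rpow hlam.ne', Real.zero_rpow (by linarith)]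
        ring
      · rw [Real.rpow_add h5, Real.rpow_one]
        ring
    rw [h1]
    exact mul_le_mul_of_nonneg_left (wmoment T lab a ha0 hlam.le (Real.exp_pos _).le hrho n x _)
      (by positivity)
  -- heavy words
  set θ : ℝ := exp (- ((g0 - ε) * n)) with hθ
  have hθ0 : 0 < θ := Real.exp_pos _
  set H : Finset (Fin n → W) := S.filter fun w => θ ≤ Q w with hH
  have hHc : (H.card : ℝ) ≤ mu / 2 * N ^ n := by
    have h1 : (H.card : ℝ) * (exp (- (s * D)) * θ ^ lam) ≤ N ^ n * exp (-s) ^ n := by
      refine le_trans ?_ hmom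
      rw [← nsmul_eq_mul, ← Finset.sum_const]
      refine le_trans (Finset.sum_le_sum (s := H)
        (g := fun w => wt T a n x w * Q w ^ lam) fun w hw => ?_) ?_
      · rw [hH, Finset.mem_filter] at hw
        have h2 : exp (- (s * D)) ≤ wt T a n x w := by
          rw [hwt]
          refine Real.exp_le_exp.2 ?_
          have := mul_le_mul_of_nonneg_left (hD w hw.1) hs0
          linarith
        exact mul_le_mul h2 (Real.rpow_le_rpow hθ0.le hw.2 hlam.le)
          (Real.rpow_nonneg hθ0.le _) (hwt0 w).le
      · refine Finset.sum_le_sum_of_subset_of_nonneg (Finset.subset_univ _) fun w _ _ => ?_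
        exact mul_nonneg (hwt0 w).le (Real.rpow_nonneg (PW_nonneg _ _ _ ha0 _ _ _) _)
    have h2 : 0 < exp (- (s * D)) * θ ^ lam := by positivity
    rw [← le_div_iff₀ h2] at h1
    refine h1.trans ?_
    rw [mul_div_assoc, mul_comm]
    refine mul_le_mul_of_nonneg_right ?_ (by positivity)
    refine le_trans (le_of_eq ?_) hsmall
    rw [hθ, ← Real.exp_mul, ← Real.exp_add, ← Real.exp_nat_mul, ← Real.exp_sub]
    congr 1
    rw [hs]
    ring
  set S' : Finset (Fin n → W) := S.filter fun w => ¬ θ ≤ Q w with hS'
  have hS'c : mu / 2 * N ^ n ≤ S'.card := by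
    have h1 : (H.card : ℝ) + S'.card = S.card := by
      exact_mod_cast Finset.card_filter_add_card_filter_not (s := S) (fun w => θ ≤ Q w)
    rw [hcardW] at hS
    linarith
  have h1 : (S'.card : ℝ) * exp (- (s * D)) ≤
      (S'.image (pth T lab n x)).card * (N ^ n * θ) := by
    calc (S'.card : ℝ) * exp (- (s * D)) = ∑ _w ∈ S', exp (- (s * D)) := by
          rw [Finset.sum_const, nsmul_eq_mul]
      _ ≤ ∑ w ∈ S', wt T a n x w := by
          refine Finset.sum_le_sum fun w hw => ?_
          rw [hS', Finset.mem_filter] at hw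
          rw [hwt]
          refine Real.exp_le_exp.2 ?_
          have := mul_le_mul_of_nonneg_left (hD w hw.1) hs0
          linarith
      _ = ∑ p ∈ S'.image (pth T lab n x), ∑ w ∈ S'.filter (fun w => pth T lab n x w = p),
            wt T a n x w := by
          rw [Finset.sum_fiberwise_of_maps_to fun w hw => Finset.mem_image_of_mem _ hw]
      _ ≤ ∑ p ∈ S'.image (pth T lab n x), N ^ n * θ := by
          refine Finset.sum_le_sum fun p hp => ?_
          obtain ⟨w, hw, rfl⟩ := Finset.mem_image.1 hp
          rw [hS', Finset.mem_filter, not_le] at hw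
          refine le_trans ?_ (mul_le_mul_of_nonneg_left hw.2.le (by positivity))
          rw [hQ]
          simp only
          rw [← hfib]
          refine Finset.sum_le_sum_of_subset_of_nonneg ?_ fun w _ _ => (hwt0 w).le
          intro v hv
          rw [Finset.mem_filter] at hv
          exact Finset.mem_filter.2 ⟨Finset.mem_univ v, hv.2⟩
      _ = (S'.image (pth T lab n x)).card * (N ^ n * θ) := by
          rw [Finset.sum_const, nsmul_eq_mul]
  have h2 : ((S'.image (pth T lab n x)).card : ℝ) ≤ (S.image (pth T lab n x)).card := by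
    exact_mod_cast Finset.card_le_card (Finset.image_subset_image (Finset.filter_subset _ _))
  refine le_trans ?_ h2
  have h3 : mu / 2 * N ^ n * exp (- (s * D)) ≤
      (S'.image (pth T lab n x)).card * (N ^ n * θ) :=
    (mul_le_mul_of_nonneg_right hS'c (Real.exp_pos _).le).trans h1
  have h4 : mu / 2 * exp (- (s * D)) / θ ≤ (S'.image (pth T lab n x)).card := by
    rw [div_le_iff₀ hθ0]
    have h5 : N ^ n * (mu / 2 * exp (- (s * D))) ≤
        N ^ n * ((S'.image (pth T lab n x)).card * θ) := by linarith
    exact le_of_mul_le_mul_left h5 (by positivity)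
  refine le_trans ?_ h4
  rw [mul_div_assoc, hθ, ← Real.exp_sub]
  refine mul_le_mul_of_nonneg_left (Real.exp_le_exp.2 ?_) (by positivity)
  by_cases hSe : S'.Nonempty
  · obtain ⟨w, hw⟩ := hSe
    have hD0 : s * D ≤ g0 * D ∨ D < 0 := by
      rcases lt_or_ge D 0 with h | h
      · exact Or.inr h
      · left
        rw [hs]
        have := mul_le_mul_of_nonneg_right hlam1 (mul_nonneg hg00 h)
        linarith
    rcases hD0 with h | h
    · linarith
    · -- impossible since the number of bad states is nonnegative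
      exfalso
      rw [hS', Finset.mem_filter] at hw
      have h6 := hD w hw.1
      have h7 : ∀ (n : ℕ) (x : X) (w : Fin n → W), 0 ≤ dcr T dd n x w := by
        intro n
        induction n with
        | zero => intro x w; simp [dcr]
        | succ n ih =>
          intro x w
          simp only [dcr]
          have : 0 ≤ dd x := by
            rcases hdd x with h | ⟨h, -⟩ <;> rw [h]
            exact zero_le_one
          have := ih (T x (w 0)) fun j => w j.succ
          linarith
      have := h7 n x w
      linarith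
  · rw [Finset.not_nonempty_iff_eq_empty] at hSe
    rw [hSe] at hS'c
    simp only [Finset.card_empty, Nat.cast_zero] at hS'c
    have : 0 < mu / 2 * N ^ n := by positivity
    linarith

end lea

end Pool.Agent.V7H68.UF
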