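import Pool.Agent.V7H68.UF.Main

/-!
Euclidean neighbourhoods, and functions given by their zooms.
-/

namespace Pool.Agent.V7H68.UF

open Finset Real MeasureTheory SS MS Filter
open scoped ENNReal

set_option linter.unusedSectionVars false

section meas

variable {ι : Type} [Fintype ι]

/-- Functions with bounded zooms are measurable. -/
theorem meas_of_bdd {b : ℕ} (hb : 2 ≤ b) {f : (ι → ℝ) → ι → ℝ} (hoff : ∀ u ∉ cube ι, f u = 0)
    {R : ℝ} (hR : ∀ (n : ℕ) (z : ι → ℕ), (∀ i, z i < b ^ n) → ∀ u, ‖zm (b ^ n) z f u‖ ≤ R) :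
    Measurable f := by
  have hb0 : (0:ℝ) < b := by exact_mod_cast (by omega : 0 < b)
  have hb1 : (1:ℝ) < b := by exact_mod_cast (by omega : 1 < b)
  set F : ℕ → (ι → ℝ) → ι → ℝ := fun n => (cube ι).indicator fun v =>
    f (((b ^ n : ℕ) : ℝ)⁻¹ • nv fun i => ⌊(b:ℝ) ^ n * v i⌋₊) with hF
  have hFm : ∀ n, Measurable (F n) := by
    intro n
    refine Measurable.indicator ?_ cube_meas
    have h1 : Measurable fun v : ι → ℝ => (fun i => ⌊(b:ℝ) ^ n * v i⌋₊ : ι → ℕ) := by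
      refine measurable_pi_lambda _ fun i => Nat.measurable_floor.comp ?_
      exact (measurable_pi_apply i).const_mul _
    have h2 : Measurable fun z : ι → ℕ => f (((b ^ n : ℕ) : ℝ)⁻¹ • nv z) :=
      measurable_of_countable _
    exact h2.comp h1
  refine measurable_of_tendsto_metrizable hFm ?_
  rw [tendsto_pi_nhds]
  intro v
  by_cases hv : v ∈ cube ι
  · have hlim : Filter.Tendsto (fun n : ℕ => R * ((b:ℝ) ^ n)⁻¹) Filter.atTop (nhds 0) := by
      have h1 : Filter.Tendsto (fun n : ℕ => ((b:ℝ) ^ n)⁻¹) Filter.atTop (nhds 0) :=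
        tendsto_inv_atTop_zero.comp (tendsto_pow_atTop_atTop_of_one_lt hb1)
      simpa using h1.const_mul R
    rw [tendsto_iff_norm_sub_tendsto_zero]
    refine squeeze_zero (fun _ => norm_nonneg _) (fun n => ?_) hlim
    rw [hF]
    simp only
    rw [Set.indicator_of_mem hv]
    set z : ι → ℕ := fun i => ⌊(b:ℝ) ^ n * v i⌋₊ with hz
    have hz1 : ∀ i, (z i : ℝ) ≤ (b:ℝ) ^ n * v i := fun i =>
      Nat.floor_le (mul_nonneg (by positivity) (hv i).1)
    have hz2 : ∀ i, (b:ℝ) ^ n * v i < z i + 1 := fun i => Nat.lt_floor_add_one _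
    have hz3 : ∀ i, z i < b ^ n := by
      intro i
      have h1 : (z i : ℝ) < (b:ℝ) ^ n :=
        (hz1 i).trans_lt (mul_lt_of_lt_one_right (by positivity) (hv i).2)
      exact_mod_cast h1
    have hw : (fun i => (b:ℝ) ^ n * v i - z i) ∈ cube ι := fun i =>
      ⟨by linarith [hz1 i], by linarith [hz2 i]⟩
    have h1 := hR n z hz3 (fun i => (b:ℝ) ^ n * v i - z i)
    rw [zm_of_mem hw] at h1
    have h2 : ((b ^ n : ℕ) : ℝ)⁻¹ • (nv z + fun i => (b:ℝ) ^ n * v i - z i) = v := by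
      funext i
      simp only [Pi.smul_apply, Pi.add_apply, nv, smul_eq_mul]
      push_cast
      field_simp
      ring
    rw [h2, norm_smul, Real.norm_of_nonneg (by positivity)] at h1
    rw [norm_sub_rev]
    push_cast at h1 ⊢
    have h3 : (0:ℝ) < (b:ℝ) ^ n := by positivity
    rw [← div_eq_mul_inv, le_div_iff₀ h3]
    linarith
  · have : ∀ n, F n v = f v := by
      intro n
      rw [hF]
      simp only
      rw [Set.indicator_of_notMem hv, hoff v hv]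
    simp only [this]
    exact tendsto_const_nhds

/-- From bounded zooms with few different ones to the class. -/
theorem Cl.of_zooms {b : ℕ} (hb : 2 ≤ b) {g : (ι → ℝ) → ι → ℝ} {R : ℝ} {p : ℕ → ℕ} [DecidableEq ι]
    (h1 : ∀ (k : ℕ) (z : ι → ℕ), (∀ i, z i < b ^ k) → ∀ y ∈ cube ι, ‖zm (b ^ k) z g y‖ ≤ R)
    (h2 : ∀ (k : ℕ) (z : ι → ℕ), (∀ i, z i < b ^ k) → ∀ j : ℕ,
      {f | ∃ y : ι → ℕ, (∀ i, y i < b ^ j) ∧
        f = zm (b ^ (k + j)) (fun i => b ^ j * z i + y i) g}.ncard ≤ p j) :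
    Cl b R p (zm 1 0 g) := by
  have hbp : 0 < b := by omega
  have hR0 : 0 ≤ R := (norm_nonneg _).trans (h1 0 0 (fun i => by simp) 0 zero_mem_cube)
  have hzz : ∀ (k : ℕ) (z : ι → ℕ), (∀ i, z i < b ^ k) → zm (b ^ k) z (zm 1 0 g) =
      zm (b ^ k) z g := by
    intro k z hz
    rw [zm_zm one_pos (by positivity) 0 z hz, one_mul]
    congr 1
    funext i
    simp
  have hbd : ∀ (k : ℕ) (z : ι → ℕ), (∀ i, z i < b ^ k) → ∀ u,
      ‖zm (b ^ k) z (zm 1 0 g) u‖ ≤ R := by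
    intro k z hz u
    rw [hzz k z hz]
    by_cases hu : u ∈ cube ι
    · exact h1 k z hz u hu
    · rw [zm_of_not_mem hu, norm_zero]
      exact hR0
  refine ⟨⟨meas_of_bdd hb (fun u hu => zm_of_not_mem hu) hbd, fun u hu => zm_of_not_mem hu,
    zm_zero _ _ _, hbd⟩, fun q z hz k => ?_⟩
  refine le_trans (le_of_eq ?_) (h2 q z hz k)
  congr 1
  rw [hzz q z hz]
  ext f
  simp only [Set.mem_range, Set.mem_ofPred_eq]
  constructor
  · rintro ⟨w, rfl⟩
    refine ⟨dv w, dv_lt w, ?_⟩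
    rw [zm_zm (by positivity) (by positivity) z (dv w) (dv_lt w), ← pow_add]
  · rintro ⟨y, hy, rfl⟩
    refine ⟨fun i => ⟨y i, hy i⟩, ?_⟩
    have : dv (fun i => (⟨y i, hy i⟩ : Fin (b ^ k))) = y := rfl
    rw [this, zm_zm (by positivity) (by positivity) z y hy, ← pow_add]

end meas

/-! ### Euclidean space -/

/-- The coordinates. -/
noncomputable def Ps (m : ℕ) (z : (Fin m → ℝ) × ℝ) : EuclideanSpace ℝ (Fin (m + 1)) :=
  WithLp.toLp 2 (Fin.cons z.2 z.1)

theorem Ps_mp (m : ℕ) : MeasurePreserving (Ps m) := by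
  have h1 := (volume_preserving_piFinSuccAbove (fun _ : Fin (m + 1) => ℝ) 0).symm
  have h2 : MeasurePreserving (Prod.swap : (Fin m → ℝ) × ℝ → ℝ × (Fin m → ℝ)) :=
    Measure.measurePreserving_swap
  have h3 := PiLp.volume_preserving_toLp (Fin (m + 1))
  have h4 := h3.comp (h1.comp h2)
  convert h4 using 1
  funext z
  unfold Ps
  simp only [Function.comp_apply, Prod.swap]
  congr 1
  funext j
  refine Fin.cases ?_ (fun j => ?_) j
  · simp [MeasurableEquiv.piFinSuccAbove]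
  · simp [MeasurableEquiv.piFinSuccAbove]

theorem Ps_dist (m : ℕ) {y x : Fin m → ℝ} {t s δ : ℝ} (hs : 0 < s)
    (h : ∀ i, |y i - x i| < s) (hδ : (m + 1) * s ≤ δ) : dist (Ps m (y, t)) (Ps m (x, t)) < δ := by
  have h1 : dist (Ps m (y, t)) (Ps m (x, t)) ≤ m * s := by
    rw [EuclideanSpace.dist_eq]
    refine Real.sqrt_le_iff.2 ⟨by positivity, ?_⟩
    rw [Fin.sum_univ_succ]
    have h2 : dist (Ps m (y, t) 0) (Ps m (x, t) 0) = 0 := by simp [Ps]
    rw [h2]
    have h3 : ∀ i : Fin m, dist (Ps m (y, t) i.succ) (Ps m (x, t) i.succ) ^ 2 ≤ s ^ 2 := by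
      intro i
      refine pow_le_pow_left₀ dist_nonneg ?_ 2
      have : dist (Ps m (y, t) i.succ) (Ps m (x, t) i.succ) = |y i - x i| := by
        simp [Ps, Real.dist_eq]
      rw [this]
      exact (h i).le
    have h4 := Finset.sum_le_sum fun i (_ : i ∈ (Finset.univ : Finset (Fin m))) => h3 i
    rw [Finset.sum_const, Finset.card_univ, Fintype.card_fin, nsmul_eq_mul] at h4
    rcases Nat.eq_zero_or_pos m with h5 | h5
    · subst h5
      simp
    · have h6 : (1:ℝ) ≤ m := by exact_mod_cast h5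
      have h7 : (m:ℝ) * s ^ 2 ≤ (m * s) ^ 2 := by
        have : (m:ℝ) * s ^ 2 * 1 ≤ m * s ^ 2 * m := by
          exact mul_le_mul_of_nonneg_left h6 (by positivity)
        nlinarith
      linarith
  have h2 : (0:ℝ) ≤ m := Nat.cast_nonneg m
  nlinarith

theorem final (m : ℕ) (hm : 1 ≤ m) {b : ℕ} (hb : 2 ≤ b) {R h : ℝ} (hR : 0 ≤ R) (hh : 0 ≤ h)
    {p : ℕ → ℕ}
    (hp : ∀ ε : ℝ, 0 < ε → ∀ᶠ k : ℕ in Filter.atTop, (p k : ℝ) ≤ (b:ℝ) ^ ((h + ε) * k))
    {F : (Fin m → ℝ) → Fin m → ℝ}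
    (hF : ∀ᵐ v ∂(volume.restrict (cube (Fin m))), DifferentiableAt ℝ F v) {ε lam : ℝ}
    (hε : 0 < ε) (hlam : 0 < lam) :
    ∃ c : ℝ, 0 < c ∧ ∀ g : (Fin m → ℝ) → Fin m → ℝ, Cl b R p (zm 1 0 g) →
      ∀ Y : Set ((Fin m → ℝ) × ℝ), MeasurableSet Y → Y ⊆ cube (Fin m) ×ˢ Set.Icc (0:ℝ) 1 →
      ENNReal.ofReal lam ≤ volume Y → ∀ δ : ℝ, 0 < δ → δ < 1 →
      ENNReal.ofReal (c * δ ^ (h + ε)) ≤ volume (Metric.thickening δ
        {x | ∃ v t, (v, t) ∈ Y ∧ x = Ps m (g v + F v + t • v, t)}) := by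
  have : Nonempty (Fin m) := ⟨⟨0, hm⟩⟩
  have hb0 : (0:ℝ) < b := by exact_mod_cast (by omega : 0 < b)
  have hb1 : (1:ℝ) < b := by exact_mod_cast (by omega : 1 < b)
  have hL0 : 0 < log b := Real.log_pos hb1
  have hp' : ∀ ε : ℝ, 0 < ε → ∀ᶠ k : ℕ in Filter.atTop, log (p k) ≤ (h + ε) * k * log b := by
    intro ε hε
    filter_upwards [hp ε hε] with k hk
    rcases Nat.eq_zero_or_pos (p k) with h0 | h0
    · rw [h0, Nat.cast_zero, Real.log_zero]
      positivity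
    · have h1 : (0:ℝ) < p k := by exact_mod_cast h0
      have h2 := Real.log_le_log h1 hk
      rwa [Real.log_rpow hb0] at h2
  obtain ⟨β, c, hβ2, hc, hmain⟩ := uf_main hb hR hh hp' hF hε hlam
  have hβ0 : (0:ℝ) < β := by exact_mod_cast (by omega : 0 < β)
  have hβ1 : (1:ℝ) < β := by exact_mod_cast (by omega : 1 < β)
  have hm0 : (0:ℝ) < m + 1 := by positivity
  refine ⟨c * (((m:ℝ) + 1) * β)⁻¹ ^ (h + ε), mul_pos hc (Real.rpow_pos_of_pos (by positivity) _),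
    ?_⟩
  intro g hg Y hYm hYc hYv δ hδ0 hδ1
  -- the scale
  have hex : ∃ n : ℕ, ((m:ℝ) + 1) * ((β:ℝ) ^ n)⁻¹ ≤ δ := by
    obtain ⟨n, hn⟩ := exists_pow_lt_of_lt_one (show 0 < δ / ((m:ℝ) + 1) by positivity)
      (show (β:ℝ)⁻¹ < 1 from inv_lt_one_of_one_lt₀ hβ1)
    refine ⟨n, ?_⟩
    rw [inv_pow, lt_div_iff₀ hm0] at hn
    linarith
  classical
  set n := Nat.find hex with hn
  have hn1 : ((m:ℝ) + 1) * ((β:ℝ) ^ n)⁻¹ ≤ δ := Nat.find_spec hex
  have hnpos : 0 < n := by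
    rw [Nat.pos_iff_ne_zero]
    intro h0
    rw [h0, pow_zero, inv_one, mul_one] at hn1
    have : (0:ℝ) ≤ m := Nat.cast_nonneg m
    linarith
  obtain ⟨n', hn'⟩ : ∃ n', n = n' + 1 := ⟨n - 1, by omega⟩
  have hn2 : δ < ((m:ℝ) + 1) * ((β:ℝ) ^ n')⁻¹ := by
    have := Nat.find_min hex (m := n') (by omega)
    rwa [not_le] at this
  have hs0 : (0:ℝ) < ((β:ℝ) ^ n)⁻¹ := by positivity
  set A : Set (EuclideanSpace ℝ (Fin (m + 1))) :=
    {x | ∃ v t, (v, t) ∈ Y ∧ x = Ps m (g v + F v + t • v, t)} with hA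
  have hopen : IsOpen (Metric.thickening δ A) := Metric.isOpen_thickening
  have hU := hmain (zm 1 0 g) hg (g 0) Y hYm hYc hYv n (Ps m ⁻¹' Metric.thickening δ A)
    ((Ps_mp m).measurable hopen.measurableSet) (by
      intro v t hvt y hy
      have hv : v ∈ cube (Fin m) := (hYc hvt).1
      have h1 : zm 1 0 g v + (F v + g 0) + t • v = g v + F v + t • v := by
        rw [zm_of_mem hv]
        have h2 : nv (0 : Fin m → ℕ) = 0 := by funext i; simp [nv]
        rw [h2]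
        simp only [Nat.cast_one, inv_one, one_smul, zero_add]
        abel
      rw [h1] at hy
      rw [Set.mem_preimage, Metric.mem_thickening_iff]
      exact ⟨_, ⟨v, t, hvt, rfl⟩, Ps_dist m hs0 hy hn1⟩)
  rw [(Ps_mp m).measure_preimage hopen.measurableSet.nullMeasurableSet] at hU
  refine le_trans (ENNReal.ofReal_le_ofReal ?_) hU
  rw [mul_assoc]
  refine mul_le_mul_of_nonneg_left ?_ hc.le
  rw [← Real.mul_rpow (by positivity) hδ0.le]
  refine Real.rpow_le_rpow (by positivity) ?_ (by linarith)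
  rw [inv_mul_le_iff₀ (by positivity), hn', pow_succ]
  refine hn2.le.trans (le_of_eq ?_)
  field_simp

end Pool.Agent.V7H68.UF
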