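import Pool.Agent.V7H68.UF.Full

/-!
The exceptional parameters form a small set, uniformly over the class.
-/

namespace Pool.Agent.V7H68.UF

open Finset Real MeasureTheory SS MS

set_option linter.unusedSectionVars false

open Classical in
/-- A finite weighted set which represents a set of positive measure. -/
theorem exists_weights {J : Type} [Fintype J] (B : J → Set ℝ)
    (hB : ∀ j, MeasurableSet (B j)) (G : Set ℝ) (hG0 : volume G ≠ 0) (hG1 : volume G ≠ ⊤) :
    ∃ (T : Finset ℝ) (c : ℝ → ℝ), (∀ t ∈ T, t ∈ G) ∧ (∀ t ∈ T, 0 ≤ c t) ∧ ∑ t ∈ T, c t = 1 ∧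
      ∀ j, ∑ t ∈ T, c t * (B j).indicator 1 t ≤ (volume (B j)).toReal / (volume G).toReal ∨
        volume (B j) = ⊤ := by
  set μ := volume.restrict G with hμ
  have hfin : IsFiniteMeasure μ := ⟨by
    rw [hμ, Measure.restrict_apply_univ]
    exact lt_top_iff_ne_top.2 hG1⟩
  set V : ℝ := (volume G).toReal with hV
  have hV0 : 0 < V := ENNReal.toReal_pos hG0 hG1
  set sig : ℝ → Finset J := fun t => Finset.univ.filter fun j => t ∈ B j with hsig
  set cell : Finset J → Set ℝ := fun s => {t | sig t = s} with hcell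
  have hcm : ∀ s, MeasurableSet (cell s) := by
    intro s
    have : cell s = ⋂ j : J, if j ∈ s then B j else (B j)ᶜ := by
      ext t
      simp only [hcell, hsig, Set.mem_ofPred_eq, Set.mem_iInter]
      constructor
      · rintro rfl j
        by_cases hj : t ∈ B j
        · simp [hj]
        · simp [hj]
      · intro h
        ext j
        have := h j
        by_cases hj : j ∈ s
        · rw [if_pos hj] at this
          simp [this, hj]
        · rw [if_neg hj] at this
          simp only [Finset.mem_filter, Finset.mem_univ, true_and]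
          exact ⟨fun h => absurd h this, fun h => absurd h hj⟩
    rw [this]
    refine MeasurableSet.iInter fun j => ?_
    split
    · exact hB j
    · exact (hB j).compl
  have hdisj : ∀ S : Finset (Finset J), Set.PairwiseDisjoint (S : Set (Finset J)) cell := by
    intro S s _ s' _ hss
    rw [Function.onFun, Set.disjoint_left]
    intro t ht ht'
    exact hss (ht.symm.trans ht')
  have hsum : ∀ S : Finset (Finset J), ∑ s ∈ S, μ.real (cell s) = μ.real (⋃ s ∈ S, cell s) :=
    fun S => (measureReal_biUnion_finset (hdisj S) fun s _ => hcm s).symm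
  set Sp : Finset (Finset J) := Finset.univ.filter fun s => μ.real (cell s) ≠ 0 with hSp
  have hne : ∀ s, ∃ t, s ∈ Sp → t ∈ cell s ∧ t ∈ G := by
    intro s
    by_cases hs : s ∈ Sp
    · rw [hSp, Finset.mem_filter] at hs
      have h1 : μ (cell s) ≠ 0 := by
        intro h0
        apply hs.2
        rw [Measure.real, h0, ENNReal.toReal_zero]
      rw [hμ, Measure.restrict_apply (hcm s)] at h1
      obtain ⟨t, ht⟩ := nonempty_of_measure_ne_zero h1
      exact ⟨t, fun _ => ht⟩
    · exact ⟨0, fun h => absurd h hs⟩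
  choose pt hpt using hne
  have hinj : Set.InjOn pt (Sp : Set (Finset J)) := by
    intro s hs s' hs' h
    have h1 : sig (pt s) = s := (hpt s hs).1
    have h2 : sig (pt s') = s' := (hpt s' hs').1
    rw [← h1, ← h2, h]
  have hT : ∀ F : Finset J → ℝ, ∑ t ∈ Sp.image pt, (μ.real (cell (sig t)) / V) * F (sig t) =
      ∑ s : Finset J, (μ.real (cell s) / V) * F s := by
    intro F
    rw [Finset.sum_image hinj]
    have h1 : ∑ s ∈ Sp, (μ.real (cell (sig (pt s))) / V) * F (sig (pt s)) =
        ∑ s ∈ Sp, (μ.real (cell s) / V) * F s := by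
      refine Finset.sum_congr rfl fun s hs => ?_
      have h1 : sig (pt s) = s := (hpt s hs).1
      rw [h1]
    rw [h1, hSp, Finset.sum_filter]
    refine Finset.sum_congr rfl fun s _ => ?_
    split_ifs with h
    · rfl
    · rw [not_not] at h
      rw [h]
      ring
  refine ⟨Sp.image pt, fun t => μ.real (cell (sig t)) / V, ?_, ?_, ?_, ?_⟩
  · intro t ht
    obtain ⟨s, hs, rfl⟩ := Finset.mem_image.1 ht
    exact (hpt s hs).2
  · intro t _
    exact div_nonneg measureReal_nonneg hV0.le
  · have h1 := hT fun _ => 1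
    simp only [mul_one] at h1
    rw [h1, ← Finset.sum_div, hsum]
    have h2 : (⋃ s ∈ (Finset.univ : Finset (Finset J)), cell s) = Set.univ := by
      ext t
      simp [hcell]
    rw [h2, Measure.real, hμ, Measure.restrict_apply_univ]
    exact div_self hV0.ne'
  · intro j
    by_cases hj : volume (B j) = ⊤
    · exact Or.inr hj
    left
    have h1 := hT fun s => if j ∈ s then 1 else 0
    have h2 : ∀ t, (B j).indicator 1 t = if j ∈ sig t then (1:ℝ) else 0 := by
      intro t
      by_cases ht : t ∈ B j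
      · simp [hsig, ht]
      · simp [hsig, ht]
    simp only [h2]
    rw [h1]
    have h3 : ∑ s : Finset J, (μ.real (cell s) / V) * (if j ∈ s then (1:ℝ) else 0) =
        (∑ s ∈ Finset.univ.filter fun s : Finset J => j ∈ s, μ.real (cell s)) / V := by
      rw [Finset.sum_filter, Finset.sum_div]
      refine Finset.sum_congr rfl fun s _ => ?_
      split_ifs <;> ring
    rw [h3, hsum]
    have h4 : (⋃ s ∈ Finset.univ.filter (fun s : Finset J => j ∈ s), cell s) = B j := by
      ext t
      simp [hcell, hsig]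
    rw [h4, Measure.real, hμ, Measure.restrict_apply (hB j)]
    refine div_le_div_of_nonneg_right ?_ hV0.le
    exact ENNReal.toReal_mono hj (measure_mono Set.inter_subset_left)

variable {ι : Type} [Fintype ι] [DecidableEq ι] {b : ℕ}

theorem pf_id (f : (ι → ℝ) → ι → ℝ) (t : ℝ) : pf LinearMap.id f t = ft f t := rfl

/-- The exceptional set of parameters is small. -/
theorem ml [NeZero b] [Nonempty ι] (hb : 2 ≤ b) {R : ℝ} (hR : 0 ≤ R) {p : ℕ → ℕ}
    {hE : ℝ} (hE0 : 0 ≤ hE)
    (hp : ∀ ε : ℝ, 0 < ε → ∀ᶠ k : ℕ in Filter.atTop, log (p k) ≤ (hE + ε) * k) {η κ : ℝ}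
    (hη : 0 < η) (hκ : 0 < κ) : ∃ N0 : ℕ, ∀ N : ℕ, N0 ≤ N → ∀ f : (ι → ℝ) → ι → ℝ,
    Cl b R p f → volume {t | t ∈ Set.Icc (0:ℝ) 1 ∧
      En b (ft f t) N < (Fintype.card ι * log b - hE - η) * N} ≤ ENNReal.ofReal κ := by
  have hbp : 0 < b := by omega
  have hb1 : (1:ℝ) < b := by exact_mod_cast (by omega : 1 < b)
  have hlb : 0 < log b := Real.log_pos hb1
  set m : ℝ := (Fintype.card ι : ℝ) with hm
  have hm1 : 1 ≤ m := by
    rw [hm]
    exact_mod_cast Fintype.card_pos
  set K : ℝ := m * log b with hK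
  have hK0 : 0 < K := by positivity
  set δ : ℝ := min (η / 3) K with hδ
  have hδ0 : 0 < δ := lt_min (by linarith) hK0
  have hδ1 : δ ≤ η / 3 := min_le_left _ _
  have hδ2 : δ ≤ K := min_le_right _ _
  set A : ℕ := Fintype.card ι * (Fintype.card ι + 2) + 1 with hA
  set β : ℕ → ℝ := fun l => Cb ι * (1 / 2) ^ l / κ with hβ
  have hβt : Filter.Tendsto β Filter.atTop (nhds 0) := by
    have h1 := (tendsto_pow_atTop_nhds_zero_of_lt_one (show (0:ℝ) ≤ 1 / 2 by norm_num)
      (by norm_num)).const_mul (Cb ι / κ)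
    rw [mul_zero] at h1
    refine h1.congr fun l => ?_
    rw [hβ]
    ring
  have hτb : δ / (8 * m) ≤ log b := by
    rw [div_le_iff₀ (by positivity)]
    have e : log b * (8 * m) = 8 * K := by rw [hK]; ring
    rw [e]
    linarith
  obtain ⟨r, hr0, hrK, hr1, hr2⟩ := exists_rate (ι := ι) hbp hτb R p A β
  have hfull := full_rate hb hR hβt hE0 hp hδ0 hr0 hr1 hr2
  obtain ⟨C, hC0, hC⟩ := hr2 δ hδ0
  obtain ⟨N0, hN0⟩ := exists_nat_gt (3 * C / η)
  refine ⟨N0 + 1, fun N hN f hf => ?_⟩
  set G : Set ℝ := {t | t ∈ Set.Icc (0:ℝ) 1 ∧ En b (ft f t) N < (K - hE - η) * N} with hG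
  by_contra hcon
  rw [not_le] at hcon
  have hG0 : volume G ≠ 0 := by
    intro h0
    rw [h0] at hcon
    exact not_lt_zero hcon
  have hGsub : G ⊆ Set.Icc (0:ℝ) 1 := fun t ht => ht.1
  have hG1 : volume G ≠ ⊤ := by
    refine ne_top_of_le_ne_top ?_ (measure_mono hGsub)
    rw [Real.volume_Icc]
    exact ENNReal.ofReal_ne_top
  have hGκ : κ ≤ (volume G).toReal := by
    rw [← ENNReal.ofReal_le_iff_le_toReal hG1]
    exact hcon.le
  obtain ⟨T, c, hT1, hT2, hT3, hT4⟩ := exists_weights
    (J := Fin (N + 1) × Fin (N + 1) × (ι → Fin (b ^ N)))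
    (fun j => bdn b (zm (b ^ (j.1 : ℕ)) (dv j.2.2) f) A (j.2.1 : ℕ))
    (fun j => bdn_meas _ _ _) G hG0 hG1
  have hI : Inst b R p A β N f T c (fun _ => ∅) (fun _ => LinearMap.id) := by
    refine ⟨hf, fun t ht => ?_, hT2, hT3, fun t _ => Adm.nil, fun k l z hkl hz => ?_⟩
    · have := (hGsub (hT1 t ht))
      rw [abs_le]
      constructor <;> linarith [this.1, this.2]
    · have hzN : ∀ i, z i < b ^ N := fun i =>
        (hz i).trans_le (Nat.pow_le_pow_right hbp (by omega))
      set j : Fin (N + 1) × Fin (N + 1) × (ι → Fin (b ^ N)) :=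
        (⟨k, by omega⟩, ⟨l, by omega⟩, fun i => ⟨z i, hzN i⟩) with hj
      have hdv : dv j.2.2 = z := rfl
      have h1 := hT4 j
      have h2 : bdn b (zm (b ^ (j.1 : ℕ)) (dv j.2.2) f) A (j.2.1 : ℕ) =
          bdn b (zm (b ^ k) z f) A l := rfl
      rw [h2] at h1
      have h3 := bdn_vol hb (zm (b ^ k) z f) (le_refl A) l
      have h4 : volume (bdn b (zm (b ^ k) z f) A l) ≠ ⊤ :=
        ne_top_of_le_ne_top ENNReal.ofReal_ne_top h3
      rcases h1 with h1 | h1
      · refine h1.trans ?_
        have hCb := Cb_pos ι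
        have h5 : (volume (bdn b (zm (b ^ k) z f) A l)).toReal ≤ Cb ι * (1 / 2) ^ l :=
          ENNReal.toReal_le_of_le_ofReal (by positivity) h3
        rw [hβ]
        simp only
        exact div_le_div₀ (by positivity) h5 hκ hGκ
      · exact absurd h1 h4
  have h1 := hC N
  have h2 := hI.psi_le hbp hτb
  have h3 : Psi b (δ / (8 * m)) N f T c (fun _ => ∅) (fun _ => LinearMap.id) =
      ∑ t ∈ T, c t * En b (ft f t) N := by
    unfold Psi
    refine Finset.sum_congr rfl fun t _ => ?_
    rw [pf_id]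
    simp
  rw [h3] at h2
  have h4 : ∑ t ∈ T, c t * En b (ft f t) N ≤ (K - hE - η) * N := by
    rw [← hI.wsum_const ((K - hE - η) * N)]
    exact hI.wsum_mono fun t ht => (hT1 t ht).2.le
  have hNr : 3 * C / η < N := lt_of_lt_of_le hN0 (by exact_mod_cast (by omega : N0 ≤ N))
  rw [div_lt_iff₀ hη] at hNr
  have hN0' : (0:ℝ) ≤ N := by positivity
  have h5 : (K - hE - δ - δ) * N - C ≤ (K - hE - η) * N := by
    refine le_trans ?_ (h1.trans (h2.trans h4))
    have : (K - hE - δ - δ) * N ≤ (r - δ) * N := mul_le_mul_of_nonneg_right (by linarith) hN0'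
    linarith
  have h6 : (η - δ - δ) * N ≤ C := by nlinarith
  have h7 : η / 3 * N ≤ (η - δ - δ) * N := mul_le_mul_of_nonneg_right (by linarith) hN0'
  nlinarith

end Pool.Agent.V7H68.UF
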