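import Pool.Agent.V7H68.UF.Nice
import Pool.Agent.V7H68.UF.Tsel

/-!
Cells in which a function looks like a member of the class plus a linear map.
-/

namespace Pool.Agent.V7H68.UF

open Finset Real MeasureTheory SS MS Filter
open scoped ENNReal

set_option linter.unusedSectionVars false

variable {ι : Type} [Fintype ι] [DecidableEq ι] {b : ℕ}

/-- The function `f + M` on the cube. -/
noncomputable def fM (f : (ι → ℝ) → ι → ℝ) (M : (ι → ℝ) →L[ℝ] (ι → ℝ)) : (ι → ℝ) → ι → ℝ :=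
  (cube ι).indicator fun v => f v + M v

theorem fM_mem (f : (ι → ℝ) → ι → ℝ) (M : (ι → ℝ) →L[ℝ] (ι → ℝ)) {v : ι → ℝ}
    (hv : v ∈ cube ι) : fM f M v = f v + M v := Set.indicator_of_mem hv _

theorem zm_fM {N : ℕ} (hN : 0 < N) {z : ι → ℕ} (hz : ∀ i, z i < N) (f : (ι → ℝ) → ι → ℝ)
    (M : (ι → ℝ) →L[ℝ] (ι → ℝ)) : zm N z (fM f M) = fM (zm N z f) M := by
  have hN0 : (N:ℝ) ≠ 0 := by exact_mod_cast hN.ne'
  funext v
  by_cases hv : v ∈ cube ι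
  · rw [zm_of_mem hv, fM_mem _ _ hv, zm_of_mem hv, fM_mem _ _ (affine_mem_cube hz hv),
      fM_mem _ _ (corner_mem_cube hz)]
    have h1 : M ((N:ℝ)⁻¹ • (nv z + v)) = M ((N:ℝ)⁻¹ • nv z) + (N:ℝ)⁻¹ • M v := by
      rw [smul_add, map_add, map_smul _ _ v]
    rw [h1]
    have h2 : f ((N:ℝ)⁻¹ • (nv z + v)) + (M ((N:ℝ)⁻¹ • nv z) + (N:ℝ)⁻¹ • M v) -
        (f ((N:ℝ)⁻¹ • nv z) + M ((N:ℝ)⁻¹ • nv z)) =
        (f ((N:ℝ)⁻¹ • (nv z + v)) - f ((N:ℝ)⁻¹ • nv z)) + (N:ℝ)⁻¹ • M v := by abel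
    rw [h2, smul_add, smul_smul, mul_inv_cancel₀ hN0, one_smul]
  · rw [zm_of_not_mem hv]
    unfold fM
    rw [Set.indicator_of_notMem hv]

theorem Bz.fM {R RM : ℝ} {f : (ι → ℝ) → ι → ℝ} (h : Bz b R f) (hb : 0 < b)
    {M : (ι → ℝ) →L[ℝ] (ι → ℝ)} (hM : ‖M‖ ≤ RM) : Bz b (R + RM) (fM f M) where
  meas := by
    unfold UF.fM
    exact (h.meas.add M.continuous.measurable).indicator cube_meas
  off u hu := Set.indicator_of_notMem hu _
  zero := by rw [fM_mem _ _ zero_mem_cube, h.zero, map_zero, add_zero]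
  bdd q z hz u := by
    rw [zm_fM (pow_pos hb q) hz]
    have hM0 := norm_nonneg M
    by_cases hu : u ∈ cube ι
    · rw [fM_mem _ _ hu]
      refine (norm_add_le _ _).trans (add_le_add (h.bdd q z hz u) ?_)
      refine (M.le_opNorm u).trans ?_
      have := norm_le_of_cube hu
      have h0 := norm_nonneg u
      nlinarith
    · have h0 : UF.fM (zm (b ^ q) z f) M u = 0 := Set.indicator_of_notMem hu _
      rw [h0, norm_zero]
      have := h.R0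
      linarith

theorem Cl.fM {R RM : ℝ} {p : ℕ → ℕ} {f : (ι → ℝ) → ι → ℝ} (h : Cl b R p f) (hb : 0 < b)
    {M : (ι → ℝ) →L[ℝ] (ι → ℝ)} (hM : ‖M‖ ≤ RM) : Cl b (R + RM) p (fM f M) where
  bz := h.bz.fM hb hM
  cnt q z hz k := by
    have h1 : (fun w : ι → Fin (b ^ k) => zm (b ^ k) (dv w) (zm (b ^ q) z (UF.fM f M))) =
        (fun g => UF.fM g M) ∘
          (fun w : ι → Fin (b ^ k) => zm (b ^ k) (dv w) (zm (b ^ q) z f)) := by
      funext w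
      rw [zm_fM (pow_pos hb q) hz, zm_fM (pow_pos hb k) (dv_lt w)]
      rfl
    rw [h1, Set.range_comp]
    exact (Set.ncard_image_le (Set.finite_range _)).trans (h.cnt q z hz k)

/-- Entropy and labels. -/
theorem Bz.En_le_hf [NeZero b] {R : ℝ} {Z : (ι → ℝ) → ι → ℝ} (h : Bz b R Z) (hb : 0 < b)
    (q : ℕ) : En b Z q ≤ log (Fintype.card (ι → Fin (b ^ q))) -
      hf (fun w : ι → Fin (b ^ q) => fl (X b q Z w)) + (2 * (1 + R + 2)) ^ Fintype.card ι := by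
  have h1 := h.block hb 0 q
  rw [zero_add] at h1
  unfold En
  rw [h1]
  have h2 := mix_upper (p := fun w : ι → Fin (b ^ q) => dn b (zm (b ^ q) (dv w) Z) 0)
    (fun w => (h.zw hb w).dens hb 0) (R := 1 + R) (by linarith [h.R0])
    (fun w u hu => (h.zw hb w).supp 0 hb (by simpa using hu))
    (fun w => (b:ℝ) ^ (0:ℤ) • X b q Z w)
  simp only [zpow_zero, one_smul] at h2 ⊢
  exact h2

theorem X_ft_fM (hb : 0 < b) (q : ℕ) (f : (ι → ℝ) → ι → ℝ) (M : (ι → ℝ) →L[ℝ] (ι → ℝ)) (t : ℝ)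
    (w : ι → Fin (b ^ q)) : X b q (ft (fM f M) t) w =
      xf (b ^ q) f (M + t • ContinuousLinearMap.id ℝ (ι → ℝ)) (dv w) := by
  have hb0 : (b:ℝ) ≠ 0 := by exact_mod_cast hb.ne'
  have hbq : ((b ^ q : ℕ) : ℝ) ≠ 0 := by push_cast; positivity
  rw [X_ft hb]
  unfold X xf
  rw [fM_mem _ _ (corner_mem_cube (dv_lt w))]
  have h1 : (b:ℝ) ^ q = ((b ^ q : ℕ) : ℝ) := by push_cast; rfl
  rw [h1, smul_add, map_smul, smul_smul, mul_inv_cancel₀ hbq, one_smul]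
  simp
  abel

/-- Entropy of the labels of a block. -/
theorem ent_label [NeZero b] {R RM : ℝ} {f : (ι → ℝ) → ι → ℝ} (h : Bz b R f) (hb : 0 < b)
    {M : (ι → ℝ) →L[ℝ] (ι → ℝ)} (hM : ‖M‖ ≤ RM) {t : ℝ} (ht : |t| ≤ 1) (q : ℕ) :
    En b (ft (fM f M) t) q - (2 * (R + RM + 4)) ^ Fintype.card ι ≤
      log (Fintype.card (ι → Fin (b ^ q))) - hf (fun w : ι → Fin (b ^ q) =>
        fl (xf (b ^ q) f (M + t • ContinuousLinearMap.id ℝ (ι → ℝ)) (dv w))) := by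
  have h1 := ((h.fM hb hM).ft hb ht).En_le_hf hb q
  simp only [X_ft_fM hb] at h1
  have e : 1 + (R + RM + 1) + 2 = R + RM + 4 := by ring
  rw [e] at h1
  linarith

/-! ### Cells -/

variable {β : ℕ}

theorem cell_inc (hβ : 0 < β) (f F : (ι → ℝ) → ι → ℝ) (M : (ι → ℝ) →L[ℝ] (ι → ℝ)) (t : ℝ)
    (x : St ι) {u : ι → ℝ} (hu : u ∈ cell β x) {v : ι → ℝ}
    (hv : v = fun i => (β:ℝ) ^ x.1 * u i - x.2 i) :
    (f u + F u + t • u) - (f (corner β x) + F (corner β x) + t • corner β x) =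
      ((β:ℝ) ^ x.1)⁻¹ • zm (β ^ x.1) x.2 f v +
        (F u - F (corner β x) - M (u - corner β x)) +
        ((β:ℝ) ^ x.1)⁻¹ • (M + t • ContinuousLinearMap.id ℝ (ι → ℝ)) v := by
  have hβ0 : (0:ℝ) < β := by exact_mod_cast hβ
  set n := x.1 with hn
  set c := corner β x with hc
  set L := M + t • ContinuousLinearMap.id ℝ (ι → ℝ) with hL
  have hLap : ∀ y, L y = M y + t • y := fun y => by rw [hL]; simp
  set f' := zm (β ^ n) x.2 f with hf'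
  have hβn : (0:ℝ) < (β:ℝ) ^ n := by positivity
  have hcz : c = (((β ^ n : ℕ)) : ℝ)⁻¹ • nv x.2 := by
    funext i
    simp only [hc, corner, Pi.smul_apply, nv, smul_eq_mul]
    push_cast
    rw [div_eq_inv_mul]
  have hvc : v ∈ cube ι := by rw [hv]; exact hu
  have h1 : f' v = (((β ^ n : ℕ)) : ℝ) • (f ((((β ^ n : ℕ)) : ℝ)⁻¹ • (nv x.2 + v)) -
      f ((((β ^ n : ℕ)) : ℝ)⁻¹ • nv x.2)) := zm_of_mem hvc
  have h2 : ((((β ^ n : ℕ)) : ℝ)⁻¹ • (nv x.2 + v)) = u := by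
    rw [hv]
    funext i
    simp only [Pi.smul_apply, Pi.add_apply, nv, smul_eq_mul]
    push_cast
    field_simp
    ring
  have h3 : ((β:ℝ) ^ n)⁻¹ • v = u - c := by
    rw [hv, hcz]
    funext i
    simp only [Pi.smul_apply, Pi.sub_apply, nv, smul_eq_mul]
    push_cast
    field_simp
  have h4 : ((β:ℝ) ^ n)⁻¹ • f' v = f u - f c := by
    rw [h1, h2, ← hcz, smul_smul]
    push_cast
    rw [inv_mul_cancel₀ hβn.ne', one_smul]
  have h5 : ((β:ℝ) ^ n)⁻¹ • L v = M (u - c) + t • (u - c) := by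
    rw [← map_smul, h3, hLap]
  rw [h4, h5, smul_sub]
  abel

theorem norm_id_le (M : (ι → ℝ) →L[ℝ] (ι → ℝ)) {RM t : ℝ} (hM : ‖M‖ ≤ RM) (ht : |t| ≤ 1)
    {v : ι → ℝ} (hv : v ∈ cube ι) :
    ‖(M + t • ContinuousLinearMap.id ℝ (ι → ℝ)) v‖ ≤ RM + 1 := by
  have h1 : (M + t • ContinuousLinearMap.id ℝ (ι → ℝ)) v = M v + t • v := by simp
  rw [h1]
  have hv1 := norm_le_of_cube hv
  have hv0 := norm_nonneg v
  have hM0 := norm_nonneg M
  refine (norm_add_le _ _).trans (add_le_add ((M.le_opNorm v).trans ?_) ?_)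
  · nlinarith
  · rw [norm_smul, Real.norm_eq_abs]
    have := abs_nonneg t
    nlinarith

theorem cell_norm (hβ : 0 < β) {R RM : ℝ} {f F : (ι → ℝ) → ι → ℝ} {t : ℝ} (ht : |t| ≤ 1)
    {x : St ι} (hR : ∀ v, ‖zm (β ^ x.1) x.2 f v‖ ≤ R) (hx : Nice β F RM x) {u : ι → ℝ}
    (hu : u ∈ cell β x) :
    ‖(f u + F u + t • u) - (f (corner β x) + F (corner β x) + t • corner β x)‖ ≤
      (R + RM + 2) / (β:ℝ) ^ x.1 := by
  obtain ⟨M, hM, hF⟩ := hx
  have hβ1 : (1:ℝ) ≤ β := by exact_mod_cast hβ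
  have hβn : (0:ℝ) < (β:ℝ) ^ x.1 := by positivity
  rw [cell_inc hβ f F M t x hu rfl]
  have hvc : (fun i => (β:ℝ) ^ x.1 * u i - x.2 i) ∈ cube ι := hu
  set v : ι → ℝ := fun i => (β:ℝ) ^ x.1 * u i - x.2 i with hv
  have h1 := hR v
  have h2 := hF u hu
  have h3 := norm_id_le M hM ht hvc
  have h4 : (((β:ℝ)) ^ (x.1 + 1))⁻¹ ≤ ((β:ℝ) ^ x.1)⁻¹ :=
    inv_anti₀ hβn (pow_le_pow_right₀ hβ1 (by omega))
  have h5 := norm_add_le (((β:ℝ) ^ x.1)⁻¹ • zm (β ^ x.1) x.2 f v +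
    (F u - F (corner β x) - M (u - corner β x)))
    (((β:ℝ) ^ x.1)⁻¹ • (M + t • ContinuousLinearMap.id ℝ (ι → ℝ)) v)
  have h6 := norm_add_le (((β:ℝ) ^ x.1)⁻¹ • zm (β ^ x.1) x.2 f v)
    (F u - F (corner β x) - M (u - corner β x))
  rw [norm_smul, Real.norm_of_nonneg (show 0 ≤ ((β:ℝ) ^ x.1)⁻¹ by positivity)] at h5 h6
  have h7 : ((β:ℝ) ^ x.1)⁻¹ * ‖zm (β ^ x.1) x.2 f v‖ ≤ ((β:ℝ) ^ x.1)⁻¹ * R :=
    mul_le_mul_of_nonneg_left h1 (by positivity)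
  have h8 : ((β:ℝ) ^ x.1)⁻¹ * ‖(M + t • ContinuousLinearMap.id ℝ (ι → ℝ)) v‖ ≤
      ((β:ℝ) ^ x.1)⁻¹ * (RM + 1) :=
    mul_le_mul_of_nonneg_left h3 (by positivity)
  have h9 : (R + RM + 2) / (β:ℝ) ^ x.1 = ((β:ℝ) ^ x.1)⁻¹ * R + ((β:ℝ) ^ x.1)⁻¹ +
      ((β:ℝ) ^ x.1)⁻¹ * (RM + 1) := by
    rw [div_eq_inv_mul]; ring
  rw [h9]
  linarith

theorem cell_ent [NeZero β] (hβ : 0 < β) {f F : (ι → ℝ) → ι → ℝ} {t : ℝ}
    {M : (ι → ℝ) →L[ℝ] (ι → ℝ)} {x : St ι}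
    (hF : ∀ u ∈ cell β x, ‖F u - F (corner β x) - M (u - corner β x)‖ ≤ ((β:ℝ) ^ (x.1 + 1))⁻¹) :
    log (Fintype.card (ι → Fin β)) - hf (fun w : ι → Fin β =>
        fl (xf β (zm (β ^ x.1) x.2 f) (M + t • ContinuousLinearMap.id ℝ (ι → ℝ)) (dv w))) -
      Fintype.card ι * log 9 ≤ HH (clab β fun u => f u + F u + t • u) x := by
  have hβ0 : (0:ℝ) < β := by exact_mod_cast hβ
  set n := x.1 with hn
  set c := corner β x with hc
  set L := M + t • ContinuousLinearMap.id ℝ (ι → ℝ) with hL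
  set f' := zm (β ^ n) x.2 f with hf'
  rw [HH_eq]
  have h2 := hf_perturb (K := 4) (E := 1) (fun w : ι → Fin β => xf β f' L (dv w))
    (fun w => pos β (fun u => f u + F u + t • u) (chd β x w))
    ((β:ℝ) ^ (n + 1) • (f c + F c + t • c)) (fun w => ?_) (by norm_num)
  · have h3 : (2 * ((4:ℕ):ℝ) + 1) = 9 := by norm_num
    rw [h3] at h2
    have h4 : clab β (fun u => f u + F u + t • u) x =
      fun w => fl (pos β (fun u => f u + F u + t • u) (chd β x w)) := rfl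
    rw [h4]
    linarith
  · set c' := corner β (chd β x w) with hc'
    have hc'm : c' ∈ cell β x := cell_chd_sub hβ x w (corner_mem hβ _)
    have hv : (β:ℝ)⁻¹ • nv (dv w) = fun i => (β:ℝ) ^ n * c' i - x.2 i := by
      funext i
      simp only [hc', corner, chd, Pi.smul_apply, nv, dv, smul_eq_mul]
      push_cast
      rw [← hn, pow_succ]
      field_simp
      ring
    have h1 := cell_inc hβ f F M t x hc'm hv
    have h2 : pos β (fun u => f u + F u + t • u) (chd β x w) =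
        (β:ℝ) ^ (n + 1) • (f c' + F c' + t • c') := rfl
    have h3 : (β:ℝ) ^ (n + 1) • (f c' + F c' + t • c') =
        (β:ℝ) ^ (n + 1) • (f c + F c + t • c) + (β:ℝ) ^ (n + 1) •
        ((f c' + F c' + t • c') - (f c + F c + t • c)) := by
      rw [← smul_add]
      congr 1
      abel
    have h4 : (β:ℝ) ^ (n + 1) • (((β:ℝ) ^ n)⁻¹ • f' ((β:ℝ)⁻¹ • nv (dv w)) +
        (F c' - F c - M (c' - c)) + ((β:ℝ) ^ n)⁻¹ • L ((β:ℝ)⁻¹ • nv (dv w))) =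
        xf β f' L (dv w) + (β:ℝ) ^ (n + 1) • (F c' - F c - M (c' - c)) := by
      unfold xf
      rw [map_smul, smul_add, smul_add, smul_smul, smul_smul, smul_smul]
      have e1 : (β:ℝ) ^ (n + 1) * ((β:ℝ) ^ n)⁻¹ = β := by rw [pow_succ]; field_simp
      rw [e1, mul_inv_cancel₀ hβ0.ne', one_smul]
      abel
    rw [h2, h3, h1, h4]
    have h5 : (β:ℝ) ^ (n + 1) • (f c + F c + t • c) + (xf β f' L (dv w) +
        (β:ℝ) ^ (n + 1) • (F c' - F c - M (c' - c))) -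
        ((β:ℝ) ^ (n + 1) • (f c + F c + t • c) + xf β f' L (dv w)) =
        (β:ℝ) ^ (n + 1) • (F c' - F c - M (c' - c)) := by abel
    rw [h5, norm_smul, Real.norm_of_nonneg (by positivity)]
    have h6 := mul_le_mul_of_nonneg_left (hF c' hc'm)
      (show (0:ℝ) ≤ (β:ℝ) ^ (n + 1) by positivity)
    rwa [mul_inv_cancel₀ (by positivity)] at h6

end Pool.Agent.V7H68.UF
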