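import Pool.Agent.V7H68.UF.Gapc
import Pool.Agent.V7H68.MS.Conc

/-!
The entropy of the cells of the words from one scale to a finer one.
-/

namespace Pool.Agent.V7H68.UF

open Finset Real MeasureTheory SS MS

set_option linter.unusedSectionVars false

variable {ι : Type} [Fintype ι] [DecidableEq ι] {b : ℕ} {R : ℝ} {Z : (ι → ℝ) → ι → ℝ}

/-- The cell of a word at scale `i`, with its zoom. -/
noncomputable def cellU (b n : ℕ) (Z : (ι → ℝ) → ι → ℝ) (i : ℕ) (w : ι → Fin (b ^ n)) :
    (ι → ℤ) × ((ι → ℝ) → ι → ℝ) :=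
  (fl ((b:ℝ) ^ i • X b n Z w), zm (b ^ n) (dv w) Z)

theorem cellU_sub (hb : 2 ≤ b) {n i r : ℕ} {v w : ι → Fin (b ^ n)}
    (h : cellU b n Z i v = cellU b n Z i w) (j : ι) :
    (b:ℤ) ^ r * (cellU b n Z i v).1 j ≤ (cellU b n Z (i + r) w).1 j ∧
      (cellU b n Z (i + r) w).1 j < (b:ℤ) ^ r * (cellU b n Z i v).1 j + (b:ℤ) ^ r := by
  have hb0 : (0:ℝ) < b := by exact_mod_cast (by omega : 0 < b)
  rw [h]
  set x := ((b:ℝ) ^ i • X b n Z w) j with hx
  have h1 : (cellU b n Z i w).1 j = ⌊x⌋ := rfl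
  have h2 : (cellU b n Z (i + r) w).1 j = ⌊(b:ℝ) ^ r * x⌋ := by
    unfold cellU fl
    simp only
    congr 1
    rw [hx]
    simp only [Pi.smul_apply, smul_eq_mul]
    rw [pow_add]
    ring
  have h3 : (0:ℝ) < (b:ℝ) ^ r := by positivity
  rw [h1, h2]
  constructor
  · rw [Int.le_floor]
    push_cast
    exact mul_le_mul_of_nonneg_left (Int.floor_le x) h3.le
  · rw [Int.floor_lt]
    push_cast
    nlinarith [Int.lt_floor_add_one x]

variable [DecidableEq ((ι → ℝ) → ι → ℝ)]

theorem sum_cls_ratioU (hb : 2 ≤ b) (n i r : ℕ) :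
    ∑ w, ((cls (cellU b n Z i) w).card : ℝ) / (cls (cellU b n Z (i + r)) w).card ≤
      Fintype.card (ι → Fin (b ^ n)) * ((b:ℝ) ^ r) ^ Fintype.card ι := by
  have h := sum_rel_le (cellU b n Z (i + r)) (fun v w => cellU b n Z i v = cellU b n Z i w)
    (fun v => (Fintype.piFinset fun j => Finset.Ico ((b:ℤ) ^ r * (cellU b n Z i v).1 j)
      ((b:ℤ) ^ r * (cellU b n Z i v).1 j + (b:ℤ) ^ r)) ×ˢ {(cellU b n Z i v).2})
    (fun v w hvw => by
      rw [Finset.mem_product, Fintype.mem_piFinset, Finset.mem_singleton]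
      refine ⟨fun j => ?_, ?_⟩
      · rw [Finset.mem_Ico]
        exact cellU_sub hb hvw j
      · rw [hvw]
        rfl)
    (M := ((b:ℝ) ^ r) ^ Fintype.card ι) (fun v => by
      rw [Finset.card_product, Fintype.card_piFinset]
      have h1 : ((b:ℤ) ^ r).toNat = b ^ r := by
        rw [← Nat.cast_pow]
        exact Int.toNat_natCast _
      simp [h1])
  exact h

theorem hfU_ge [NeZero b] (hb : 2 ≤ b) (n i r : ℕ) :
    hf (cellU b n Z i) - r * (Fintype.card ι * log b) ≤ hf (cellU b n Z (i + r)) := by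
  have hb0 : (0:ℝ) < b := by exact_mod_cast (by omega : 0 < b)
  have h := mean_log_le (cellU b n Z (i + r)) (g := fun w => ((cls (cellU b n Z i) w).card : ℝ))
    (fun w => cls_pos _ w) (M := ((b:ℝ) ^ r) ^ Fintype.card ι) (by positivity)
    (sum_cls_ratioU hb n i r)
  have h1 : log (((b:ℝ) ^ r) ^ Fintype.card ι) = r * (Fintype.card ι * log b) := by
    rw [Real.log_pow, Real.log_pow]; ring
  rw [h1] at h
  have h2 : ∑ w, (Fintype.card (ι → Fin (b ^ n)) : ℝ)⁻¹ *
      log ((cls (cellU b n Z i) w).card : ℝ) = hf (cellU b n Z i) := rfl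
  linarith

/-- A zoom is nearly invariant under a translation of moderate size. -/
def Iv (b : ℕ) (Q : (ι → ℝ) → Prop) (δ : ℝ) (q : ℕ) (i : ℤ) (Z : (ι → ℝ) → ι → ℝ) : Prop :=
  ∃ y, Q y ∧ ((b:ℝ) ^ q)⁻¹ ≤ ‖y‖ ∧ ‖y‖ ≤ 1 ∧ nrm (dn b Z i) y ≤ δ

open Classical in
/-- Indicator of `Iv`. -/
noncomputable def iv (b : ℕ) (Q : (ι → ℝ) → Prop) (δ : ℝ) (q : ℕ) (i : ℤ)
    (Z : (ι → ℝ) → ι → ℝ) : ℝ := if Iv b Q δ q i Z then 1 else 0

theorem iv_nonneg (Q : (ι → ℝ) → Prop) (δ : ℝ) (q : ℕ) (i : ℤ) (Z : (ι → ℝ) → ι → ℝ) :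
    0 ≤ iv b Q δ q i Z := by
  unfold iv
  split_ifs <;> norm_num

theorem iv_le_one (Q : (ι → ℝ) → Prop) (δ : ℝ) (q : ℕ) (i : ℤ) (Z : (ι → ℝ) → ι → ℝ) :
    iv b Q δ q i Z ≤ 1 := by
  unfold iv
  split_ifs <;> norm_num

theorem chain_step [NeZero b] (hb : 2 ≤ b) {δ : ℝ} (hδ : 0 < δ) (n i r : ℕ)
    (Q : (ι → ℝ) → Prop)
    (hQ : ∀ v w : ι → Fin (b ^ n), Q ((b:ℝ) ^ i • X b n Z v - (b:ℝ) ^ i • X b n Z w)) :
    hf (cellU b n Z i) - (2 * log 2 + Fintype.card ι * log 3) -
      (av (fun w : ι → Fin (b ^ n) => iv b Q δ r i (zm (b ^ n) (dv w) Z)) +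
        2 / δ * av (fun w : ι → Fin (b ^ n) => pairN (cls (cellU b n Z i) w)
          (fun v => (b:ℝ) ^ i • X b n Z v) (nrm (dn b (zm (b ^ n) (dv w) Z) i)))) *
        (r * (Fintype.card ι * log b)) ≤ hf (cellU b n Z (i + r)) := by
  classical
  have hb0 : (0:ℝ) < b := by exact_mod_cast (by omega : 0 < b)
  have hb1 : (1:ℝ) < b := by exact_mod_cast (by omega : 1 < b)
  have hlb : 0 < log b := Real.log_pos hb1
  set m : ℝ := (Fintype.card ι : ℝ) with hm
  have hm0 : 0 ≤ m := by positivity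
  set c1 : ℝ := 2 * log 2 + m * log 3 with hc1
  have hl2 : 0 < log 2 := Real.log_pos (by norm_num)
  have hl3 : 0 < log 3 := Real.log_pos (by norm_num)
  have hc10 : 0 ≤ c1 := by rw [hc1]; positivity
  set N : ℝ := (Fintype.card (ι → Fin (b ^ n)) : ℝ) with hN
  have hNpos : 0 < N := by rw [hN]; exact_mod_cast Fintype.card_pos
  set F := cellU b n Z i with hF
  set F' := cellU b n Z (i + r) with hF'
  set Y : (ι → Fin (b ^ n)) → ι → ℝ := fun v => (b:ℝ) ^ i • X b n Z v with hY
  have hcl : ∀ w w', F w = F w' → zm (b ^ n) (dv w) Z = zm (b ^ n) (dv w') Z ∧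
      ‖Y w - Y w'‖ ≤ 1 := by
    intro w w' h
    exact ⟨congrArg Prod.snd h, norm_sub_le_of_fl (congrArg Prod.fst h)⟩
  set nw : (ι → Fin (b ^ n)) → (ι → ℝ) → ℝ := fun w => nrm (dn b (zm (b ^ n) (dv w) Z) i) with hnw
  have hnw0 : ∀ w y, 0 ≤ nw w y := fun w y => nrm_nonneg _ _
  have hnwc : ∀ w w', F w = F w' → nw w = nw w' := by
    intro w w' h
    rw [hnw]
    simp only
    rw [(hcl w w' h).1]
  set iota : (ι → Fin (b ^ n)) → ℝ := fun w => iv b Q δ r i (zm (b ^ n) (dv w) Z) with hiota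
  set pp : (ι → Fin (b ^ n)) → ℝ := fun w =>
    ∑ v' ∈ cls F w, ((cls F w).card : ℝ)⁻¹ * nw w (Y w - Y v') with hpp
  have hpp0 : ∀ w, 0 ≤ pp w := fun w =>
    Finset.sum_nonneg fun v' _ => mul_nonneg (by positivity) (hnw0 _ _)
  set pr := av (fun w : ι → Fin (b ^ n) => pairN (cls F w) Y (nw w)) with hpr
  have hmean : av pp = pr := by
    rw [hpr]
    unfold av
    rw [← Finset.mul_sum, ← Finset.mul_sum]
    congr 1
    rw [← sum_cls F]
    refine Finset.sum_congr rfl fun w _ => ?_
    unfold pairN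
    refine Finset.sum_congr rfl fun v hv => ?_
    rw [hpp]
    simp only
    rw [cls_congr (mem_cls.1 hv), hnwc v w (mem_cls.1 hv)]
  set near : (ι → Fin (b ^ n)) → (ι → Fin (b ^ n)) → Prop := fun v w =>
    F v = F w ∧ ∀ j, |(F' w).1 j - (F' v).1 j| ≤ 1 with hnear
  set nr : (ι → Fin (b ^ n)) → ℝ := fun w => ((Finset.univ.filter (fun v => near v w)).card : ℝ)
    with hnr
  set far : (ι → Fin (b ^ n)) → ℝ := fun w =>
    (((cls F w).filter (fun v => ¬ near v w)).card : ℝ) with hfar
  have hnf : ∀ w, nr w + far w = (cls F w).card := by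
    intro w
    have h1 : Finset.univ.filter (fun v => near v w) = (cls F w).filter (fun v => near v w) := by
      ext v
      simp only [Finset.mem_filter, Finset.mem_univ, true_and, mem_cls, hnear]
      tauto
    rw [hnr, hfar]
    simp only
    rw [h1]
    exact_mod_cast Finset.card_filter_add_card_filter_not (s := cls F w) (fun v => near v w)
  have hfarpp : ∀ w, iota w = 0 → δ * (far w / (cls F w).card) ≤ pp w := by
    intro w hw
    have hniv : ¬ Iv b Q δ r i (zm (b ^ n) (dv w) Z) := by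
      intro hcon
      rw [hiota] at hw
      simp only [iv, if_pos hcon] at hw
      exact one_ne_zero hw
    have h2 : ∑ v' ∈ (cls F w).filter (fun v => ¬ near v w),
        ((cls F w).card : ℝ)⁻¹ * δ ≤ pp w := by
      refine le_trans (Finset.sum_le_sum fun v' hv' => ?_)
        (Finset.sum_le_sum_of_subset_of_nonneg (Finset.filter_subset (fun v => ¬ near v w) _)
          fun v' _ _ => mul_nonneg (by positivity) (hnw0 w _))
      refine mul_le_mul_of_nonneg_left ?_ (by positivity)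
      rw [Finset.mem_filter, mem_cls] at hv'
      obtain ⟨hv1, hv2⟩ := hv'
      by_contra hlt
      rw [not_le] at hlt
      refine hniv ⟨Y w - Y v', hQ w v', ?_, (hcl w v' hv1.symm).2, hlt.le⟩
      by_contra hlt2
      rw [not_le] at hlt2
      apply hv2
      refine ⟨hv1, fun j => ?_⟩
      refine fl_near_of_norm ?_ j
      have h3 : (b:ℝ) ^ (i + r) • X b n Z w -
          (b:ℝ) ^ (i + r) • X b n Z v' = (b:ℝ) ^ r • (Y w - Y v') := by
        rw [hY]
        simp only
        rw [← smul_sub, ← smul_sub, smul_smul, pow_add]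
        congr 1
        ring
      rw [h3, norm_smul, Real.norm_of_nonneg (by positivity)]
      have h4 : (b:ℝ) ^ r * ‖Y w - Y v'‖ ≤ (b:ℝ) ^ r * ((b:ℝ) ^ r)⁻¹ :=
        mul_le_mul_of_nonneg_left hlt2.le (by positivity)
      rw [mul_inv_cancel₀ (by positivity)] at h4
      exact h4
    rw [Finset.sum_const, nsmul_eq_mul] at h2
    refine le_trans (le_of_eq ?_) h2
    rw [hfar]
    ring
  set bad : (ι → Fin (b ^ n)) → ℝ := fun w => if (cls F w).card < 2 * far w then 1 else 0 with hbad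
  have hbad1 : ∀ w, bad w ≤ iota w + 2 / δ * pp w := by
    intro w
    have h0 : 0 ≤ 2 / δ * pp w := mul_nonneg (by positivity) (hpp0 w)
    have h00 : 0 ≤ iota w := iv_nonneg _ _ _ _ _
    by_cases hw : iota w = 0
    · rw [hw, zero_add]
      have h1 := hfarpp w hw
      have h2 := cls_pos F w
      rw [hbad]
      simp only
      split_ifs with hh
      · have h3 : 1 ≤ 2 * (far w / (cls F w).card) := by
          rw [← mul_div_assoc, le_div_iff₀ h2]
          linarith
        have h4 : δ ≤ 2 * pp w := by nlinarith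
        rw [div_mul_eq_mul_div, le_div_iff₀ hδ]
        linarith
      · exact h0
    · have h1 : iota w = 1 := by
        rw [hiota] at hw ⊢
        simp only [iv] at hw ⊢
        split_ifs with hh
        · rfl
        · rw [if_neg hh] at hw
          exact absurd rfl hw
      rw [h1, hbad]
      simp only
      split_ifs <;> linarith
  have hbadmean : av bad ≤ av iota + 2 / δ * pr := by
    refine (av_mono hbad1).trans (le_of_eq ?_)
    rw [av_add, av_mul, hmean]
  -- the reference weights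
  set B : ℝ := ((b:ℝ) ^ r) ^ Fintype.card ι with hB
  have hB0 : 0 < B := by positivity
  have hlB : log B = r * (m * log b) := by rw [hB, Real.log_pow, Real.log_pow, hm]; ring
  set T : ℝ := 3 ^ Fintype.card ι with hT
  have hT0 : 0 < T := by positivity
  have hlT : log T = m * log 3 := by rw [hT, Real.log_pow]
  set H : (ι → Fin (b ^ n)) → ℝ := fun w =>
    (1 / 2) * T⁻¹ * nr w + (1 / 2) * B⁻¹ * (cls F w).card with hH
  have hnr0 : ∀ w, 0 ≤ nr w := fun w => by rw [hnr]; positivity
  have hHpos : ∀ w, 0 < H w := fun w => by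
    have h1 := cls_pos F w
    have h2 := hnr0 w
    rw [hH]
    positivity
  have hsum1 : ∑ w, nr w / (cls F' w).card ≤ N * T := by
    refine sum_rel_le F' near (fun v => (Fintype.piFinset fun j =>
      Finset.Icc ((F' v).1 j - 1) ((F' v).1 j + 1)) ×ˢ {(F' v).2}) (fun v w hvw => ?_)
      (fun v => ?_)
    · rw [Finset.mem_product, Fintype.mem_piFinset, Finset.mem_singleton]
      refine ⟨fun j => ?_, ?_⟩
      · rw [Finset.mem_Icc]
        have := abs_le.1 (hvw.2 j)
        constructor <;> omega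
      · have h1 : (F v).2 = (F w).2 := congrArg Prod.snd hvw.1
        exact h1.symm
    · rw [Finset.card_product, Fintype.card_piFinset]
      have : ∀ j, (Finset.Icc ((F' v).1 j - 1) ((F' v).1 j + 1)).card = 3 := by
        intro j
        rw [Int.card_Icc]
        have : (F' v).1 j + 1 + 1 - ((F' v).1 j - 1) = 3 := by ring
        rw [this]; rfl
      simp [this, hT]
  have hsum2 : ∑ w, ((cls F w).card : ℝ) / (cls F' w).card ≤ N * B := sum_cls_ratioU hb n i r
  have hsumH : ∑ w, H w / (cls F' w).card ≤ N * 1 := by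
    have h1 : ∀ w, H w / (cls F' w).card = (1 / 2) * T⁻¹ * (nr w / (cls F' w).card) +
        (1 / 2) * B⁻¹ * ((cls F w).card / (cls F' w).card) := by
      intro w
      rw [hH]
      ring
    rw [Finset.sum_congr rfl fun w _ => h1 w, Finset.sum_add_distrib, ← Finset.mul_sum,
      ← Finset.mul_sum]
    have h2 := mul_le_mul_of_nonneg_left hsum1 (show 0 ≤ (1 / 2) * T⁻¹ by positivity)
    have h3 := mul_le_mul_of_nonneg_left hsum2 (show 0 ≤ (1 / 2) * B⁻¹ by positivity)
    have h4 : (1 / 2) * T⁻¹ * (N * T) = N / 2 := by field_simp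
    have h5 : (1 / 2) * B⁻¹ * (N * B) = N / 2 := by field_simp
    linarith
  have hlog := mean_log_le F' hHpos one_pos hsumH
  rw [Real.log_one, add_zero] at hlog
  have hlogH : ∀ w, log ((cls F w).card) - c1 - bad w * (r * (m * log b)) ≤ log (H w) := by
    intro w
    have h1 := cls_pos F w
    by_cases hbw : (cls F w).card < 2 * far w
    · have h2 : bad w = 1 := by rw [hbad]; simp [hbw]
      have h3 : (1 / 2) * B⁻¹ * (cls F w).card ≤ H w := by
        have h4 : 0 ≤ (1 / 2) * T⁻¹ * nr w := by have := hnr0 w; positivity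
        show _ ≤ (1 / 2) * T⁻¹ * nr w + (1 / 2) * B⁻¹ * (cls F w).card
        linarith
      have h4 := Real.log_le_log (by positivity) h3
      rw [Real.log_mul (by positivity) h1.ne', Real.log_mul (by norm_num) (by positivity),
        Real.log_inv, hlB, one_div, Real.log_inv] at h4
      rw [h2]
      have h5 : 0 ≤ m * log 3 := by positivity
      rw [hc1]
      linarith
    · have h2 : bad w = 0 := by rw [hbad]; simp [hbw]
      rw [not_lt] at hbw
      have h3 : (1 / 4) * T⁻¹ * (cls F w).card ≤ H w := by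
        have h4 := hnf w
        have h5 : (1 / 2) * ((cls F w).card : ℝ) ≤ nr w := by linarith
        have h6 : (1 / 2) * T⁻¹ * ((1 / 2) * ((cls F w).card : ℝ)) ≤ (1 / 2) * T⁻¹ * nr w :=
          mul_le_mul_of_nonneg_left h5 (by positivity)
        have h7 : 0 ≤ (1 / 2) * B⁻¹ * ((cls F w).card : ℝ) := by positivity
        show _ ≤ (1 / 2) * T⁻¹ * nr w + (1 / 2) * B⁻¹ * (cls F w).card
        linarith
      have h4 := Real.log_le_log (by positivity) h3
      have h5 : log (1 / 4 : ℝ) = - (2 * log 2) := by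
        rw [one_div, Real.log_inv, show (4:ℝ) = 2 ^ 2 by norm_num, Real.log_pow]
        push_cast
        ring
      rw [Real.log_mul (by positivity) h1.ne', Real.log_mul (by norm_num) (by positivity),
        Real.log_inv, hlT, h5] at h4
      rw [h2, hc1]
      linarith
  have hfin := Finset.sum_le_sum fun w (_ : w ∈ (Finset.univ : Finset (ι → Fin (b ^ n)))) =>
    mul_le_mul_of_nonneg_left (hlogH w) (show 0 ≤ N⁻¹ by positivity)
  have hexp : ∑ w, N⁻¹ * (log ((cls F w).card) - c1 - bad w * (r * (m * log b))) =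
      hf F - c1 - av bad * (r * (m * log b)) := by
    have h1 : ∀ w, N⁻¹ * (log ((cls F w).card) - c1 - bad w * (r * (m * log b))) =
        N⁻¹ * log ((cls F w).card) - N⁻¹ * c1 - (N⁻¹ * bad w) * (r * (m * log b)) := fun w => by
      ring
    have h2 : ∑ w : ι → Fin (b ^ n), N⁻¹ * c1 = c1 := sum_inv_card c1
    rw [Finset.sum_congr rfl fun w _ => h1 w, Finset.sum_sub_distrib, Finset.sum_sub_distrib,
      h2, ← Finset.sum_mul]
    rfl
  rw [hexp] at hfin
  have h9 : av bad * (r * (m * log b)) ≤ (av iota + 2 / δ * pr) * (r * (m * log b)) :=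
    mul_le_mul_of_nonneg_right hbadmean (by positivity)
  linarith

/-- The entropy of the integer parts of the words of length `n`. -/
theorem Bz.hf_upper [NeZero b] (hZ : Bz b R Z) (hb : 2 ≤ b) (n : ℕ) {K : ℕ} (hK : 1 + R + 1 ≤ K) :
    log (Fintype.card (ι → Fin (b ^ n))) - hf (fun w : ι → Fin (b ^ n) => fl (X b n Z w)) ≤
      En b Z n + Fintype.card ι * log (2 * K + 1) := by
  have h1 := mix_lower (fun w : ι → Fin (b ^ n) => (hZ.zw (by omega) w).dens (by omega : 0 < b) 0)
    (R := 1 + R) (fun w u hu => (hZ.zw (by omega) w).supp _ (by omega) (by simpa using hu)) hK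
    (fun w => X b n Z w)
  have h2 := hZ.block (by omega) 0 n
  simp only [zpow_zero, one_smul, zero_add] at h2
  rw [← h2] at h1
  exact h1

theorem hf_cell_zeroU [NeZero b] {n : ℕ} {p : ℝ} (hp0 : 0 < p)
    (hp : ((Finset.univ.image fun w : ι → Fin (b ^ n) => zm (b ^ n) (dv w) Z).card : ℝ) ≤ p) :
    hf (fun w : ι → Fin (b ^ n) => fl (X b n Z w)) - log p ≤ hf (cellU b n Z 0) := by
  have h := mean_log_le (cellU b n Z 0)
    (g := fun w => ((cls (fun w : ι → Fin (b ^ n) => fl (X b n Z w)) w).card : ℝ))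
    (fun w => cls_pos _ w) (M := p) hp0 ?_
  · have h2 : ∑ w, (Fintype.card (ι → Fin (b ^ n)) : ℝ)⁻¹ *
      log ((cls (fun w : ι → Fin (b ^ n) => fl (X b n Z w)) w).card : ℝ) =
      hf (fun w : ι → Fin (b ^ n) => fl (X b n Z w)) := rfl
    linarith
  · have h := sum_rel_le (cellU b n Z 0) (fun v w : ι → Fin (b ^ n) =>
      fl (X b n Z v) = fl (X b n Z w))
      (fun v => {fl (X b n Z v)} ×ˢ
        (Finset.univ.image fun w : ι → Fin (b ^ n) => zm (b ^ n) (dv w) Z))
      (fun v w hvw => by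
        rw [Finset.mem_product, Finset.mem_singleton]
        refine ⟨?_, Finset.mem_image_of_mem _ (Finset.mem_univ _)⟩
        unfold cellU
        simp only [pow_zero, one_smul]
        exact hvw.symm)
      (M := p) (fun v => by
        rw [Finset.card_product, Finset.card_singleton, one_mul]
        exact hp)
    exact h

end Pool.Agent.V7H68.UF
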