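import Pool.Agent.V7H68.UF.Cnt
import Pool.Agent.V7H68.UF.Lea2

/-!
For most parameters the labels have large entropy.
-/

namespace Pool.Agent.V7H68.UF

open Finset Real MeasureTheory SS MS Filter
open scoped ENNReal

set_option linter.unusedSectionVars false

variable {ι : Type} [Fintype ι] [DecidableEq ι] {b : ℕ}

theorem HH_lb_low {β : ℕ} [NeZero β] {n0 : ℕ} (X : (ι → ℝ) → ι → ℝ) {x : St ι} (hx : x.1 < n0) :
    HH (lb β n0 X) x = log (Fintype.card (ι → Fin β)) := by
  rw [HH_eq]
  have : hf (lb β n0 X x) = 0 := by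
    unfold hf
    refine Finset.sum_eq_zero fun w _ => ?_
    have h1 : (cls (lb β n0 X x) w).card = 1 := by
      rw [Finset.card_eq_one]
      refine ⟨w, Finset.eq_singleton_iff_unique_mem.2 ⟨mem_cls.2 rfl, fun v hv => ?_⟩⟩
      rw [mem_cls] at hv
      unfold lb at hv
      rw [if_pos hx, if_pos hx] at hv
      funext i
      have := congrFun hv i
      simp only [Nat.cast_inj] at this
      exact Fin.ext this
    rw [h1]
    simp
  rw [this, sub_zero]

theorem HH_lb_high {β : ℕ} [NeZero β] {n0 : ℕ} (X : (ι → ℝ) → ι → ℝ) {x : St ι} (hx : n0 ≤ x.1) :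
    HH (lb β n0 X) x = HH (clab β X) x := by
  rw [HH_eq, HH_eq]
  have : lb β n0 X x = clab β X x := by
    funext w
    unfold lb
    rw [if_neg (by omega)]
  rw [this]

open Classical in
theorem core [NeZero b] [Nonempty ι] (hb : 2 ≤ b) {R RM : ℝ} {p : ℕ → ℕ}
    {F : (ι → ℝ) → ι → ℝ} {hE η κ κ' : ℝ} {q n0 : ℕ} (hq : 1 ≤ q) {G : Set (ι → ℝ)}
    (hGm : MeasurableSet G) (hGκ : volume (cube ι \ G) ≤ ENNReal.ofReal κ)
    (hG : ∀ u ∈ G, ∀ x : St ι, n0 ≤ x.1 → u ∈ cell (b ^ q) x → Nice (b ^ q) F RM x)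
    (hml : ∀ f : (ι → ℝ) → ι → ℝ, Cl b (R + RM) p f → volume {t | t ∈ Set.Icc (0:ℝ) 1 ∧
      En b (ft f t) q < (Fintype.card ι * log b - hE - η) * q} ≤ ENNReal.ofReal κ)
    {h0 : ℝ} (hh0 : h0 = (Fintype.card ι * log b - hE - η) * q -
      ((2 * (R + RM + 4)) ^ Fintype.card ι + Fintype.card ι * log 9))
    (hE0 : 0 ≤ hE) (hη : 0 ≤ η) (hκ : 0 ≤ κ) (hκ' : 0 < κ') (hRM : 0 ≤ RM)
    {g : (ι → ℝ) → ι → ℝ} (hg : Cl b R p g) (a0 : ι → ℝ) (n : ℕ) :
    ∃ Tb : Set ℝ, MeasurableSet Tb ∧ volume (Tb ∩ Set.Icc 0 1) ≤ ENNReal.ofReal (2 * κ / κ') ∧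
      ∀ t ∈ Set.Icc (0:ℝ) 1, t ∉ Tb → ∃ dd : St ι → ℝ,
        (∀ x, dd x = 1 ∨
          (dd x = 0 ∧ h0 ≤ HH (lb (b ^ q) n0 fun u => g u + (F u + a0) + t • u) x)) ∧
        DD (chd (b ^ q)) dd n ((0, 0) : St ι) ≤ κ' * n := by
  have hbp : 0 < b := by omega
  set β := b ^ q with hβdef
  have hβ2 : 2 ≤ β := le_trans hb (Nat.le_self_pow (by omega) b)
  have hβ' : 0 < β := by omega
  have : NeZero β := ⟨by omega⟩
  have hR0 := hg.bz.R0
  have hb1 : (1:ℝ) < b := by exact_mod_cast (by omega : 1 < b)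
  have hlb : 0 < log b := Real.log_pos hb1
  have hlogN : log (Fintype.card (ι → Fin β)) = q * (Fintype.card ι * log b) := by
    have : (Fintype.card (ι → Fin β) : ℝ) = ((b:ℝ) ^ q) ^ Fintype.card ι := by
      rw [Fintype.card_pi]; simp [hβdef]
    rw [this, Real.log_pow, Real.log_pow]
    ring
  have hMex : ∀ x : St ι, ∃ M : (ι → ℝ) →L[ℝ] (ι → ℝ), Nice β F RM x → (‖M‖ ≤ RM ∧
      ∀ u ∈ MS.cell β x, ‖F u - F (corner β x) - M (u - corner β x)‖ ≤
        ((β:ℝ) ^ (x.1 + 1))⁻¹) := by
    intro x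
    by_cases h : Nice β F RM x
    · obtain ⟨M, hM⟩ := h
      exact ⟨M, fun _ => hM⟩
    · exact ⟨0, fun h' => absurd h' h⟩
  choose Mf hMf using hMex
  set Exc : St ι → Set ℝ := fun x => {t | t ∈ Set.Icc (0:ℝ) 1 ∧
    En b (ft (fM (zm (β ^ x.1) x.2 g) (Mf x)) t) q < (Fintype.card ι * log b - hE - η) * q} with hExc
  set Dd : St ι → Set ℝ := fun x => if x.1 < n0 then ∅ else
    if Ins β x ∧ Nice β F RM x then toMeasurable volume (Exc x) else Set.univ with hDd
  have hDm : ∀ x, MeasurableSet (Dd x) := by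
    intro x
    simp only [hDd]
    split_ifs
    · exact MeasurableSet.empty
    · exact measurableSet_toMeasurable _ _
    · exact MeasurableSet.univ
  have hClz : ∀ x, Ins β x → Cl b R p (zm (β ^ x.1) x.2 g) := by
    intro x hx
    have e : β ^ x.1 = b ^ (q * x.1) := by rw [hβdef, pow_mul]
    rw [e]
    refine hg.zoom hbp fun i => ?_
    rw [← e]
    exact hx i
  have hEv : ∀ x, Ins β x → Nice β F RM x → volume (Exc x) ≤ ENNReal.ofReal κ := fun x hx hn =>
    hml _ ((hClz x hx).fM hbp (hMf x hn).1)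
  -- entropy of the labels
  have hA : ∀ t ∈ Set.Icc (0:ℝ) 1, ∀ x, (Dd x).indicator 1 t = (1:ℝ) ∨
      ((Dd x).indicator 1 t = (0:ℝ) ∧
        h0 ≤ HH (lb β n0 fun u => g u + (F u + a0) + t • u) x) := by
    intro t ht x
    have hta : |t| ≤ 1 := by rw [abs_le]; constructor <;> linarith [ht.1, ht.2]
    by_cases hx : x.1 < n0
    · have : Dd x = ∅ := by simp only [hDd]; rw [if_pos hx]
      right
      rw [this, Set.indicator_empty, HH_lb_low _ hx, hlogN, hh0]
      refine ⟨rfl, ?_⟩
      have h1 : 0 ≤ (2 * (R + RM + 4)) ^ Fintype.card ι := by positivity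
      have h2 : 0 ≤ Fintype.card ι * log 9 := mul_nonneg (by positivity)
        (Real.log_nonneg (by norm_num))
      have h3 : 0 ≤ (hE + η) * q := by positivity
      nlinarith
    · by_cases htd : t ∈ Dd x
      · left
        rw [Set.indicator_of_mem htd]
        rfl
      · right
        refine ⟨Set.indicator_of_notMem htd _, ?_⟩
        simp only [hDd] at htd
        rw [if_neg hx] at htd
        by_cases hc : Ins β x ∧ Nice β F RM x
        · rw [if_pos hc] at htd
          have h1 : t ∉ Exc x := fun h => htd (subset_toMeasurable _ _ h)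
          have h2 : (Fintype.card ι * log b - hE - η) * q ≤
              En b (ft (fM (zm (β ^ x.1) x.2 g) (Mf x)) t) q := by
            by_contra hcon
            rw [not_le] at hcon
            exact h1 ⟨ht, hcon⟩
          obtain ⟨hM1, hM2⟩ := hMf x hc.2
          have h3 := ent_label (hClz x hc.1).bz hbp hM1 hta q
          have h4 := cell_ent hβ' (f := g) (F := fun u => F u + a0) (t := t) (M := Mf x) (x := x)
            (fun u hu => by simpa using hM2 u hu)
          rw [HH_lb_high _ (not_lt.1 hx)]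
          rw [← hβdef] at h3
          linarith
        · rw [if_neg hc] at htd
          exact absurd (Set.mem_univ t) htd
  have hB : ∀ x, Ins β x → volume.real (Dd x ∩ Set.Icc 0 1) ≤ κ + vv β G x := by
    intro x hx
    have hv := vv_nonneg (β := β) (G := G) x
    by_cases hx0 : x.1 < n0
    · have : Dd x = ∅ := by simp only [hDd]; rw [if_pos hx0]
      rw [this, Set.empty_inter]
      simp only [measureReal_empty]
      linarith
    · by_cases hn : Nice β F RM x
      · have : Dd x = toMeasurable volume (Exc x) := by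
          simp only [hDd]; rw [if_neg hx0, if_pos ⟨hx, hn⟩]
        rw [this]
        have h1 : volume (toMeasurable volume (Exc x) ∩ Set.Icc (0:ℝ) 1) ≤ ENNReal.ofReal κ :=
          (measure_mono Set.inter_subset_left).trans
            ((measure_toMeasurable _).le.trans (hEv x hx hn))
        have h2 := ENNReal.toReal_le_of_le_ofReal hκ h1
        change (volume _).toReal ≤ _
        linarith
      · have h1 : vv β G x = 1 := by
          refine vv_one hβ' fun u hu hux => hn (hG u hu x (not_lt.1 hx0) hux)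
        have h2 : volume.real (Dd x ∩ Set.Icc (0:ℝ) 1) ≤ 1 := by
          have h3 : volume (Dd x ∩ Set.Icc (0:ℝ) 1) ≤ ENNReal.ofReal 1 := by
            refine (measure_mono Set.inter_subset_right).trans ?_
            rw [Real.volume_Icc]
            simp
          exact ENNReal.toReal_le_of_le_ofReal zero_le_one h3
        linarith
  have hI := int_DD_le (chd β) Dd hDm (P := Ins β) (fun x d hx => hx.chd d) hB
    (fun x _ => vv_av hGm x) n ((0, 0) : St ι) (fun i => by simp)
  have hroot : vv β G ((0, 0) : St ι) ≤ κ := by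
    unfold vv
    rw [cell_root, pow_zero, one_mul]
    exact ENNReal.toReal_le_of_le_ofReal hκ hGκ
  set E : ℝ → ℝ := fun t => DD (chd β) (fun x => (Dd x).indicator 1 t) n ((0, 0) : St ι) with hE
  have hEm : Measurable E := DD_meas (chd β) Dd hDm n _
  have hE0 : ∀ t, 0 ≤ E t := fun t => DD_nonneg _ (fun x => ind_nonneg Dd x t) n _
  have hI2 : ∫ t in Set.Icc (0:ℝ) 1, E t ≤ 2 * κ * n := by
    refine hI.trans ?_
    have hn : (0:ℝ) ≤ n := Nat.cast_nonneg n
    nlinarith
  refine ⟨{t | κ' * n < E t}, measurableSet_lt measurable_const hEm, ?_, ?_⟩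
  · rcases Nat.eq_zero_or_pos n with hn | hn
    · have : {t | κ' * (n:ℝ) < E t} = ∅ := by
        ext t
        simp only [Set.mem_ofPred_eq, Set.mem_empty_iff_false, iff_false, not_lt]
        have : E t = 0 := by
          simp only [hE]
          subst hn
          simp [DD]
        rw [this]
        positivity
      rw [this, Set.empty_inter, measure_empty]
      positivity
    · have hn0 : (0:ℝ) < n := by exact_mod_cast hn
      have hfin : IsFiniteMeasure (volume.restrict (Set.Icc (0:ℝ) 1)) := ⟨by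
        rw [Measure.restrict_apply_univ, Real.volume_Icc]
        exact ENNReal.ofReal_lt_top⟩
      have h1 := mul_meas_ge_le_integral_of_nonneg (μ := volume.restrict (Set.Icc (0:ℝ) 1))
        (Eventually.of_forall hE0) (DD_integrable (chd β) Dd hDm n _) (κ' * n)
      have h2 : (volume.restrict (Set.Icc (0:ℝ) 1)).real {t | κ' * n ≤ E t} ≤ 2 * κ / κ' := by
        rw [le_div_iff₀ hκ']
        have h3 : κ' * n * (volume.restrict (Set.Icc (0:ℝ) 1)).real {t | κ' * n ≤ E t} ≤
            2 * κ * n := h1.trans hI2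
        have h4 : n * ((volume.restrict (Set.Icc (0:ℝ) 1)).real {t | κ' * n ≤ E t} * κ') ≤
            n * (2 * κ) := by linarith
        exact le_of_mul_le_mul_left h4 hn0
      have h3 : volume ({t | κ' * (n:ℝ) < E t} ∩ Set.Icc 0 1) ≤
          (volume.restrict (Set.Icc (0:ℝ) 1)) {t | κ' * n ≤ E t} := by
        rw [Measure.restrict_apply (measurableSet_le measurable_const hEm)]
        exact measure_mono fun t ht => ⟨le_of_lt (show κ' * (n:ℝ) < E t from ht.1), ht.2⟩
      refine h3.trans ?_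
      rw [← ENNReal.ofReal_toReal (measure_ne_top _ _)]
      exact ENNReal.ofReal_le_ofReal h2
  · intro t ht htb
    simp only [Set.mem_ofPred_eq, not_lt] at htb
    exact ⟨fun x => (Dd x).indicator 1 t, hA t ht, htb⟩

end Pool.Agent.V7H68.UF
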