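import Pool.Agent.V7H68.UF.Inv

/-!
Admissible projections.
-/

namespace Pool.Agent.V7H68.UF

open Finset Real MeasureTheory SS MS

set_option linter.unusedSectionVars false

variable {ι : Type} [Fintype ι] [DecidableEq ι]

/-- Projections obtained by removing one direction after the other. -/
inductive Adm : Finset ι → ((ι → ℝ) →ₗ[ℝ] (ι → ℝ)) → Prop
  | nil : Adm ∅ LinearMap.id
  | cons {I : Finset ι} {P : (ι → ℝ) →ₗ[ℝ] (ι → ℝ)} (h : Adm I P) (y : ι → ℝ) (p : ι)
      (hy : y ≠ 0) (hPy : P y = y) (hp : |y p| = ‖y‖) : Adm (insert p I) ((pj y p).comp P)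

theorem Adm.vanish {I : Finset ι} {P : (ι → ℝ) →ₗ[ℝ] (ι → ℝ)} (h : Adm I P) :
    ∀ x, ∀ i ∈ I, P x i = 0 := by
  induction h with
  | nil => intro x i hi; simp at hi
  | @cons I P _ y p hy hPy hp ih =>
    intro x i hi
    have hyp : y p ≠ 0 := by
      intro h0
      rw [h0, abs_zero] at hp
      exact hy (norm_eq_zero.1 hp.symm)
    rw [LinearMap.comp_apply, pj_apply, Pi.sub_apply, Pi.smul_apply, smul_eq_mul]
    rcases Finset.mem_insert.1 hi with rfl | hi
    · rw [div_mul_cancel₀ _ hyp, sub_self]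
    · have h1 := ih x i hi
      have h2 := ih y i hi
      rw [hPy] at h2
      rw [h1, h2]
      ring

theorem Adm.idem {I : Finset ι} {P : (ι → ℝ) →ₗ[ℝ] (ι → ℝ)} (h : Adm I P) :
    ∀ x, P (P x) = P x := by
  induction h with
  | nil => intro x; rfl
  | @cons I P _ y p hy hPy hp ih =>
    intro x
    have hyp : y p ≠ 0 := by
      intro h0
      rw [h0, abs_zero] at hp
      exact hy (norm_eq_zero.1 hp.symm)
    simp only [LinearMap.comp_apply]
    have h1 : P (pj y p (P x)) = pj y p (P x) := by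
      rw [pj_apply, map_sub, map_smul, ih, hPy]
    rw [h1, pj_apply y p (pj y p (P x))]
    have h2 : pj y p (P x) p = 0 := by
      rw [pj_apply, Pi.sub_apply, Pi.smul_apply, smul_eq_mul, div_mul_cancel₀ _ hyp, sub_self]
    rw [h2, zero_div, zero_smul, sub_zero]

theorem Adm.norm_le {I : Finset ι} {P : (ι → ℝ) →ₗ[ℝ] (ι → ℝ)} (h : Adm I P) :
    ∀ x, ‖P x‖ ≤ 2 ^ I.card * ‖x‖ := by
  induction h with
  | nil => intro x; simp
  | @cons I P hI y p hy hPy hp ih =>
    intro x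
    have hpI : p ∉ I := by
      intro hpI
      have h1 := hI.vanish y p hpI
      rw [hPy] at h1
      rw [h1, abs_zero] at hp
      exact hy (norm_eq_zero.1 hp.symm)
    rw [LinearMap.comp_apply, Finset.card_insert_of_notMem hpI, pow_succ]
    refine (pj_norm hp hy _).trans ?_
    have := ih x
    linarith

theorem Adm.notMem {I : Finset ι} {P : (ι → ℝ) →ₗ[ℝ] (ι → ℝ)} (h : Adm I P) {y : ι → ℝ} {p : ι}
    (hy : y ≠ 0) (hPy : P y = y) (hp : |y p| = ‖y‖) : p ∉ I := by
  intro hpI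
  have h1 := h.vanish y p hpI
  rw [hPy] at h1
  rw [h1, abs_zero] at hp
  exact hy (norm_eq_zero.1 hp.symm)

theorem Adm.card_le {I : Finset ι} {P : (ι → ℝ) →ₗ[ℝ] (ι → ℝ)} (_ : Adm I P) :
    I.card ≤ Fintype.card ι := Finset.card_le_univ I

theorem Adm.norm_le' {I : Finset ι} {P : (ι → ℝ) →ₗ[ℝ] (ι → ℝ)} (h : Adm I P) (x : ι → ℝ) :
    ‖P x‖ ≤ 2 ^ Fintype.card ι * ‖x‖ :=
  (h.norm_le x).trans (mul_le_mul_of_nonneg_right
    (pow_le_pow_right₀ (by norm_num) h.card_le) (norm_nonneg _))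

theorem Adm.rank {I : Finset ι} {P : (ι → ℝ) →ₗ[ℝ] (ι → ℝ)} (h : Adm I P) :
    Module.finrank ℝ (LinearMap.range (LinearMap.id - P)) ≤ I.card := by
  induction h with
  | nil =>
    rw [sub_self, LinearMap.range_zero]
    simp
  | @cons I P hI y p hy hPy hp ih =>
    have hpI := hI.notMem hy hPy hp
    rw [Finset.card_insert_of_notMem hpI]
    have hsub : LinearMap.range (LinearMap.id - (pj y p).comp P) ≤
        LinearMap.range (LinearMap.id - P) ⊔ Submodule.span ℝ {y} := by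
      rintro _ ⟨x, rfl⟩
      have e : ((LinearMap.id : (ι → ℝ) →ₗ[ℝ] (ι → ℝ)) - (pj y p).comp P) x =
          ((LinearMap.id : (ι → ℝ) →ₗ[ℝ] (ι → ℝ)) - P) x + ((P x) p / y p) • y := by
        simp only [LinearMap.sub_apply, LinearMap.id_apply, LinearMap.comp_apply, pj_apply]
        abel
      rw [e]
      exact Submodule.add_mem_sup ⟨x, rfl⟩
        (Submodule.smul_mem _ _ (Submodule.mem_span_singleton_self y))
    have h1 := Submodule.finrank_mono hsub
    have h2 := Submodule.finrank_add_le_finrank_add_finrank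
      (LinearMap.range (LinearMap.id - P)) (Submodule.span ℝ {y})
    have h3 : Module.finrank ℝ (Submodule.span ℝ {y}) ≤ 1 := by
      have := finrank_span_le_card (R := ℝ) ({y} : Set (ι → ℝ))
      simpa using this
    omega

/-- Minors of vectors whose projections are small. -/
theorem Adm.minor {I : Finset ι} {P : (ι → ℝ) →ₗ[ℝ] (ι → ℝ)} (h : Adm I P) {l : ℕ}
    (hl : I.card ≤ l)
    (σ : Fin (l + 1) → ι) (x : Fin (l + 1) → ι → ℝ) {ρ R : ℝ} (hR : 1 ≤ R)
    (hρ : ∀ i, ‖P (x i)‖ ≤ ρ) (hx : ∀ i, ‖x i‖ ≤ R) :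
    |(Matrix.of fun i j => x i (σ j)).det| ≤
      ((l + 1 : ℕ) : ℝ) ^ 2 * (Nat.factorial (l + 1)) * ρ * R ^ (l + 1) := by
  classical
  set K := LinearMap.range ((LinearMap.id : (ι → ℝ) →ₗ[ℝ] (ι → ℝ)) - P) with hK
  have hKdim : Module.finrank ℝ K ≤ l := h.rank.trans hl
  set τ : K →ₗ[ℝ] (Fin (l + 1) → ℝ) := (LinearMap.funLeft ℝ ℝ σ).comp K.subtype with hτ
  have hrange : LinearMap.range τ ≠ ⊤ := by
    intro h
    have h1 := LinearMap.finrank_range_le τ
    rw [h, finrank_top] at h1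
    simp at h1
    omega
  obtain ⟨g, hg0, hg⟩ := Submodule.exists_le_ker_of_lt_top _ (lt_top_iff_ne_top.2 hrange)
  set lam : Fin (l + 1) → ℝ := fun j => g (Pi.single j 1) with hlam
  have hglam : ∀ z : Fin (l + 1) → ℝ, g z = ∑ j, lam j * z j := by
    intro z
    conv_lhs => rw [pi_eq_sum_univ' z]
    rw [map_sum]
    refine Finset.sum_congr rfl fun j _ => ?_
    rw [map_smul, smul_eq_mul, mul_comm]
  obtain ⟨j0, hj0⟩ : ∃ j0, ∀ j, |lam j| ≤ |lam j0| := Finite.exists_max fun j => |lam j|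
  have hj0' : 0 < |lam j0| := by
    by_contra hcon
    apply hg0
    have h0 : ∀ j, lam j = 0 := by
      intro j
      have h1 := hj0 j
      have h2 := abs_nonneg (lam j)
      have h3 : |lam j| = 0 := by linarith [not_lt.1 hcon]
      exact abs_eq_zero.1 h3
    ext z
    simp [hglam, h0]
  have hfK : ∀ z, g (LinearMap.funLeft ℝ ℝ σ z) = g (LinearMap.funLeft ℝ ℝ σ (P z)) := by
    intro z
    have h1 : (LinearMap.funLeft ℝ ℝ σ) (((LinearMap.id : (ι → ℝ) →ₗ[ℝ] (ι → ℝ)) - P) z) ∈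
        LinearMap.range τ :=
      ⟨⟨((LinearMap.id : (ι → ℝ) →ₗ[ℝ] (ι → ℝ)) - P) z, ⟨z, rfl⟩⟩, rfl⟩
    have h2 : g ((LinearMap.funLeft ℝ ℝ σ)
        (((LinearMap.id : (ι → ℝ) →ₗ[ℝ] (ι → ℝ)) - P) z)) = 0 := hg h1
    rw [LinearMap.sub_apply, LinearMap.id_apply, map_sub, map_sub, sub_eq_zero] at h2
    exact h2
  have hρ0 : 0 ≤ ρ := (norm_nonneg _).trans (hρ 0)
  have hfbound : ∀ i, |g (LinearMap.funLeft ℝ ℝ σ (x i))| ≤ (l + 1 : ℕ) * (|lam j0| * ρ) := by
    intro i
    rw [hfK, hglam]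
    refine (Finset.abs_sum_le_sum_abs _ _).trans ?_
    have h1 : ∀ j ∈ (Finset.univ : Finset (Fin (l + 1))),
        |lam j * (LinearMap.funLeft ℝ ℝ σ (P (x i))) j| ≤ |lam j0| * ρ := by
      intro j _
      rw [abs_mul, LinearMap.funLeft_apply]
      refine mul_le_mul (hj0 j) ?_ (abs_nonneg _) hj0'.le
      have := norm_le_pi_norm (P (x i)) (σ j)
      rw [Real.norm_eq_abs] at this
      exact this.trans (hρ i)
    refine (Finset.sum_le_sum h1).trans (le_of_eq ?_)
    simp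
  set M : Matrix (Fin (l + 1)) (Fin (l + 1)) ℝ := Matrix.of fun i j => x i (σ j) with hM
  have hMlam : ∀ i, (M.mulVec lam) i = g (LinearMap.funLeft ℝ ℝ σ (x i)) := by
    intro i
    simp only [hglam, LinearMap.funLeft_apply, Matrix.mulVec, dotProduct, hM,
      Matrix.of_apply]
    refine Finset.sum_congr rfl fun j _ => by ring
  have hadj : ∀ i j, |M.adjugate i j| ≤ Nat.factorial (l + 1) * R ^ (l + 1) := by
    intro i j
    rw [Matrix.adjugate_apply]
    have h1 : ∀ a a', |(M.updateRow j (Pi.single i 1)) a a'| ≤ R := by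
      intro a a'
      by_cases ha : a = j
      · subst ha
        rw [Matrix.updateRow_self]
        by_cases hb : a' = i
        · subst hb; simp; exact hR
        · rw [Pi.single_eq_of_ne hb]; simp; linarith
      · rw [Matrix.updateRow_ne ha]
        have := norm_le_pi_norm (x a) (σ a')
        rw [Real.norm_eq_abs] at this
        exact this.trans (hx a)
    have h2 := Matrix.det_le (A := M.updateRow j (Pi.single i 1))
      (abv := (IsAbsoluteValue.toAbsoluteValue (abs : ℝ → ℝ))) (x := R) (by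
        intro a a'
        exact h1 a a')
    simpa using h2
  have hkey : M.det * lam j0 = ∑ i, M.adjugate j0 i * (M.mulVec lam) i := by
    have h1 : M.adjugate.mulVec (M.mulVec lam) = M.det • lam := by
      rw [Matrix.mulVec_mulVec, Matrix.adjugate_mul, Matrix.smul_mulVec, Matrix.one_mulVec]
    have h2 := congrFun h1 j0
    simp only [Pi.smul_apply, smul_eq_mul] at h2
    rw [← h2]
    rfl
  have h1 : |M.det * lam j0| ≤ (l + 1 : ℕ) * ((Nat.factorial (l + 1) * R ^ (l + 1)) *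
      ((l + 1 : ℕ) * (|lam j0| * ρ))) := by
    rw [hkey]
    refine (Finset.abs_sum_le_sum_abs _ _).trans ?_
    have h2 : ∀ i ∈ (Finset.univ : Finset (Fin (l+1))), |M.adjugate j0 i * (M.mulVec lam) i| ≤
        (Nat.factorial (l + 1) * R ^ (l + 1)) * ((l + 1 : ℕ) * (|lam j0| * ρ)) := by
      intro i _
      rw [abs_mul, hMlam]
      exact mul_le_mul (hadj j0 i) (hfbound i) (abs_nonneg _) (by positivity)
    refine (Finset.sum_le_sum h2).trans (le_of_eq ?_)
    simp
  rw [abs_mul] at h1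
  have h2 : (l + 1 : ℕ) * ((Nat.factorial (l + 1) * R ^ (l + 1)) *
      ((l + 1 : ℕ) * (|lam j0| * ρ))) =
      (((l + 1 : ℕ) : ℝ) ^ 2 * (Nat.factorial (l + 1)) * ρ * R ^ (l + 1)) * |lam j0| := by
    ring
  rw [h2] at h1
  exact le_of_mul_le_mul_right h1 hj0'

theorem exists_max_coord [Nonempty ι] (y : ι → ℝ) : ∃ p, |y p| = ‖y‖ := by
  obtain ⟨p, hp⟩ := Finite.exists_max fun i => |y i|
  refine ⟨p, le_antisymm ?_ ?_⟩
  · have := norm_le_pi_norm y p
    rwa [Real.norm_eq_abs] at this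
  · rw [pi_norm_le_iff_of_nonneg (abs_nonneg _)]
    intro i
    rw [Real.norm_eq_abs]
    exact hp i

end Pool.Agent.V7H68.UF
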