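import Pool.Agent.V7H68.UF.Adm
import Pool.Agent.V7H68.SS.Lin

/-!
Transversality for the functions `f + t`.
-/

namespace Pool.Agent.V7H68.UF

open Finset Real MeasureTheory SS MS

set_option linter.unusedSectionVars false

variable {ι : Type} [Fintype ι] [DecidableEq ι] {b : ℕ}

/-- The function `f + t·id` on the cube. -/
noncomputable def ft (f : (ι → ℝ) → ι → ℝ) (t : ℝ) : (ι → ℝ) → ι → ℝ :=
  (cube ι).indicator fun v => f v + t • v

theorem ft_mem (f : (ι → ℝ) → ι → ℝ) (t : ℝ) {v : ι → ℝ} (hv : v ∈ cube ι) :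
    ft f t v = f v + t • v := Set.indicator_of_mem hv _

theorem zm_ft {N : ℕ} (hN : 0 < N) {z : ι → ℕ} (hz : ∀ i, z i < N) (f : (ι → ℝ) → ι → ℝ)
    (t : ℝ) : zm N z (ft f t) = ft (zm N z f) t := by
  have hN0 : (N:ℝ) ≠ 0 := by exact_mod_cast hN.ne'
  funext v
  by_cases hv : v ∈ cube ι
  · rw [zm_of_mem hv, ft_mem _ _ hv, zm_of_mem hv, ft_mem _ _ (affine_mem_cube hz hv),
      ft_mem _ _ (corner_mem_cube hz)]
    funext i
    simp only [Pi.smul_apply, Pi.add_apply, Pi.sub_apply, smul_eq_mul]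
    field_simp
    ring
  · rw [zm_of_not_mem hv]
    unfold ft
    rw [Set.indicator_of_notMem hv]

theorem Bz.ft {R : ℝ} {f : (ι → ℝ) → ι → ℝ} (h : Bz b R f) (hb : 0 < b) {t : ℝ} (ht : |t| ≤ 1) :
    Bz b (R + 1) (ft f t) where
  meas := by
    unfold UF.ft
    exact (h.meas.add (measurable_id.const_smul t)).indicator cube_meas
  off u hu := Set.indicator_of_notMem hu _
  zero := by rw [ft_mem _ _ zero_mem_cube, h.zero, smul_zero, add_zero]
  bdd q z hz u := by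
    rw [zm_ft (pow_pos hb q) hz]
    by_cases hu : u ∈ cube ι
    · rw [ft_mem _ _ hu]
      refine (norm_add_le _ _).trans (add_le_add (h.bdd q z hz u) ?_)
      rw [norm_smul, Real.norm_eq_abs]
      have := norm_le_of_cube hu
      have h0 := norm_nonneg u
      nlinarith [abs_nonneg t]
    · have h0 : UF.ft (zm (b ^ q) z f) t u = 0 := Set.indicator_of_notMem hu _
      rw [h0, norm_zero]
      have := h.R0
      linarith

theorem X_ft (hb : 0 < b) (n : ℕ) (f : (ι → ℝ) → ι → ℝ) (t : ℝ) (w : ι → Fin (b ^ n)) :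
    X b n (ft f t) w = X b n f w + t • nv (dv w) := by
  have hb0 : (b:ℝ) ≠ 0 := by exact_mod_cast hb.ne'
  unfold X
  rw [ft_mem _ _ (corner_mem_cube (dv_lt w))]
  funext i
  simp only [Pi.smul_apply, Pi.add_apply, smul_eq_mul]
  push_cast
  field_simp

theorem norm_X_le {R : ℝ} {Z : (ι → ℝ) → ι → ℝ} (h : Bz b R Z) (n : ℕ) (w : ι → Fin (b ^ n)) :
    ‖X b n Z w‖ ≤ (b:ℝ) ^ n * R := by
  unfold X
  rw [norm_smul, Real.norm_of_nonneg (by positivity)]
  exact mul_le_mul_of_nonneg_left (h.le _) (by positivity)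

/-- Sublevel sets of determinants. -/
theorem det_sublevel {l : ℕ} (A W : Matrix (Fin l) (Fin l) ℝ) (hW : 1 ≤ |W.det|) {ρ : ℝ}
    (hρ : 0 < ρ) : volume {t : ℝ | |(A + t • W).det| < ρ ^ l} ≤ l * ENNReal.ofReal (2 * ρ) := by
  set f : Polynomial ℝ := ((Polynomial.X : Polynomial ℝ) • W.map Polynomial.C +
    A.map Polynomial.C).det with hf
  have hne : W.det ≠ 0 := by
    intro h
    rw [h, abs_zero] at hW
    linarith
  have hcoef : f.coeff l = W.det := by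
    have := Polynomial.coeff_det_X_add_C_card W A
    simpa using this
  have hle : f.natDegree ≤ l := by
    have := Polynomial.natDegree_det_X_add_C_le W A
    simpa using this
  have hdeg : f.natDegree = l := by
    refine le_antisymm hle (Polynomial.le_natDegree_of_ne_zero ?_)
    rw [hcoef]
    exact hne
  have hlead : f.leadingCoeff = W.det := by
    rw [Polynomial.leadingCoeff, hdeg, hcoef]
  have heval : ∀ t : ℝ, f.eval t = (A + t • W).det := by
    intro t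
    have h1 : f.eval t = (Polynomial.evalRingHom t) f := rfl
    rw [h1, hf, RingHom.map_det]
    congr 1
    ext i j
    simp [Matrix.add_apply, Matrix.smul_apply]
    ring
  have hsub : {t : ℝ | |(A + t • W).det| < ρ ^ l} ⊆ {t : ℝ | |f.eval t| < ρ ^ l} := by
    intro t ht
    change |f.eval t| < ρ ^ l
    rw [heval]
    exact ht
  refine (measure_mono hsub).trans (sublevel f hdeg ?_ hρ)
  rw [hlead]
  exact hW

/-- The matrix of differences of the values. -/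
noncomputable def mX (b n : ℕ) (f : (ι → ℝ) → ι → ℝ) {l : ℕ} (ws : Fin l → ι → Fin (b ^ n))
    (w0 : ι → Fin (b ^ n)) (σ : Fin l → ι) : Matrix (Fin l) (Fin l) ℝ :=
  Matrix.of fun i j => X b n f (ws i) (σ j) - X b n f w0 (σ j)

/-- The matrix of differences of the words. -/
def mV (b n : ℕ) {l : ℕ} (ws : Fin l → ι → Fin (b ^ n))
    (w0 : ι → Fin (b ^ n)) (σ : Fin l → ι) : Matrix (Fin l) (Fin l) ℝ :=
  Matrix.of fun i j => ((dv (ws i) (σ j) : ℝ) - dv w0 (σ j))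

theorem mV_int (n : ℕ) {l : ℕ} (ws : Fin l → ι → Fin (b ^ n))
    (w0 : ι → Fin (b ^ n)) (σ : Fin l → ι) (h : (mV b n ws w0 σ).det ≠ 0) :
    1 ≤ |(mV b n ws w0 σ).det| := by
  set Zm : Matrix (Fin l) (Fin l) ℤ := Matrix.of fun i j =>
    (dv (ws i) (σ j) : ℤ) - dv w0 (σ j) with hZ
  have h1 : mV b n ws w0 σ = (Int.castRingHom ℝ).mapMatrix Zm := by
    ext i j
    simp [mV, hZ]
  rw [h1, ← RingHom.map_det] at h ⊢
  simp only [eq_intCast] at h ⊢
  have h2 : Zm.det ≠ 0 := by exact_mod_cast h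
  have h3 : 1 ≤ |Zm.det| := Int.one_le_abs h2
  exact_mod_cast h3

/-- One bad set. -/
def bd1 (b n : ℕ) (f : (ι → ℝ) → ι → ℝ) (ρ : ℝ) {l : ℕ} (ws : Fin l → ι → Fin (b ^ n))
    (w0 : ι → Fin (b ^ n)) (σ : Fin l → ι) : Set ℝ :=
  {t | (mV b n ws w0 σ).det ≠ 0 ∧ |(mX b n f ws w0 σ + t • mV b n ws w0 σ).det| < ρ ^ l}

theorem bd1_meas (n : ℕ) (f : (ι → ℝ) → ι → ℝ) (ρ : ℝ) {l : ℕ} (ws : Fin l → ι → Fin (b ^ n))
    (w0 : ι → Fin (b ^ n)) (σ : Fin l → ι) : MeasurableSet (bd1 b n f ρ ws w0 σ) := by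
  unfold bd1
  by_cases h : (mV b n ws w0 σ).det = 0
  · have : {t : ℝ | (mV b n ws w0 σ).det ≠ 0 ∧
        |(mX b n f ws w0 σ + t • mV b n ws w0 σ).det| < ρ ^ l} = ∅ := by
      ext t
      simp [h]
    rw [this]
    exact MeasurableSet.empty
  · have : {t : ℝ | (mV b n ws w0 σ).det ≠ 0 ∧
        |(mX b n f ws w0 σ + t • mV b n ws w0 σ).det| < ρ ^ l} =
        {t : ℝ | |(mX b n f ws w0 σ + t • mV b n ws w0 σ).det| < ρ ^ l} := by
      ext t
      simp [h]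
    rw [this]
    have hc : Continuous fun t : ℝ => (mX b n f ws w0 σ + t • mV b n ws w0 σ).det := by
      refine Continuous.matrix_det ?_
      exact continuous_const.add (continuous_id.smul continuous_const)
    exact measurableSet_lt hc.abs.measurable measurable_const

theorem bd1_vol (n : ℕ) (f : (ι → ℝ) → ι → ℝ) {ρ : ℝ} (hρ : 0 < ρ) {l : ℕ}
    (ws : Fin l → ι → Fin (b ^ n))
    (w0 : ι → Fin (b ^ n)) (σ : Fin l → ι) :
    volume (bd1 b n f ρ ws w0 σ) ≤ l * ENNReal.ofReal (2 * ρ) := by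
  by_cases h : (mV b n ws w0 σ).det = 0
  · have : bd1 b n f ρ ws w0 σ = ∅ := by
      ext t
      simp [bd1, h]
    rw [this]
    simp
  · exact (measure_mono fun t ht => ht.2).trans
      (det_sublevel (mX b n f ws w0 σ) (mV b n ws w0 σ) (mV_int n ws w0 σ h) hρ)

/-- All bad parameters at level `n`. -/
def bdn (b : ℕ) (f : (ι → ℝ) → ι → ℝ) (A n : ℕ) : Set ℝ :=
  ⋃ l ∈ Finset.range (Fintype.card ι + 1),
    ⋃ x : (Fin (l + 1) → ι → Fin (b ^ n)) × (ι → Fin (b ^ n)) × (Fin (l + 1) → ι),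
      bd1 b n f (((b:ℝ) ^ (A * n))⁻¹) x.1 x.2.1 x.2.2

theorem bdn_meas (f : (ι → ℝ) → ι → ℝ) (A n : ℕ) : MeasurableSet (bdn b f A n) := by
  unfold bdn
  refine Finset.measurableSet_biUnion _ fun l _ => ?_
  exact MeasurableSet.iUnion fun x => bd1_meas n f _ x.1 x.2.1 x.2.2

/-- The constant of `bdn_vol`. -/
noncomputable def Cb (ι : Type) [Fintype ι] : ℝ :=
  ((Fintype.card ι : ℝ) + 1) * (((Fintype.card ι : ℝ) + 1) ^ (Fintype.card ι + 1) *
    (((Fintype.card ι : ℝ) + 1) * 2))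

theorem Cb_pos (ι : Type) [Fintype ι] : 0 < Cb ι := by unfold Cb; positivity

theorem bdn_vol (hb : 2 ≤ b) (f : (ι → ℝ) → ι → ℝ) {A : ℕ}
    (hA : Fintype.card ι * (Fintype.card ι + 2) + 1 ≤ A) (n : ℕ) :
    volume (bdn b f A n) ≤ ENNReal.ofReal (Cb ι * (1 / 2) ^ n) := by
  have hb0 : (0:ℝ) < b := by exact_mod_cast (by omega : 0 < b)
  have hb1 : (1:ℝ) ≤ b := by exact_mod_cast (by omega : 1 ≤ b)
  have hb2 : (2:ℝ) ≤ b := by exact_mod_cast hb
  set m := Fintype.card ι with hm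
  set N := (b ^ n) ^ m with hN
  have hN1 : 1 ≤ N := Nat.one_le_pow _ _ (Nat.pow_pos (by omega))
  set ρ : ℝ := ((b:ℝ) ^ (A * n))⁻¹ with hρ
  have hρ0 : 0 < ρ := by positivity
  have h1 : volume (bdn b f A n) ≤ ∑ l ∈ Finset.range (m + 1),
      ∑ _x : (Fin (l + 1) → ι → Fin (b ^ n)) × (ι → Fin (b ^ n)) × (Fin (l + 1) → ι),
        ((l + 1 : ℕ) * ENNReal.ofReal (2 * ρ)) := by
    unfold bdn
    refine (measure_biUnion_finset_le _ _).trans (Finset.sum_le_sum fun l _ => ?_)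
    refine (measure_iUnion_fintype_le _ _).trans (Finset.sum_le_sum fun x _ => ?_)
    exact bd1_vol n f hρ0 x.1 x.2.1 x.2.2
  refine h1.trans ?_
  have h2 : ∀ l ∈ Finset.range (m + 1),
      (∑ _x : (Fin (l + 1) → ι → Fin (b ^ n)) × (ι → Fin (b ^ n)) × (Fin (l + 1) → ι),
        ((l + 1 : ℕ) * ENNReal.ofReal (2 * ρ))) ≤
      ENNReal.ofReal ((N:ℝ) ^ (m + 2) * (m + 1) ^ (m + 1) * ((m + 1) * (2 * ρ))) := by
    intro l hl
    rw [Finset.mem_range] at hl
    rw [Finset.sum_const, nsmul_eq_mul]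
    have h3 : ((l + 1 : ℕ) : ENNReal) = ENNReal.ofReal ((l + 1 : ℕ) : ℝ) := by
      rw [ENNReal.ofReal_natCast]
    have h4 : ((Finset.univ : Finset ((Fin (l + 1) → ι → Fin (b ^ n)) × (ι → Fin (b ^ n)) ×
        (Fin (l + 1) → ι))).card : ENNReal) =
        ENNReal.ofReal (((Finset.univ : Finset ((Fin (l + 1) → ι → Fin (b ^ n)) ×
        (ι → Fin (b ^ n)) × (Fin (l + 1) → ι))).card : ℕ) : ℝ) := by
      rw [ENNReal.ofReal_natCast]
    rw [h3, h4, ← ENNReal.ofReal_mul (by positivity), ← ENNReal.ofReal_mul (by positivity)]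
    refine ENNReal.ofReal_le_ofReal ?_
    have h5 : ((Finset.univ : Finset ((Fin (l + 1) → ι → Fin (b ^ n)) × (ι → Fin (b ^ n)) ×
        (Fin (l + 1) → ι))).card : ℝ) ≤ (N:ℝ) ^ (m + 2) * (m + 1) ^ (m + 1) := by
      have h6 : (Finset.univ : Finset ((Fin (l + 1) → ι → Fin (b ^ n)) × (ι → Fin (b ^ n)) ×
        (Fin (l + 1) → ι))).card = N ^ (l + 2) * m ^ (l + 1) := by
        simp only [Finset.card_univ, Fintype.card_prod, Fintype.card_pi, Finset.prod_const,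
          Fintype.card_fin, ← hm, ← hN]
        rw [pow_succ N (l + 1)]
        ring
      rw [h6]
      push_cast
      have hN1' : (1:ℝ) ≤ N := by exact_mod_cast hN1
      have h7 : (N:ℝ) ^ (l + 2) ≤ (N:ℝ) ^ (m + 2) := pow_le_pow_right₀ hN1' (by omega)
      have h8 : (m:ℝ) ^ (l + 1) ≤ ((m:ℝ) + 1) ^ (m + 1) := by
        calc (m:ℝ) ^ (l + 1) ≤ ((m:ℝ) + 1) ^ (l + 1) :=
              pow_le_pow_left₀ (by positivity) (by linarith) _
          _ ≤ ((m:ℝ) + 1) ^ (m + 1) :=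
              pow_le_pow_right₀ (by have : (0:ℝ) ≤ m := by positivity
                                    linarith) (by omega)
      exact mul_le_mul h7 h8 (by positivity) (by positivity)
    have h6 : ((l + 1 : ℕ) : ℝ) * (2 * ρ) ≤ ((m:ℝ) + 1) * (2 * ρ) := by
      refine mul_le_mul_of_nonneg_right ?_ (by positivity)
      push_cast
      have : (l:ℝ) ≤ m := by exact_mod_cast (by omega : l ≤ m)
      linarith
    exact mul_le_mul h5 h6 (by positivity) (by positivity)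
  refine (Finset.sum_le_sum h2).trans ?_
  rw [Finset.sum_const, nsmul_eq_mul, Finset.card_range]
  have h3 : ((m + 1 : ℕ) : ENNReal) = ENNReal.ofReal ((m + 1 : ℕ) : ℝ) := by
    rw [ENNReal.ofReal_natCast]
  rw [h3, ← ENNReal.ofReal_mul (by positivity)]
  refine ENNReal.ofReal_le_ofReal ?_
  have h4 : (N:ℝ) ^ (m + 2) * ρ ≤ (1 / 2) ^ n := by
    have e1 : (N:ℝ) ^ (m + 2) = (b:ℝ) ^ (m * (m + 2) * n) := by
      rw [hN]
      push_cast
      rw [← pow_mul, ← pow_mul]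
      congr 1
      ring
    have e2 : (b:ℝ) ^ (m * (m + 2) * n) * (b:ℝ) ^ n ≤ (b:ℝ) ^ (A * n) := by
      rw [← pow_add]
      refine pow_le_pow_right₀ hb1 ?_
      have := Nat.mul_le_mul_right n hA
      linarith
    have e3 : (2:ℝ) ^ n ≤ (b:ℝ) ^ n := pow_le_pow_left₀ (by norm_num) hb2 n
    have e4 : (0:ℝ) < (b:ℝ) ^ (A * n) := by positivity
    rw [hρ, e1, ← div_eq_mul_inv, div_le_iff₀ e4, one_div, inv_pow, inv_mul_eq_div,
      le_div_iff₀ (by positivity)]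
    refine le_trans (mul_le_mul_of_nonneg_left e3 (by positivity)) e2
  unfold Cb
  rw [← hm]
  push_cast
  have h5 : ((m:ℝ) + 1) * ((N:ℝ) ^ (m + 2) * (m + 1) ^ (m + 1) * ((m + 1) * (2 * ρ))) =
      (((m:ℝ) + 1) * ((m + 1) ^ (m + 1) * ((m + 1) * 2))) * ((N:ℝ) ^ (m + 2) * ρ) := by
    ring
  rw [h5]
  exact mul_le_mul_of_nonneg_left h4 (by positivity)

theorem dv_injective (n : ℕ) : Function.Injective (dv : (ι → Fin (b ^ n)) → ι → ℕ) := by
  intro w w' h
  funext i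
  exact Fin.ext (congrFun h i)

/-- Good parameters: no large set of words is concentrated in a projection. -/
theorem not_conc (hb : 2 ≤ b) {R : ℝ} {f : (ι → ℝ) → ι → ℝ} (hf : Bz b R f) {A : ℕ} {n : ℕ}
    {t : ℝ} (ht1 : |t| ≤ 1) (ht : t ∉ bdn b f A n) {I : Finset ι}
    {P : (ι → ℝ) →ₗ[ℝ] (ι → ℝ)} (hP : Adm I P)
    (hn : ((Fintype.card ι + 1 : ℕ) : ℝ) ^ 2 * (Nat.factorial (Fintype.card ι + 1)) *
      (2 * (R + 1) + 1) ^ (Fintype.card ι + 1) < (b:ℝ) ^ n)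
    (S : Finset (ι → Fin (b ^ n))) (w0 : ι → Fin (b ^ n))
    (hS : ∀ w ∈ S, ‖P (X b n (ft f t) w) - P (X b n (ft f t) w0)‖ ≤
      ((b:ℝ) ^ (((Fintype.card ι + 1) * (A + 1) + 1) * n))⁻¹) : S.card ≤ (b ^ n) ^ I.card := by
  by_contra hcon
  rw [not_le] at hcon
  have hb0 : (0:ℝ) < b := by exact_mod_cast (by omega : 0 < b)
  have hb1 : (1:ℝ) ≤ b := by exact_mod_cast (by omega : 1 ≤ b)
  set l := I.card with hl
  have hlm : l ≤ Fintype.card ι := hP.card_le
  set m := Fintype.card ι with hm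
  obtain ⟨ws, hws, σ, hdet⟩ := exists_minor S dv (b ^ n) l
    (fun w _ i => dv_lt w i) (fun w _ w' _ hww => dv_injective n hww) hcon
    (Nat.one_le_pow _ _ (by omega)) w0
  apply ht
  unfold bdn
  simp only [Set.mem_iUnion]
  refine ⟨l, Finset.mem_range.2 (by omega), (ws, w0, σ), hdet, ?_⟩
  simp only
  set x : Fin (l + 1) → ι → ℝ := fun i => X b n (ft f t) (ws i) - X b n (ft f t) w0 with hx
  set cc : ℝ := 2 * (R + 1) + 1 with hcc
  have hR := hf.R0
  have hcc1 : 1 ≤ cc := by rw [hcc]; linarith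
  have hX1 : (1:ℝ) ≤ (b:ℝ) ^ n := one_le_pow₀ hb1
  have hPx : ∀ i, ‖P (x i)‖ ≤ ((b:ℝ) ^ (((m + 1) * (A + 1) + 1) * n))⁻¹ := by
    intro i
    rw [hx]
    simp only
    rw [map_sub]
    exact hS _ (hws i)
  have hxR : ∀ i, ‖x i‖ ≤ (b:ℝ) ^ n * cc := by
    intro i
    rw [hx]
    refine (norm_sub_le _ _).trans ?_
    have h1 := norm_X_le (hf.ft (by omega) ht1) n (ws i)
    have h2 := norm_X_le (hf.ft (by omega) ht1) n w0
    rw [hcc]
    nlinarith
  have hR1 : 1 ≤ (b:ℝ) ^ n * cc := by nlinarith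
  have hsm := hP.minor le_rfl σ x hR1 hPx hxR
  have hmat : (Matrix.of fun i j => x i (σ j)) = mX b n f ws w0 σ + t • mV b n ws w0 σ := by
    ext i j
    simp only [Matrix.of_apply, hx, Pi.sub_apply, X_ft (by omega : 0 < b), mX, mV,
      Matrix.add_apply, Matrix.smul_apply, smul_eq_mul, Pi.add_apply, Pi.smul_apply, nv]
    ring
  rw [hmat] at hsm
  refine hsm.trans_lt ?_
  set Xn : ℝ := (b:ℝ) ^ n with hXn
  have hXpos : 0 < Xn := by positivity
  have h1 : Xn ^ ((l + 1) * (A + 1) + 1) ≤ (b:ℝ) ^ (((m + 1) * (A + 1) + 1) * n) := by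
    rw [hXn, ← pow_mul]
    refine pow_le_pow_right₀ hb1 ?_
    rw [mul_comm]
    refine Nat.mul_le_mul_right _ ?_
    have : (l + 1) * (A + 1) ≤ (m + 1) * (A + 1) := Nat.mul_le_mul_right _ (by omega)
    omega
  have h3 : ((b:ℝ) ^ (((m + 1) * (A + 1) + 1) * n))⁻¹ ≤ (Xn ^ ((l + 1) * (A + 1) + 1))⁻¹ :=
    inv_anti₀ (by positivity) h1
  have h2 : ((b:ℝ) ^ (A * n))⁻¹ = (Xn ^ A)⁻¹ := by rw [hXn, ← pow_mul, mul_comm]
  rw [h2]
  set Cl : ℝ := ((l + 1 : ℕ) : ℝ) ^ 2 * (Nat.factorial (l + 1)) with hCl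
  have hCl0 : 0 ≤ Cl := by positivity
  have hClm : Cl * cc ^ (l + 1) < Xn := by
    refine lt_of_le_of_lt ?_ hn
    have e1 : Cl ≤ ((m + 1 : ℕ) : ℝ) ^ 2 * (Nat.factorial (m + 1)) := by
      rw [hCl]
      refine mul_le_mul ?_ ?_ (by positivity) (by positivity)
      · exact pow_le_pow_left₀ (by positivity) (by exact_mod_cast (by omega : l + 1 ≤ m + 1)) 2
      · exact_mod_cast Nat.factorial_le (by omega)
    have e2 : cc ^ (l + 1) ≤ cc ^ (m + 1) := pow_le_pow_right₀ hcc1 (by omega)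
    exact mul_le_mul e1 e2 (by positivity) (by positivity)
  clear_value Xn Cl
  calc Cl * ((b:ℝ) ^ (((m + 1) * (A + 1) + 1) * n))⁻¹ * (Xn * cc) ^ (l + 1)
      ≤ Cl * (Xn ^ ((l + 1) * (A + 1) + 1))⁻¹ * (Xn * cc) ^ (l + 1) := by
        refine mul_le_mul_of_nonneg_right ?_ (by positivity)
        exact mul_le_mul_of_nonneg_left h3 hCl0
    _ = (Cl * cc ^ (l + 1)) * ((Xn ^ A)⁻¹) ^ (l + 1) * Xn⁻¹ := by
        rw [mul_pow, inv_pow, ← pow_mul]
        have e1 : Xn ^ ((l + 1) * (A + 1) + 1) = Xn ^ (A * (l + 1)) * Xn ^ (l + 1) * Xn := by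
          rw [← pow_add, ← pow_succ]
          congr 1
          ring
        rw [e1]
        field_simp
    _ < Xn * ((Xn ^ A)⁻¹) ^ (l + 1) * Xn⁻¹ := by
        have : 0 < ((Xn ^ A)⁻¹) ^ (l + 1) := by positivity
        have hXi : 0 < Xn⁻¹ := by positivity
        exact mul_lt_mul_of_pos_right (mul_lt_mul_of_pos_right hClm this) hXi
    _ = ((Xn ^ A)⁻¹) ^ (l + 1) := by
        field_simp

end Pool.Agent.V7H68.UF
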