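import Pool.Agent.V7H68.UF.Dead

/-!
Counting the cubes which meet the image of a set.
-/

namespace Pool.Agent.V7H68.UF

open Finset Real MeasureTheory SS MS Filter
open scoped ENNReal

set_option linter.unusedSectionVars false

variable {ι : Type} [Fintype ι] [DecidableEq ι] {β : ℕ}

/-- The labels: the child itself for the first `n0` levels. -/
noncomputable def lb (β n0 : ℕ) (X : (ι → ℝ) → ι → ℝ) (x : St ι) (w : ι → Fin β) : ι → ℤ :=
  if x.1 < n0 then fun i => ((w i : ℕ) : ℤ) else clab β X x w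

/-- The possible labels of a point near `y`. -/
noncomputable def BX (β n0 K : ℕ) (y : ι → ℝ) (l : ℕ) : Finset (ι → ℤ) :=
  if l < n0 then Fintype.piFinset fun _ => Finset.Ico 0 (β:ℤ) else
    Fintype.piFinset fun i => Finset.Icc (fl ((β:ℝ) ^ (l + 1) • y) i - K)
      (fl ((β:ℝ) ^ (l + 1) • y) i + K)

theorem BX_card (hβ : 0 < β) (n0 K : ℕ) (y : ι → ℝ) (l : ℕ) : ((BX β n0 K y l).card : ℝ) ≤
    (if l < n0 then (β:ℝ) ^ Fintype.card ι else 1) * (2 * K + 1) ^ Fintype.card ι := by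
  unfold BX
  have h1 : (1:ℝ) ≤ (2 * K + 1) ^ Fintype.card ι :=
    one_le_pow₀ (by have : (0:ℝ) ≤ K := Nat.cast_nonneg K
                    linarith)
  split
  · rw [Fintype.card_piFinset]
    simp only [Int.card_Ico, sub_zero, Int.toNat_natCast, Finset.prod_const, Finset.card_univ]
    push_cast
    exact le_mul_of_one_le_right (by positivity) h1
  · rw [one_mul]
    exact (card_box _ K).le

theorem prod_ite_le {B : ℝ} (hB : 1 ≤ B) (n n0 : ℕ) :
    ∏ j : Fin n, (if (j:ℕ) < n0 then B else 1) ≤ B ^ n0 := by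
  rw [Finset.prod_ite, Finset.prod_const, Finset.prod_const_one, mul_one]
  refine pow_le_pow_right₀ hB ?_
  have : ((Finset.univ.filter fun j : Fin n => (j:ℕ) < n0).image fun j : Fin n => (j:ℕ)) ⊆
      Finset.range n0 := by
    intro k hk
    rw [Finset.mem_image] at hk
    obtain ⟨j, hj, rfl⟩ := hk
    rw [Finset.mem_filter] at hj
    exact Finset.mem_range.2 hj.2
  have h2 := Finset.card_le_card this
  rwa [Finset.card_image_of_injective _ Fin.val_injective, Finset.card_range] at h2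

theorem pth_box (hβ : 2 ≤ β) {X : (ι → ℝ) → ι → ℝ} {u : ι → ℝ} {n0 : ℕ} {R : ℝ}
    {K : ℕ} (hK : R + 2 ≤ K)
    (h : ∀ x : St ι, n0 ≤ x.1 → u ∈ cell β x → ‖X u - X (corner β x)‖ ≤ R / (β:ℝ) ^ x.1)
    (n : ℕ) : ∀ (x : St ι) (w : Fin n → ι → Fin β),
      u ∈ cell β (stn β n x w) → ∀ y : ι → ℝ, ‖X u - y‖ ≤ ((β:ℝ) ^ (x.1 + n))⁻¹ →
      ∀ j : Fin n, pth (chd β) (lb β n0 X) n x w j ∈ BX β n0 K y (x.1 + j) := by
  have hβ0 : (0:ℝ) < β := by exact_mod_cast (by omega : 0 < β)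
  have hβ1 : (1:ℝ) ≤ β := by exact_mod_cast (by omega : 1 ≤ β)
  induction n with
  | zero => intro x w _ y _ j; exact j.elim0
  | succ n ih =>
    intro x w hu y hy j
    refine Fin.cases ?_ (fun j => ?_) j
    · simp only [pth, Fin.cons_zero, Fin.val_zero, add_zero]
      unfold lb BX
      split
      · rw [Fintype.mem_piFinset]
        intro i
        rw [Finset.mem_Ico]
        have := (w 0 i).2
        constructor
        · positivity
        · exact_mod_cast this
      · rename_i hx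
        rw [not_lt] at hx
        rw [Fintype.mem_piFinset]
        intro i
        rw [Finset.mem_Icc]
        have hfl : |clab β X x (w 0) i - fl ((β:ℝ) ^ (x.1 + 1) • y) i| ≤ K := by
          simp only [clab]
          refine fl_near ?_ i
          refine le_trans ?_ hK
          have h1 : u ∈ MS.cell β (chd β x (w 0)) := cell_stn (by omega) n _ _ hu
          have h2 := h (chd β x (w 0)) (by simp only [chd]; omega) h1
          have h3 : (chd β x (w 0)).1 = x.1 + 1 := rfl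
          rw [h3] at h2
          have h4 : (0:ℝ) < (β:ℝ) ^ (x.1 + 1) := by positivity
          have h5 : pos β X (chd β x (w 0)) - (β:ℝ) ^ (x.1 + 1) • y =
              (β:ℝ) ^ (x.1 + 1) • ((X u - y) - (X u - X (corner β (chd β x (w 0))))) := by
            unfold pos
            rw [h3, smul_sub, smul_sub, smul_sub]
            abel
          rw [h5, norm_smul, Real.norm_of_nonneg h4.le]
          have h6 : ‖X u - y‖ ≤ ((β:ℝ) ^ (x.1 + 1))⁻¹ := by
            refine hy.trans (inv_anti₀ h4 (pow_le_pow_right₀ hβ1 (by omega)))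
          have h7 := norm_sub_le (X u - y) (X u - X (corner β (chd β x (w 0))))
          have h8 : (β:ℝ) ^ (x.1 + 1) * ‖X u - y - (X u - X (corner β (chd β x (w 0))))‖ ≤
              (β:ℝ) ^ (x.1 + 1) * (((β:ℝ) ^ (x.1 + 1))⁻¹ + R / (β:ℝ) ^ (x.1 + 1)) :=
            mul_le_mul_of_nonneg_left (by linarith) h4.le
          have h9 : (β:ℝ) ^ (x.1 + 1) * (((β:ℝ) ^ (x.1 + 1))⁻¹ + R / (β:ℝ) ^ (x.1 + 1)) =
              1 + R := by
            field_simp
          linarith
        have := abs_le.1 hfl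
        constructor <;> linarith [this.1, this.2]
    · simp only [pth, Fin.cons_succ]
      have h1 := ih (chd β x (w 0)) (fun j => w j.succ) hu y (by
        have : (chd β x (w 0)).1 + n = x.1 + (n + 1) := by simp only [chd]; omega
        rw [this]
        exact hy) j
      have h2 : (chd β x (w 0)).1 + (j:ℕ) = x.1 + (j.succ : ℕ) := by
        simp only [chd, Fin.val_succ]; omega
      rw [h2] at h1
      exact h1

/-- The grid cube of an integer vector. -/
def gcube (β n : ℕ) (z : ι → ℤ) : Set (ι → ℝ) := {p | fl ((β:ℝ) ^ n • p) = z}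

theorem gcube_eq (hβ : 0 < β) (n : ℕ) (z : ι → ℤ) : gcube β n z =
    Set.univ.pi fun i => Set.Ico ((z i : ℝ) / (β:ℝ) ^ n) (((z i : ℝ) + 1) / (β:ℝ) ^ n) := by
  have hβ0 : (0:ℝ) < (β:ℝ) ^ n := by
    have : (0:ℝ) < β := by exact_mod_cast hβ
    positivity
  ext p
  simp only [gcube, Set.mem_ofPred_eq, Set.mem_univ_pi, Set.mem_Ico, funext_iff, fl,
    Pi.smul_apply, smul_eq_mul]
  refine forall_congr' fun i => ?_
  rw [Int.floor_eq_iff, div_le_iff₀ hβ0, lt_div_iff₀ hβ0, mul_comm]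

theorem vol_gcube (hβ : 0 < β) (n : ℕ) (z : ι → ℤ) :
    volume (gcube β n z) = ENNReal.ofReal ((((β:ℝ) ^ Fintype.card ι) ^ n)⁻¹) := by
  have hβ0 : (0:ℝ) < (β:ℝ) ^ n := by
    have : (0:ℝ) < β := by exact_mod_cast hβ
    positivity
  rw [gcube_eq hβ, Real.volume_pi_Ico]
  have : ∀ i, ((z i : ℝ) + 1) / (β:ℝ) ^ n - (z i : ℝ) / (β:ℝ) ^ n =
      ((β:ℝ) ^ n)⁻¹ := fun i => by field_simp; ring
  simp only [this, Finset.prod_const, Finset.card_univ]
  rw [← ENNReal.ofReal_pow (by positivity)]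
  congr 1
  rw [inv_pow, ← pow_mul, ← pow_mul, mul_comm]

theorem gcube_meas (hβ : 0 < β) (n : ℕ) (z : ι → ℤ) : MeasurableSet (gcube β n z) := by
  rw [gcube_eq hβ]
  exact MeasurableSet.univ_pi fun _ => measurableSet_Ico

theorem gcube_near (hβ : 0 < β) (n : ℕ) {p q : ι → ℝ} (h : p ∈ gcube β n (fl ((β:ℝ) ^ n • q)))
    (i : ι) : |p i - q i| < ((β:ℝ) ^ n)⁻¹ := by
  have hβ0 : (0:ℝ) < (β:ℝ) ^ n := by
    have : (0:ℝ) < β := by exact_mod_cast hβ
    positivity
  have h1 := congrFun (show fl ((β:ℝ) ^ n • p) = fl ((β:ℝ) ^ n • q) from h) i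
  simp only [fl, Pi.smul_apply, smul_eq_mul] at h1
  have h2 := Int.abs_sub_lt_one_of_floor_eq_floor h1
  rw [← mul_sub, abs_mul, abs_of_pos hβ0] at h2
  rw [inv_eq_one_div, lt_div_iff₀ hβ0, mul_comm]
  exact h2

open Classical in
/-- The volume of neighbourhoods of the image. -/
theorem slice_bound (hβ : 2 ≤ β) {X : (ι → ℝ) → ι → ℝ} {n0 : ℕ} {R : ℝ}
    {K : ℕ} (hK : R + 2 ≤ K) {Y : Set (ι → ℝ)} (hY : Y ⊆ cube ι)
    (h : ∀ u ∈ Y, ∀ x : St ι, n0 ≤ x.1 → u ∈ cell β x →
      ‖X u - X (corner β x)‖ ≤ R / (β:ℝ) ^ x.1)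
    {lam : ℝ} (hvol : ENNReal.ofReal lam ≤ volume Y) (n : ℕ)
    {U : Set (ι → ℝ)}
    (hU : ∀ u ∈ Y, ∀ p : ι → ℝ, (∀ i, |p i - X u i| < ((β:ℝ) ^ n)⁻¹) → p ∈ U)
    {B0 : ℝ} (hB0 : ∀ S : Finset (Fin n → ι → Fin β),
      lam * Fintype.card (Fin n → ι → Fin β) ≤ S.card →
      B0 ≤ (S.image (pth (chd β) (lb β n0 X) n ((0, 0) : St ι))).card) :
    ENNReal.ofReal (B0 / (((β:ℝ) ^ Fintype.card ι) ^ n *
      (((β:ℝ) ^ Fintype.card ι) ^ n0 * ((2 * (K:ℝ) + 1) ^ Fintype.card ι) ^ n))) ≤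
        volume U := by
  have hβ' : 0 < β := by omega
  have : NeZero β := ⟨by omega⟩
  have hβ0 : (0:ℝ) < β := by exact_mod_cast hβ'
  have hβ1 : (1:ℝ) ≤ β := by exact_mod_cast (by omega : 1 ≤ β)
  set N : ℝ := (β:ℝ) ^ Fintype.card ι with hN
  have hN0 : 0 < N := by positivity
  have hN1 : 1 ≤ N := one_le_pow₀ hβ1
  set root : St ι := (0, 0) with hroot
  set S : Finset (Fin n → ι → Fin β) := Finset.univ.filter fun w =>
    ∃ u ∈ Y, u ∈ MS.cell β (stn β n root w) with hS
  have hcard : (Fintype.card (Fin n → ι → Fin β) : ℝ) = N ^ n := by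
    rw [Fintype.card_fun, Fintype.card_fin, Fintype.card_pi]
    simp [hN]
  -- many words
  have hSc : lam * Fintype.card (Fin n → ι → Fin β) ≤ S.card := by
    have h1 : Y ⊆ ⋃ w ∈ S, MS.cell β (stn β n root w) := by
      intro u hu
      have h2 : u ∈ MS.cell β root := by rw [hroot, cell_root]; exact hY hu
      obtain ⟨w, hw⟩ := exists_stn hβ' n root h2
      simp only [Set.mem_iUnion]
      exact ⟨w, Finset.mem_filter.2 ⟨Finset.mem_univ w, u, hu, hw⟩, hw⟩
    have h2 : volume Y ≤ ENNReal.ofReal (S.card * (N ^ n)⁻¹) := by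
      refine (measure_mono h1).trans ((measure_biUnion_finset_le _ _).trans ?_)
      have h3 : ∀ w ∈ S, volume (MS.cell β (stn β n root w)) = ENNReal.ofReal ((N ^ n)⁻¹) := by
        intro w _
        rw [vol_cell hβ', stn_fst, hroot, zero_add]
      rw [Finset.sum_congr rfl h3, Finset.sum_const, nsmul_eq_mul,
        ENNReal.ofReal_mul (by positivity), ENNReal.ofReal_natCast]
    have h3 := (ENNReal.ofReal_le_ofReal_iff (by positivity)).1 (hvol.trans h2)
    rw [hcard]
    have h4 := mul_le_mul_of_nonneg_right h3 (show 0 ≤ N ^ n by positivity)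
    rwa [mul_assoc, inv_mul_cancel₀ (by positivity), mul_one] at h4
  have h1 := hB0 S hSc
  -- representatives
  have hrep : ∀ w : Fin n → ι → Fin β, ∃ u, w ∈ S → u ∈ Y ∧ u ∈ MS.cell β (stn β n root w) := by
    intro w
    by_cases hw : w ∈ S
    · obtain ⟨u, hu, huw⟩ := (Finset.mem_filter.1 hw).2
      exact ⟨u, fun _ => ⟨hu, huw⟩⟩
    · exact ⟨0, fun h => absurd h hw⟩
  choose rep hrep using hrep
  set Z : Finset (ι → ℤ) := S.image fun w => fl ((β:ℝ) ^ n • X (rep w)) with hZ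
  set yz : (ι → ℤ) → ι → ℝ := fun z => ((β:ℝ) ^ n)⁻¹ • fun i => (z i : ℝ) with hyz
  have h2 : S.image (pth (chd β) (lb β n0 X) n root) ⊆
      Z.biUnion fun z => Fintype.piFinset fun j : Fin n => BX β n0 K (yz z) j := by
    intro p hp
    obtain ⟨w, hw, rfl⟩ := Finset.mem_image.1 hp
    rw [Finset.mem_biUnion]
    refine ⟨_, Finset.mem_image_of_mem _ hw, ?_⟩
    rw [Fintype.mem_piFinset]
    intro j
    obtain ⟨hu1, hu2⟩ := hrep w hw
    have h3 := pth_box hβ hK (h _ hu1) n root w hu2 (yz (fl ((β:ℝ) ^ n • X (rep w)))) (by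
      rw [hroot]
      simp only [zero_add]
      rw [pi_norm_le_iff_of_nonneg (by positivity)]
      intro i
      rw [Real.norm_eq_abs]
      simp only [hyz, Pi.sub_apply, Pi.smul_apply, smul_eq_mul, fl]
      have h4 := Int.floor_le ((β:ℝ) ^ n * X (rep w) i)
      have h5 := Int.lt_floor_add_one ((β:ℝ) ^ n * X (rep w) i)
      have h6 : (0:ℝ) < (β:ℝ) ^ n := by positivity
      have h7 : X (rep w) i - ((β:ℝ) ^ n)⁻¹ * (⌊(β:ℝ) ^ n * X (rep w) i⌋ : ℝ) =
          ((β:ℝ) ^ n)⁻¹ * ((β:ℝ) ^ n * X (rep w) i - ⌊(β:ℝ) ^ n * X (rep w) i⌋) := by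
        field_simp
      rw [h7, abs_mul, abs_of_pos (show (0:ℝ) < ((β:ℝ) ^ n)⁻¹ by positivity)]
      refine mul_le_of_le_one_right (by positivity) ?_
      rw [abs_le]
      constructor <;> linarith) j
    rw [hroot] at h3
    simpa using h3
  have h3 : ((S.image (pth (chd β) (lb β n0 X) n root)).card : ℝ) ≤
      Z.card * (N ^ n0 * ((2 * (K:ℝ) + 1) ^ Fintype.card ι) ^ n) := by
    have h4 : ((S.image (pth (chd β) (lb β n0 X) n root)).card : ℝ) ≤
        ∑ z ∈ Z, ((Fintype.piFinset fun j : Fin n => BX β n0 K (yz z) j).card : ℝ) := by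
      exact_mod_cast (Finset.card_le_card h2).trans Finset.card_biUnion_le
    refine h4.trans ?_
    rw [← nsmul_eq_mul]
    refine Finset.sum_le_card_nsmul _ _ _ fun z _ => ?_
    rw [Fintype.card_piFinset]
    push_cast
    have h5 : ∏ j : Fin n, ((BX β n0 K (yz z) (j:ℕ)).card : ℝ) ≤
        ∏ j : Fin n, ((if (j:ℕ) < n0 then N else 1) * (2 * (K:ℝ) + 1) ^ Fintype.card ι) :=
      Finset.prod_le_prod (fun _ _ => Nat.cast_nonneg _)
        fun j _ => BX_card hβ' n0 K (yz z) (j:ℕ)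
    refine h5.trans ?_
    rw [Finset.prod_mul_distrib]
    refine mul_le_mul (prod_ite_le hN1 n n0) (le_of_eq ?_) (by positivity) (by positivity)
    rw [Finset.prod_const, Finset.card_univ, Fintype.card_fin]
  -- volume
  have h4 : (⋃ z ∈ Z, gcube β n z) ⊆ U := by
    intro p hp
    simp only [Set.mem_iUnion] at hp
    obtain ⟨z, hz, hp⟩ := hp
    obtain ⟨w, hw, rfl⟩ := Finset.mem_image.1 hz
    exact hU _ (hrep w hw).1 p fun i => gcube_near hβ' n hp i
  have h5 : volume (⋃ z ∈ Z, gcube β n z) = ENNReal.ofReal (Z.card * (N ^ n)⁻¹) := by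
    rw [measure_biUnion_finset (fun z _ z' _ hzz => by
      rw [Function.onFun, Set.disjoint_left]
      intro p hp hp'
      exact hzz (hp.symm.trans hp')) fun z _ => gcube_meas hβ' n z]
    simp only [vol_gcube hβ', Finset.sum_const, nsmul_eq_mul]
    rw [ENNReal.ofReal_mul (by positivity), ENNReal.ofReal_natCast]
  refine le_trans ?_ (measure_mono h4)
  rw [h5]
  refine ENNReal.ofReal_le_ofReal ?_
  set B : ℝ := N ^ n0 * ((2 * (K:ℝ) + 1) ^ Fintype.card ι) ^ n with hB
  have hB0 : 0 < B := by positivity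
  have h6 := h1.trans h3
  rw [div_le_iff₀ (by positivity)]
  calc B0 ≤ Z.card * B := h6
    _ = Z.card * (N ^ n)⁻¹ * (N ^ n * B) := by
      field_simp

end Pool.Agent.V7H68.UF
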