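import Pool.Agent.V7H68.UF.Dn

/-!
Entropy of functions on the cube with bounded zooms: superadditivity.
-/

namespace Pool.Agent.V7H68.UF

open Finset Real MeasureTheory SS MS

set_option linter.unusedSectionVars false

/-- Averages over a finite type. -/
noncomputable def av {Ω : Type*} [Fintype Ω] (F : Ω → ℝ) : ℝ := ∑ w, (Fintype.card Ω : ℝ)⁻¹ * F w

section av

variable {Ω : Type*} [Fintype Ω]

theorem av_const [Nonempty Ω] (a : ℝ) : av (fun _ : Ω => a) = a := sum_inv_card a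

theorem av_add (F G : Ω → ℝ) : av (fun w => F w + G w) = av F + av G := by
  unfold av
  rw [← Finset.sum_add_distrib]
  exact Finset.sum_congr rfl fun w _ => by ring

theorem av_sub (F G : Ω → ℝ) : av (fun w => F w - G w) = av F - av G := by
  unfold av
  rw [← Finset.sum_sub_distrib]
  exact Finset.sum_congr rfl fun w _ => by ring

theorem av_mul (a : ℝ) (F : Ω → ℝ) : av (fun w => a * F w) = a * av F := by
  unfold av
  rw [Finset.mul_sum]
  exact Finset.sum_congr rfl fun w _ => by ring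

theorem av_mono {F G : Ω → ℝ} (h : ∀ w, F w ≤ G w) : av F ≤ av G :=
  Finset.sum_le_sum fun w _ => mul_le_mul_of_nonneg_left (h w) (by positivity)

theorem av_nonneg {F : Ω → ℝ} (h : ∀ w, 0 ≤ F w) : 0 ≤ av F :=
  Finset.sum_nonneg fun w _ => mul_nonneg (by positivity) (h w)

theorem av_sum {κ : Type*} (s : Finset κ) (F : κ → Ω → ℝ) :
    av (fun w => ∑ i ∈ s, F i w) = ∑ i ∈ s, av (F i) := by
  unfold av
  rw [Finset.sum_comm]
  exact Finset.sum_congr rfl fun w _ => by rw [Finset.mul_sum]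

end av

variable {ι : Type} [Fintype ι] [DecidableEq ι] {b : ℕ}

/-- The entropy at scale `b^(-n)`. -/
noncomputable def En (b : ℕ) (Z : (ι → ℝ) → ι → ℝ) (n : ℕ) : ℝ := ent (dn b Z n)

/-- A bound for the entropy at scale one. -/
noncomputable def C0 (ι : Type) [Fintype ι] (R : ℝ) : ℝ :=
  volume.real (Metric.closedBall (0 : ι → ℝ) (1 + R))

theorem C0_nonneg (R : ℝ) : 0 ≤ C0 ι R := measureReal_nonneg

theorem C0_mono {R R' : ℝ} (h : R ≤ R') : C0 ι R ≤ C0 ι R' :=
  measureReal_mono (Metric.closedBall_subset_closedBall (by linarith))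
    (isCompact_closedBall (0 : ι → ℝ) _).measure_lt_top.ne

variable {R : ℝ} {Z : (ι → ℝ) → ι → ℝ}

theorem Bz.En_nonneg (h : Bz b R Z) (hb : 0 < b) (n : ℕ) : 0 ≤ En b Z n :=
  (h.dens hb _).ent_nonneg

theorem Bz.En_zero (h : Bz b R Z) (hb : 0 < b) : En b Z 0 ≤ C0 ι R := by
  unfold En
  refine ent_le_vol (h.dens hb _) fun u hu => h.supp _ hb ?_
  simpa using hu

theorem Bz.inc_nn (h : Bz b R Z) (hb : 0 < b) (k : ℤ) : 0 ≤ inc b (dn b Z k) :=
  inc_nonneg hb (h.dens hb k)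

theorem Bz.inc_le (h : Bz b R Z) (hb : 0 < b) (k : ℤ) :
    inc b (dn b Z k) ≤ Fintype.card ι * log b := inc_le_log hb (h.dens hb k)

theorem Bz.En_succ (h : Bz b R Z) (hb : 0 < b) (n : ℕ) :
    En b Z (n + 1) = En b Z n + inc b (dn b Z ((n + 1 : ℕ) : ℤ)) := by
  unfold En inc
  rw [h.coarse hb]
  have : ((n + 1 : ℕ) : ℤ) - 1 = n := by push_cast; ring
  rw [this]
  ring

theorem Bz.En_add (h : Bz b R Z) (hb : 0 < b) (n L : ℕ) :
    En b Z (n + L) = En b Z n + ∑ i ∈ Finset.range L, inc b (dn b Z ((n + i + 1 : ℕ) : ℤ)) := by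
  induction L with
  | zero => simp
  | succ L ih =>
    rw [Finset.sum_range_succ, ← add_assoc, h.En_succ hb, ih]
    push_cast
    ring_nf

theorem Bz.En_mono (h : Bz b R Z) (hb : 0 < b) (n L : ℕ) : En b Z n ≤ En b Z (n + L) := by
  rw [h.En_add hb]
  have : 0 ≤ ∑ i ∈ Finset.range L, inc b (dn b Z ((n + i + 1 : ℕ) : ℤ)) :=
    Finset.sum_nonneg fun i _ => h.inc_nn hb _
  linarith

theorem Bz.En_le (h : Bz b R Z) (hb : 0 < b) (n : ℕ) :
    En b Z n ≤ C0 ι R + n * (Fintype.card ι * log b) := by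
  have h1 := h.En_add hb 0 n
  rw [zero_add] at h1
  rw [h1]
  have h2 := h.En_zero hb
  have h3 : ∑ i ∈ Finset.range n, inc b (dn b Z ((0 + i + 1 : ℕ) : ℤ)) ≤
      n * (Fintype.card ι * log b) := by
    refine (Finset.sum_le_sum fun i _ => h.inc_le hb _).trans (le_of_eq ?_)
    rw [Finset.sum_const, Finset.card_range, nsmul_eq_mul]
  linarith

/-- The increments are superharmonic. -/
theorem Bz.inc_block [NeZero b] (h : Bz b R Z) (hb : 0 < b) (k : ℤ) (n : ℕ) :
    av (fun w : ι → Fin (b ^ n) => inc b (dn b (zm (b ^ n) (dv w) Z) k)) ≤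
      inc b (dn b Z (k + n)) := by
  rw [h.block hb k n]
  exact inc_mixT hb (fun w => (h.zw hb w).dens hb _) _

/-- The loss of an increment. -/
noncomputable def gl (b n : ℕ) (Z : (ι → ℝ) → ι → ℝ) (i : ℕ) : ℝ :=
  inc b (dn b Z ((i:ℤ) + n)) - av (fun w : ι → Fin (b ^ n) => inc b (dn b (zm (b ^ n) (dv w) Z) i))

theorem Bz.gl_nonneg [NeZero b] (h : Bz b R Z) (hb : 0 < b) (n i : ℕ) : 0 ≤ gl b n Z i :=
  sub_nonneg.2 (h.inc_block hb i n)

theorem Bz.sum_gl [NeZero b] (h : Bz b R Z) (hb : 0 < b) (n L : ℕ) :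
    ∑ i ∈ Finset.range L, gl b n Z (i + 1) = En b Z (n + L) - En b Z n -
      av (fun w : ι → Fin (b ^ n) => En b (zm (b ^ n) (dv w) Z) L) +
      av (fun w : ι → Fin (b ^ n) => En b (zm (b ^ n) (dv w) Z) 0) := by
  unfold gl
  rw [Finset.sum_sub_distrib, ← av_sum, h.En_add hb n L]
  have h1 : ∀ w : ι → Fin (b ^ n),
      ∑ i ∈ Finset.range L, inc b (dn b (zm (b ^ n) (dv w) Z) ((i + 1 : ℕ) : ℤ)) =
      En b (zm (b ^ n) (dv w) Z) L - En b (zm (b ^ n) (dv w) Z) 0 := by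
    intro w
    have h2 := (h.zw hb w).En_add hb 0 L
    rw [zero_add] at h2
    rw [h2]
    simp only [zero_add]
    ring
  simp only [h1]
  rw [av_sub]
  have h3 : ∑ i ∈ Finset.range L, inc b (dn b Z (((i + 1 : ℕ) : ℤ) + n)) =
      ∑ i ∈ Finset.range L, inc b (dn b Z ((n + i + 1 : ℕ) : ℤ)) := by
    refine Finset.sum_congr rfl fun i _ => ?_
    congr 2
    push_cast
    ring
  rw [h3]
  ring

/-- Superadditivity. -/
theorem Bz.super [NeZero b] (h : Bz b R Z) (hb : 0 < b) (n L : ℕ) :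
    En b Z n + av (fun w : ι → Fin (b ^ n) => En b (zm (b ^ n) (dv w) Z) L) - C0 ι R ≤
      En b Z (n + L) := by
  have h1 := h.sum_gl hb n L
  have h2 : 0 ≤ ∑ i ∈ Finset.range L, gl b n Z (i + 1) :=
    Finset.sum_nonneg fun i _ => h.gl_nonneg hb n _
  have h3 : av (fun w : ι → Fin (b ^ n) => En b (zm (b ^ n) (dv w) Z) 0) ≤ C0 ι R := by
    refine (av_mono fun w => (h.zw hb w).En_zero hb).trans (le_of_eq ?_)
    exact av_const _
  linarith

theorem Bz.sum_gl_le [NeZero b] (h : Bz b R Z) (hb : 0 < b) (n L : ℕ) :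
    ∑ i ∈ Finset.range L, gl b n Z (i + 1) ≤ En b Z (n + L) - En b Z n -
      av (fun w : ι → Fin (b ^ n) => En b (zm (b ^ n) (dv w) Z) L) + C0 ι R := by
  have h1 := h.sum_gl hb n L
  have h3 : av (fun w : ι → Fin (b ^ n) => En b (zm (b ^ n) (dv w) Z) 0) ≤ C0 ι R := by
    refine (av_mono fun w => (h.zw hb w).En_zero hb).trans (le_of_eq ?_)
    exact av_const _
  linarith

end Pool.Agent.V7H68.UF
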