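import Pool.Agent.V7H68.MS.Tang
import Pool.Agent.V7H68.UF.Ent

/-!
The entropy of label paths.
-/

namespace Pool.Agent.V7H68.UF

open Finset Real MeasureTheory SS MS

set_option linter.unusedSectionVars false

section hf

variable {Ω Ω' κ κ' : Type*} [Fintype Ω] [Fintype Ω'] [DecidableEq κ] [DecidableEq κ']

theorem hf_congr {F : Ω → κ} {F' : Ω' → κ'} (e : Ω ≃ Ω')
    (h : ∀ v w, F v = F w ↔ F' (e v) = F' (e w)) : hf F = hf F' := by
  unfold hf
  rw [← e.sum_comp fun w => (Fintype.card Ω' : ℝ)⁻¹ * log (cls F' w).card,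
    Fintype.card_congr e]
  refine Finset.sum_congr rfl fun w _ => ?_
  congr 3
  refine Finset.card_equiv e fun v => ?_
  rw [mem_cls, mem_cls]
  exact h v w

/-- The chain rule. -/
theorem hf_prod_le [Nonempty Ω] [Nonempty Ω'] (F : Ω → κ) (G : Ω → Ω' → κ') :
    hf (fun w : Ω × Ω' => (F w.1, G w.1 w.2)) ≤ hf F + av fun a => hf (G a) := by
  classical
  set N : ℝ := (Fintype.card (Ω × Ω') : ℝ) with hN
  have hN0 : 0 < N := by rw [hN]; exact_mod_cast Fintype.card_pos
  set P : Ω × Ω' → κ × κ' := fun w => (F w.1, G w.1 w.2) with hP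
  set k : Ω × Ω' → ℝ := fun w => ((cls F w.1).card : ℝ) with hk
  set g : Ω × Ω' → ℝ := fun w => ((cls (G w.1) w.2).card : ℝ) with hg
  have hk0 : ∀ w, 0 < k w := fun w => cls_pos _ _
  have hg0 : ∀ w, 0 < g w := fun w => cls_pos _ _
  have h1 : ∀ w, log (cls P w).card ≤ log (k w) + log (g w) +
      ((cls P w).card / (k w * g w) - 1) := by
    intro w
    have h2 := Real.log_le_sub_one_of_pos
      (show 0 < ((cls P w).card : ℝ) / (k w * g w) from
        div_pos (cls_pos P w) (mul_pos (hk0 w) (hg0 w)))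
    rw [Real.log_div (cls_pos P w).ne' (mul_pos (hk0 w) (hg0 w)).ne',
      Real.log_mul (hk0 w).ne' (hg0 w).ne'] at h2
    linarith
  have h2 : ∑ w, ((cls P w).card : ℝ) / (k w * g w) ≤ N := by
    have h3 : ∀ w, ((cls P w).card : ℝ) / (k w * g w) =
        ∑ v, if P v = P w then (k w * g w)⁻¹ else 0 := by
      intro w
      rw [← Finset.sum_filter, Finset.sum_const, nsmul_eq_mul]
      rfl
    rw [Finset.sum_congr rfl fun w _ => h3 w, Finset.sum_comm]
    have h4 : ∀ v, ∑ w, (if P v = P w then (k w * g w)⁻¹ else 0) ≤ 1 := by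
      rintro ⟨a, c⟩
      rw [Fintype.sum_prod_type]
      have h5 : ∀ x : Ω, ∑ y : Ω', (if P (a, c) = P (x, y) then (k (x, y) * g (x, y))⁻¹ else 0) ≤
          if F x = F a then ((cls F a).card : ℝ)⁻¹ else 0 := by
        intro x
        by_cases hx : F x = F a
        · rw [if_pos hx]
          have h6 : ∀ y : Ω', (if P (a, c) = P (x, y) then (k (x, y) * g (x, y))⁻¹ else 0) =
              ((cls F a).card : ℝ)⁻¹ * (if G x y ∈ ({G a c} : Finset κ') then
                ((cls (G x) y).card : ℝ)⁻¹ else 0) := by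
            intro y
            have h7 : P (a, c) = P (x, y) ↔ G x y ∈ ({G a c} : Finset κ') := by
              rw [hP, Prod.mk.injEq, Finset.mem_singleton]
              constructor
              · rintro ⟨-, h⟩; exact h.symm
              · intro h; exact ⟨hx.symm, h.symm⟩
            by_cases h8 : G x y ∈ ({G a c} : Finset κ')
            · rw [if_pos (h7.2 h8), if_pos h8, mul_inv]
              simp only [hk, hg]
              rw [cls_congr hx]
            · rw [if_neg (fun h => h8 (h7.1 h)), if_neg h8, mul_zero]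
          rw [Finset.sum_congr rfl fun y _ => h6 y, ← Finset.mul_sum]
          have h9 := sum_inv_cls_le (G x) {G a c}
          rw [Finset.card_singleton, Nat.cast_one] at h9
          exact mul_le_of_le_one_right (by positivity) h9
        · rw [if_neg hx]
          refine le_of_eq (Finset.sum_eq_zero fun y _ => if_neg fun h => hx ?_)
          rw [hP, Prod.mk.injEq] at h
          exact h.1.symm
      refine (Finset.sum_le_sum fun x _ => h5 x).trans ?_
      rw [← Finset.sum_filter, Finset.sum_const, nsmul_eq_mul]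
      change ((cls F a).card : ℝ) * _ ≤ 1
      rw [mul_inv_cancel₀ (cls_pos F a).ne']
    refine (Finset.sum_le_sum fun v _ => h4 v).trans (le_of_eq ?_)
    rw [Finset.sum_const, nsmul_eq_mul, mul_one, Finset.card_univ]
  have h3 := Finset.sum_le_sum fun w (_ : w ∈ (Finset.univ : Finset (Ω × Ω'))) =>
    mul_le_mul_of_nonneg_left (h1 w) (show 0 ≤ N⁻¹ by positivity)
  have h4 : ∑ w, N⁻¹ * (log (k w) + log (g w) + ((cls P w).card / (k w * g w) - 1)) =
      av (fun w => log (k w)) + av (fun w => log (g w)) +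
        (N⁻¹ * ∑ w, ((cls P w).card : ℝ) / (k w * g w) - 1) := by
    have h5 : ∑ _w : Ω × Ω', N⁻¹ = 1 := by
      rw [Finset.sum_const, nsmul_eq_mul, Finset.card_univ, mul_inv_cancel₀ hN0.ne']
    have h6 : ∀ w, N⁻¹ * (log (k w) + log (g w) + ((cls P w).card / (k w * g w) - 1)) =
        N⁻¹ * log (k w) + N⁻¹ * log (g w) + (N⁻¹ * (((cls P w).card : ℝ) / (k w * g w)) - N⁻¹) :=
      fun w => by ring
    rw [Finset.sum_congr rfl fun w _ => h6 w, Finset.sum_add_distrib, Finset.sum_add_distrib,
      Finset.sum_sub_distrib, h5, ← Finset.mul_sum (f := fun w => ((cls P w).card : ℝ) / (k w * g w))]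
    rfl
  have h5 : N⁻¹ * ∑ w, ((cls P w).card : ℝ) / (k w * g w) ≤ 1 := by
    rw [inv_mul_le_iff₀ hN0, mul_one]
    exact h2
  have hNA : (Fintype.card Ω : ℝ) ≠ 0 := by exact_mod_cast Fintype.card_ne_zero
  have hNB : (Fintype.card Ω' : ℝ) ≠ 0 := by exact_mod_cast Fintype.card_ne_zero
  have hNN : N = Fintype.card Ω * Fintype.card Ω' := by
    rw [hN, Fintype.card_prod]; push_cast; rfl
  have h6 : av (fun w => log (k w)) = hf F := by
    unfold av hf
    rw [← hN, Fintype.sum_prod_type]
    refine Finset.sum_congr rfl fun x _ => ?_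
    simp only [hk, Finset.sum_const, nsmul_eq_mul, Finset.card_univ]
    rw [hNN]
    field_simp
  have h7 : av (fun w => log (g w)) = av fun a => hf (G a) := by
    unfold av hf
    rw [← hN, Fintype.sum_prod_type]
    refine Finset.sum_congr rfl fun x _ => ?_
    rw [Finset.mul_sum]
    refine Finset.sum_congr rfl fun y _ => ?_
    simp only [hg]
    rw [hNN, mul_inv]
    ring
  change ∑ w, N⁻¹ * log (cls P w).card ≤ _
  linarith

/-- Large sets have large images. -/
theorem card_image_ge [Nonempty Ω] (F : Ω → κ) (S : Finset Ω) {lam : ℝ} (hlam : 0 < lam)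
    (hS : lam * Fintype.card Ω ≤ S.card) :
    lam * Fintype.card Ω * exp (- (hf F / lam)) ≤ (S.image F).card := by
  have hN : (0:ℝ) < Fintype.card Ω := by exact_mod_cast Fintype.card_pos
  set a : ℝ := hf F / lam with ha
  have hlog : ∀ w, 0 ≤ log ((cls F w).card : ℝ) := fun w => Real.log_nonneg (by
    exact_mod_cast Finset.card_pos.2 (cls_ne F w))
  have hsum : ∑ w ∈ S, log ((cls F w).card : ℝ) ≤ S.card * a := by
    have h1 : ∑ w ∈ S, log ((cls F w).card : ℝ) ≤ ∑ w, log ((cls F w).card : ℝ) :=
      Finset.sum_le_sum_of_subset_of_nonneg (Finset.subset_univ S) fun w _ _ => hlog w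
    have h2 : ∑ w, log ((cls F w).card : ℝ) = Fintype.card Ω * hf F := by
      unfold hf
      rw [Finset.mul_sum]
      refine Finset.sum_congr rfl fun w _ => ?_
      field_simp
    have h3 : 0 ≤ hf F := Finset.sum_nonneg fun w _ => mul_nonneg (by positivity) (hlog w)
    have h4 : (Fintype.card Ω : ℝ) * hf F ≤ S.card * a := by
      rw [ha, ← mul_div_assoc, le_div_iff₀ hlam]
      nlinarith
    linarith
  have h1 : ∑ w ∈ S, ((cls F w).card : ℝ)⁻¹ ≤ (S.image F).card := by
    have h2 := sum_inv_cls_le F (S.image F)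
    refine le_trans ?_ h2
    rw [← Finset.sum_filter]
    refine Finset.sum_le_sum_of_subset_of_nonneg ?_ fun w _ _ => by positivity
    intro w hw
    rw [Finset.mem_filter]
    exact ⟨Finset.mem_univ w, Finset.mem_image_of_mem F hw⟩
  refine le_trans ?_ h1
  have h2 : ∀ w ∈ S, exp (-a) * (1 - log ((cls F w).card : ℝ) + a) ≤
      ((cls F w).card : ℝ)⁻¹ := by
    intro w _
    have h3 : ((cls F w).card : ℝ)⁻¹ = exp (-a) * exp (a - log ((cls F w).card : ℝ)) := by
      rw [← Real.exp_add]
      have : -a + (a - log ((cls F w).card : ℝ)) = - log ((cls F w).card : ℝ) := by ring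
      rw [this, Real.exp_neg, Real.exp_log (cls_pos F w)]
    rw [h3]
    refine mul_le_mul_of_nonneg_left ?_ (Real.exp_pos _).le
    have := Real.add_one_le_exp (a - log ((cls F w).card : ℝ))
    linarith
  refine le_trans ?_ (Finset.sum_le_sum h2)
  rw [← Finset.mul_sum, Finset.sum_add_distrib, Finset.sum_sub_distrib, Finset.sum_const,
    Finset.sum_const, nsmul_eq_mul, nsmul_eq_mul, mul_one, mul_comm]
  refine mul_le_mul_of_nonneg_left ?_ (Real.exp_pos _).le
  linarith

end hf

section path

variable {W : Type} [Fintype W] [Nonempty W] {X : Type} {Λ : Type} [DecidableEq Λ]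

/-- The mean sum of the entropies of the labels on the way. -/
noncomputable def EH (T : X → W → X) (lab : X → W → Λ) : ℕ → X → ℝ
  | 0, _ => 0
  | n + 1, x => HH lab x + av fun d => EH T lab n (T x d)

/-- The mean number of bad states on the way. -/
noncomputable def DD (T : X → W → X) (dd : X → ℝ) : ℕ → X → ℝ
  | 0, _ => 0
  | n + 1, x => dd x + av fun d => DD T dd n (T x d)

variable (T : X → W → X) (lab : X → W → Λ)

theorem hf_pth_le (n : ℕ) (x : X) :
    hf (pth T lab (n + 1) x) ≤ hf (lab x) + av fun d => hf (pth T lab n (T x d)) := by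
  have h1 := hf_prod_le (lab x) fun d (w : Fin n → W) => pth T lab n (T x d) w
  refine le_trans (le_of_eq ?_) h1
  refine (hf_congr (Fin.consEquiv fun _ : Fin (n+1) => W) fun v w => ?_).symm
  obtain ⟨d, v⟩ := v
  obtain ⟨d', w⟩ := w
  have h4 : ∀ (d : W) (w : Fin n → W), (Fin.consEquiv fun _ : Fin (n+1) => W) (d, w) =
    Fin.cons d w := fun _ _ => rfl
  rw [h4, h4]
  simp only [pth, Fin.cons_zero, Fin.cons_succ, Prod.mk.injEq]
  constructor
  · rintro ⟨h5, h6⟩
    funext j
    refine Fin.cases ?_ (fun j => ?_) j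
    · rw [Fin.cons_zero, Fin.cons_zero]; exact h5
    · rw [Fin.cons_succ, Fin.cons_succ]; exact congrFun h6 j
  · intro h
    refine ⟨?_, ?_⟩
    · have := congrFun h 0
      rwa [Fin.cons_zero, Fin.cons_zero] at this
    · funext j
      have := congrFun h j.succ
      rwa [Fin.cons_succ, Fin.cons_succ] at this

theorem hf_pth_EH (n : ℕ) : ∀ x : X,
    hf (pth T lab n x) ≤ n * log (Fintype.card W) - EH T lab n x := by
  induction n with
  | zero =>
    intro x
    have : hf (pth T lab 0 x) = 0 := by
      unfold hf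
      refine Finset.sum_eq_zero fun w _ => ?_
      have : (cls (pth T lab 0 x) w).card = 1 := by
        rw [Finset.card_eq_one]
        exact ⟨w, Finset.eq_singleton_iff_unique_mem.2 ⟨mem_cls.2 rfl, fun v _ =>
          Subsingleton.elim _ _⟩⟩
      rw [this]
      simp
    rw [this]
    simp [EH]
  | succ n ih =>
    intro x
    refine (hf_pth_le T lab n x).trans ?_
    have h1 := av_mono fun d => ih (T x d)
    rw [av_sub, av_const] at h1
    have h2 := HH_eq lab x
    simp only [EH]
    push_cast
    linarith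

theorem EH_ge {h0 : ℝ} {dd : X → ℝ} (h : ∀ x, h0 * (1 - dd x) ≤ HH lab x) (n : ℕ) :
    ∀ x : X, h0 * (n - DD T dd n x) ≤ EH T lab n x := by
  induction n with
  | zero => intro x; simp [EH, DD]
  | succ n ih =>
    intro x
    have h1 := av_mono fun d => ih (T x d)
    rw [av_mul, av_sub, av_const] at h1
    simp only [EH, DD]
    have h2 := h x
    push_cast
    linarith

theorem HH_nonneg (x : X) : 0 ≤ HH lab x := by
  unfold HH
  refine Finset.sum_nonneg fun d _ => mul_nonneg (by positivity) ?_
  rw [neg_nonneg]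
  refine Real.log_nonpos (cc_pos lab x d).le ?_
  unfold cc
  rw [div_le_one (by exact_mod_cast Fintype.card_pos)]
  exact_mod_cast Finset.card_le_univ _

end path

end Pool.Agent.V7H68.UF
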