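import Pool.Agent.V7H68.UF.Cells
import Pool.Agent.V7H68.UF.Path

/-!
The mean number of bad cells on the way.
-/

namespace Pool.Agent.V7H68.UF

open Finset Real MeasureTheory SS MS Filter
open scoped ENNReal

set_option linter.unusedSectionVars false

section gen

variable {W : Type} [Fintype W] [Nonempty W] {X : Type} (T : X → W → X)

theorem DD_nonneg {dd : X → ℝ} (h : ∀ x, 0 ≤ dd x) (n : ℕ) : ∀ x, 0 ≤ DD T dd n x := by
  induction n with
  | zero => intro x; simp [DD]
  | succ n ih => intro x; exact add_nonneg (h x) (av_nonneg fun d => ih _)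

theorem DD_le {dd : X → ℝ} (h : ∀ x, dd x ≤ 1) (n : ℕ) : ∀ x, DD T dd n x ≤ n := by
  induction n with
  | zero => intro x; simp [DD]
  | succ n ih =>
    intro x
    have h1 := av_mono fun d => ih (T x d)
    rw [av_const] at h1
    simp only [DD]
    push_cast
    linarith [h x]

variable (Dd : X → Set ℝ)

theorem ind_nonneg (x : X) (t : ℝ) : (0:ℝ) ≤ (Dd x).indicator 1 t :=
  Set.indicator_nonneg (fun _ _ => zero_le_one) _

theorem ind_le_one (x : X) (t : ℝ) : (Dd x).indicator 1 t ≤ (1:ℝ) :=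
  Set.indicator_le_self' (fun _ _ => zero_le_one) _

theorem DD_meas (hm : ∀ x, MeasurableSet (Dd x)) (n : ℕ) : ∀ x : X,
    Measurable fun t : ℝ => DD T (fun x => (Dd x).indicator 1 t) n x := by
  induction n with
  | zero => intro x; simp only [DD]; exact measurable_const
  | succ n ih =>
    intro x
    simp only [DD, av]
    refine ((measurable_one.indicator (hm x)) : Measurable _).add ?_
    exact Finset.measurable_sum _ fun d _ => (ih (T x d)).const_mul _

theorem DD_integrable (hm : ∀ x, MeasurableSet (Dd x)) (n : ℕ) (x : X) :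
    Integrable (fun t : ℝ => DD T (fun x => (Dd x).indicator 1 t) n x)
      (volume.restrict (Set.Icc (0:ℝ) 1)) := by
  have : IsFiniteMeasure (volume.restrict (Set.Icc (0:ℝ) 1)) := ⟨by
    rw [Measure.restrict_apply_univ, Real.volume_Icc]
    exact ENNReal.ofReal_lt_top⟩
  refine integrable_of_bdd (M := n) (DD_meas T Dd hm n x) fun t => ?_
  rw [abs_of_nonneg (DD_nonneg T (fun x => ind_nonneg Dd x t) n x)]
  exact DD_le T (fun x => ind_le_one Dd x t) n x

theorem int_DD_succ (hm : ∀ x, MeasurableSet (Dd x)) (n : ℕ) (x : X) :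
    ∫ t in Set.Icc (0:ℝ) 1, DD T (fun x => (Dd x).indicator 1 t) (n + 1) x =
      volume.real (Dd x ∩ Set.Icc 0 1) +
        av fun d => ∫ t in Set.Icc (0:ℝ) 1, DD T (fun x => (Dd x).indicator 1 t) n (T x d) := by
  have : IsFiniteMeasure (volume.restrict (Set.Icc (0:ℝ) 1)) := ⟨by
    rw [Measure.restrict_apply_univ, Real.volume_Icc]
    exact ENNReal.ofReal_lt_top⟩
  simp only [DD]
  rw [integral_add]
  · congr 1
    · rw [integral_indicator_one (hm x), measureReal_restrict_apply (hm x)]
    · unfold av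
      rw [integral_finsetSum _ fun d _ => (DD_integrable T Dd hm n (T x d)).const_mul _]
      exact Finset.sum_congr rfl fun d _ => integral_const_mul _ _
  · exact (integrable_const 1).indicator (hm x)
  · unfold av
    exact integrable_finsetSum _ fun d _ => (DD_integrable T Dd hm n (T x d)).const_mul _

theorem int_DD_le (hm : ∀ x, MeasurableSet (Dd x)) {P : X → Prop} (hP : ∀ x d, P x → P (T x d))
    {κ : ℝ} {vv : X → ℝ} (h1 : ∀ x, P x → volume.real (Dd x ∩ Set.Icc 0 1) ≤ κ + vv x)
    (h2 : ∀ x, P x → av (fun d => vv (T x d)) ≤ vv x) (n : ℕ) : ∀ x, P x →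
    ∫ t in Set.Icc (0:ℝ) 1, DD T (fun x => (Dd x).indicator 1 t) n x ≤ n * (κ + vv x) := by
  induction n with
  | zero => intro x _; simp [DD]
  | succ n ih =>
    intro x hx
    rw [int_DD_succ T Dd hm]
    have h3 := av_mono fun d => ih (T x d) (hP x d hx)
    rw [av_mul, av_add, av_const] at h3
    have h4 := h1 x hx
    have h5 := mul_le_mul_of_nonneg_left (h2 x hx) (Nat.cast_nonneg (α := ℝ) n)
    push_cast
    nlinarith

end gen

/-! ### Cells -/

variable {ι : Type} [Fintype ι] [DecidableEq ι] {b β : ℕ}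

/-- Cells in the unit cube. -/
def Ins (β : ℕ) (x : St ι) : Prop := ∀ i, x.2 i < β ^ x.1

theorem Ins.chd {x : St ι} (h : Ins β x) (w : ι → Fin β) : Ins β (chd β x w) := by
  intro i
  have h1 := h i
  have h2 := (w i).2
  simp only [MS.chd]
  have h3 : β * (x.2 i + 1) ≤ β * β ^ x.1 := Nat.mul_le_mul_left _ h1
  rw [pow_succ]
  nlinarith

theorem chd_disj (hβ : 0 < β) (x : St ι) {w w' : ι → Fin β} (h : w ≠ w') :
    Disjoint (cell β (chd β x w)) (cell β (chd β x w')) := by
  rw [Set.disjoint_left]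
  intro u hu hu'
  apply h
  funext i
  have h1 := hu i
  have h2 := hu' i
  simp only [chd] at h1 h2
  push_cast at h1 h2
  apply Fin.ext
  have h3 : ((w i : ℕ) : ℝ) < (w' i : ℕ) + 1 := by linarith [h1.1, h2.2]
  have h4 : ((w' i : ℕ) : ℝ) < (w i : ℕ) + 1 := by linarith [h2.1, h1.2]
  have h5 : (w i : ℕ) < (w' i : ℕ) + 1 := by exact_mod_cast h3
  have h6 : (w' i : ℕ) < (w i : ℕ) + 1 := by exact_mod_cast h4
  omega

/-- The proportion of a cell outside a set. -/
noncomputable def vv (β : ℕ) (G : Set (ι → ℝ)) (x : St ι) : ℝ :=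
  ((β:ℝ) ^ Fintype.card ι) ^ x.1 * volume.real (cell β x \ G)

theorem cell_fin (hβ : 0 < β) (x : St ι) : volume (cell β x) ≠ ⊤ := by
  rw [vol_cell hβ]
  exact ENNReal.ofReal_ne_top

theorem vv_av [NeZero β] {G : Set (ι → ℝ)} (hG : MeasurableSet G) (x : St ι) :
    av (fun w => vv β G (chd β x w)) ≤ vv β G x := by
  have hβ : 0 < β := Nat.pos_of_ne_zero (NeZero.ne β)
  have hβ0 : (0:ℝ) < β := by exact_mod_cast hβ
  have hcard : (Fintype.card (ι → Fin β) : ℝ) = (β:ℝ) ^ Fintype.card ι := by
    rw [Fintype.card_pi]; simp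
  have h1 : ∑ w : ι → Fin β, volume.real (cell β (chd β x w) \ G) ≤
      volume.real (cell β x \ G) := by
    rw [← measureReal_biUnion_finset (s := (Finset.univ : Finset (ι → Fin β)))
      (f := fun w => cell β (chd β x w) \ G) (fun w _ w' _ h =>
        (chd_disj hβ x h).mono Set.sdiff_subset Set.sdiff_subset)
      (fun w _ => (cell_meas hβ _).diff hG)
      (fun w _ => ne_top_of_le_ne_top (cell_fin hβ (chd β x w)) (measure_mono Set.sdiff_subset))]
    refine measureReal_mono ?_ (ne_top_of_le_ne_top (cell_fin hβ x)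
      (measure_mono Set.sdiff_subset))
    intro u hu
    simp only [Set.mem_iUnion] at hu
    obtain ⟨w, -, hw⟩ := hu
    exact ⟨cell_chd_sub hβ x w hw.1, hw.2⟩
  unfold av vv
  rw [hcard]
  have h2 : ∀ w : ι → Fin β, ((β:ℝ) ^ Fintype.card ι)⁻¹ *
      (((β:ℝ) ^ Fintype.card ι) ^ (chd β x w).1 * volume.real (cell β (chd β x w) \ G)) =
      ((β:ℝ) ^ Fintype.card ι) ^ x.1 * volume.real (cell β (chd β x w) \ G) := by
    intro w
    have : (chd β x w).1 = x.1 + 1 := rfl
    rw [this, pow_succ]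
    field_simp
  rw [Finset.sum_congr rfl fun w _ => h2 w, ← Finset.mul_sum]
  exact mul_le_mul_of_nonneg_left h1 (by positivity)

theorem vv_one (hβ : 0 < β) {G : Set (ι → ℝ)} {x : St ι} (h : ∀ u ∈ G, u ∉ cell β x) :
    vv β G x = 1 := by
  have hβ0 : (0:ℝ) < β := by exact_mod_cast hβ
  unfold vv
  have : cell β x \ G = cell β x := by
    rw [sdiff_eq_left]
    rw [Set.disjoint_left]
    intro u hu hG
    exact h u hG hu
  rw [this, Measure.real, vol_cell hβ, ENNReal.toReal_ofReal (by positivity),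
    mul_inv_cancel₀ (by positivity)]

theorem vv_nonneg {G : Set (ι → ℝ)} (x : St ι) : 0 ≤ vv β G x :=
  mul_nonneg (by positivity) measureReal_nonneg

theorem cell_root (β : ℕ) : cell β ((0, 0) : St ι) = cube ι := by
  ext u
  simp [MS.cell]

end Pool.Agent.V7H68.UF
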