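import Pool.Agent.V7H68.MS.Fam

/-!
Densities of functions on the unit cube whose zooms are bounded.
-/

namespace Pool.Agent.V7H68.UF

open Finset Real MeasureTheory SS MS

set_option linter.unusedSectionVars false

variable {ι : Type} [Fintype ι] [DecidableEq ι] {b : ℕ}

/-- The density of the point `Z` at scale `b^(-k)`. -/
noncomputable def dn (b : ℕ) (Z : (ι → ℝ) → ι → ℝ) (k : ℤ) (u : ι → ℝ) : ℝ :=
  ∫ θ in cube ι, q0 (u - (b:ℝ) ^ k • Z θ)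

/-- Functions on the unit cube all of whose zooms are bounded by `R`. -/
structure Bz (b : ℕ) (R : ℝ) (Z : (ι → ℝ) → ι → ℝ) : Prop where
  meas : Measurable Z
  off : ∀ u ∉ cube ι, Z u = 0
  zero : Z 0 = 0
  bdd : ∀ (q : ℕ) (z : ι → ℕ), (∀ i, z i < b ^ q) → ∀ u, ‖zm (b ^ q) z Z u‖ ≤ R

theorem Bz.le {R : ℝ} {Z : (ι → ℝ) → ι → ℝ} (h : Bz b R Z) (u : ι → ℝ) : ‖Z u‖ ≤ R := by
  have h1 := h.bdd 0 (fun _ => 0) (fun _ => by simp) u
  rwa [pow_zero, zm_one h.zero h.off (fun _ => by simp)] at h1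

theorem Bz.R0 {R : ℝ} {Z : (ι → ℝ) → ι → ℝ} (h : Bz b R Z) : 0 ≤ R :=
  (norm_nonneg _).trans (h.le 0)

theorem zm_meas {N : ℕ} (z : ι → ℕ) {Z : (ι → ℝ) → ι → ℝ} (h : Measurable Z) :
    Measurable (zm N z Z) := by
  unfold zm
  refine Measurable.indicator ?_ cube_meas
  have h1 : Measurable fun v : ι → ℝ => Z ((N:ℝ)⁻¹ • (nv z + v)) := h.comp (by fun_prop)
  exact (h1.sub measurable_const).const_smul (N:ℝ)

theorem Bz.zoom (hb : 0 < b) {R : ℝ} {Z : (ι → ℝ) → ι → ℝ} (h : Bz b R Z) {q : ℕ} {z : ι → ℕ}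
    (hz : ∀ i, z i < b ^ q) : Bz b R (zm (b ^ q) z Z) where
  meas := zm_meas z h.meas
  off u hu := zm_of_not_mem hu
  zero := zm_zero _ _ _
  bdd p z2 hz2 u := by
    rw [zm_zm (by positivity) (by positivity) z z2 hz2, ← pow_add]
    refine h.bdd (q + p) _ (fun i => ?_) u
    have h1 := hz i
    have h2 := hz2 i
    have h3 : b ^ p * (z i + 1) ≤ b ^ p * b ^ q := Nat.mul_le_mul_left _ h1
    rw [pow_add, mul_comm (b ^ q)]
    nlinarith

theorem zm_lin {N : ℕ} (z : ι → ℕ) (Z : (ι → ℝ) → ι → ℝ) (P : (ι → ℝ) →ₗ[ℝ] (ι → ℝ)) :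
    zm N z (fun u => P (Z u)) = fun u => P (zm N z Z u) := by
  funext v
  by_cases hv : v ∈ cube ι
  · rw [zm_of_mem hv, zm_of_mem hv, map_smul, map_sub]
  · rw [zm_of_not_mem hv, zm_of_not_mem hv, map_zero]

theorem Bz.lin {R C : ℝ} {Z : (ι → ℝ) → ι → ℝ} (h : Bz b R Z) (P : (ι → ℝ) →ₗ[ℝ] (ι → ℝ))
    (hP : ∀ x, ‖P x‖ ≤ C * ‖x‖) (hC : 0 ≤ C) : Bz b (C * R) (fun u => P (Z u)) where
  meas := P.continuous_of_finiteDimensional.measurable.comp h.meas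
  off u hu := by rw [h.off u hu, map_zero]
  zero := by rw [h.zero, map_zero]
  bdd q z hz u := by
    rw [zm_lin]
    exact (hP _).trans (mul_le_mul_of_nonneg_left (h.bdd q z hz u) hC)

theorem Bz.mono {R R' : ℝ} {Z : (ι → ℝ) → ι → ℝ} (h : Bz b R Z) (hR : R ≤ R') : Bz b R' Z where
  meas := h.meas
  off := h.off
  zero := h.zero
  bdd q z hz u := (h.bdd q z hz u).trans hR

theorem zm_eqn {N : ℕ} (hN : 0 < N) {Z : (ι → ℝ) → ι → ℝ} {z : ι → ℕ} {θ : ι → ℝ}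
    (hθ : θ ∈ cube ι) :
    Z ((N:ℝ)⁻¹ • (nv z + θ)) = (N:ℝ)⁻¹ • ((N:ℝ) • Z ((N:ℝ)⁻¹ • nv z) + zm N z Z θ) := by
  have hN0 : (N:ℝ) ≠ 0 := by exact_mod_cast hN.ne'
  rw [zm_of_mem hθ, ← smul_add, add_sub_cancel, smul_smul, inv_mul_cancel₀ hN0, one_smul]

/-! ### The density -/

variable {R : ℝ} {Z : (ι → ℝ) → ι → ℝ}

theorem Bz.meas_int (h : Bz b R Z) (k : ℤ) (u : ι → ℝ) :
    Measurable (fun θ => q0 (u - (b:ℝ) ^ k • Z θ)) := by
  have h : Measurable (fun θ => (b:ℝ) ^ k • Z θ) := h.meas.const_smul ((b:ℝ) ^ k)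
  exact q0_meas.comp (measurable_const.sub h)

theorem Bz.integrable_int (h : Bz b R Z) (k : ℤ) (u : ι → ℝ) :
    Integrable (fun θ => q0 (u - (b:ℝ) ^ k • Z θ)) (volume.restrict (cube ι)) := by
  have := cube_prob (ι := ι)
  exact integrable_of_bdd (h.meas_int k u) (fun _ => q0_abs_le _)

theorem dn_nonneg (Z : (ι → ℝ) → ι → ℝ) (k : ℤ) (u : ι → ℝ) : 0 ≤ dn b Z k u :=
  integral_nonneg fun _ => q0_dens.nonneg _

theorem Bz.dn_le_one (h : Bz b R Z) (k : ℤ) (u : ι → ℝ) : dn b Z k u ≤ 1 := by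
  have := cube_prob (ι := ι)
  unfold dn
  calc ∫ θ in cube ι, q0 (u - (b:ℝ) ^ k • Z θ) ≤ ∫ _ in cube ι, (1:ℝ) :=
        integral_mono (h.integrable_int k u) (integrable_const 1) fun _ => q0_dens.le_one _
    _ = 1 := by rw [integral_const]; simp

theorem Bz.supp (h : Bz b R Z) (k : ℤ) (hb : 0 < b) {u : ι → ℝ} (hu : 1 + (b:ℝ) ^ k * R < ‖u‖) :
    dn b Z k u = 0 := by
  have hb0 : (0:ℝ) < b := by exact_mod_cast hb
  unfold dn
  have : ∀ θ, q0 (u - (b:ℝ) ^ k • Z θ) = 0 := by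
    intro θ
    apply q0_supp
    have h1 := norm_sub_norm_le u ((b:ℝ) ^ k • Z θ)
    rw [norm_smul, Real.norm_of_nonneg (by positivity)] at h1
    have h2 : (b:ℝ) ^ k * ‖Z θ‖ ≤ (b:ℝ) ^ k * R :=
      mul_le_mul_of_nonneg_left (h.le θ) (by positivity)
    linarith
  simp [this]

theorem Bz.dens (h : Bz b R Z) (hb : 0 < b) (k : ℤ) : Dens (dn b Z k) := by
  have := cube_prob (ι := ι)
  have hjm : Measurable (fun z : (ι → ℝ) × (ι → ℝ) => q0 (z.1 - (b:ℝ) ^ k • Z z.2)) := by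
    have h : Measurable (fun z : (ι → ℝ) × (ι → ℝ) => (b:ℝ) ^ k • Z z.2) :=
      (h.meas.comp measurable_snd).const_smul ((b:ℝ) ^ k)
    exact q0_meas.comp (measurable_fst.sub h)
  refine ⟨⟨?_, ⟨1, fun u => ?_⟩, ⟨1 + (b:ℝ) ^ k * R, fun u hu => h.supp k hb hu⟩⟩,
    dn_nonneg Z k, h.dn_le_one k, ?_⟩
  · exact (hjm.stronglyMeasurable.integral_prod_right (f := fun (u : ι → ℝ) (θ : ι → ℝ) =>
      q0 (u - (b:ℝ) ^ k • Z θ))).measurable
  · rw [abs_of_nonneg (dn_nonneg Z k u)]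
    exact h.dn_le_one k u
  · unfold dn
    have hint : Integrable (Function.uncurry fun (u : ι → ℝ) (θ : ι → ℝ) =>
        q0 (u - (b:ℝ) ^ k • Z θ)) (volume.prod (volume.restrict (cube ι))) := by
      have hasm : AEStronglyMeasurable (Function.uncurry fun (u : ι → ℝ) (θ : ι → ℝ) =>
        q0 (u - (b:ℝ) ^ k • Z θ)) (volume.prod (volume.restrict (cube ι))) :=
        hjm.aestronglyMeasurable
      rw [integrable_prod_iff' hasm]
      refine ⟨Filter.Eventually.of_forall fun θ => ?_, ?_⟩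
      · exact (q0_dens.cs.comp_sub ((b:ℝ) ^ k • Z θ)).integrable
      have : ∀ θ, ∫ u : ι → ℝ, ‖Function.uncurry (fun (u : ι → ℝ) (θ : ι → ℝ) =>
        q0 (u - (b:ℝ) ^ k • Z θ)) (u, θ)‖ = 1 := by
        intro θ
        simp only [Function.uncurry]
        have h1 : ∀ u : ι → ℝ, ‖q0 (u - (b:ℝ) ^ k • Z θ)‖ = q0 (u - (b:ℝ) ^ k • Z θ) :=
          fun u => Real.norm_of_nonneg (q0_dens.nonneg _)
        simp only [h1]
        rw [integral_comp_sub, q0_dens.mass]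
      simp only [this]
      exact integrable_const 1
    rw [integral_integral_swap hint]
    have : ∀ θ, ∫ u : ι → ℝ, q0 (u - (b:ℝ) ^ k • Z θ) = 1 := fun θ => by
      rw [integral_comp_sub, q0_dens.mass]
    simp [this]

/-- Coarse-graining shifts the scale. -/
theorem Bz.coarse (h : Bz b R Z) (hb : 0 < b) (k : ℤ) :
    coarse b (dn b Z k) = dn b Z (k - 1) := by
  classical
  have hb0 : (b:ℝ) ≠ 0 := by exact_mod_cast hb.ne'
  funext u
  rw [coarse_apply]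
  unfold dn
  rw [← integral_finsetSum _ fun e _ => h.integrable_int k _]
  congr 1
  funext θ
  have h1 : q0 (u - (b:ℝ) ^ (k - 1) • Z θ) =
      SS.coarse b q0 (u - (b:ℝ) ^ (k - 1) • Z θ) := by rw [coarse_q0 hb]
  rw [h1, coarse_apply]
  refine Finset.sum_congr rfl fun e _ => ?_
  congr 1
  rw [smul_sub, smul_smul, zpow_sub_one₀ hb0]
  have : (b:ℝ) * ((b:ℝ) ^ k * (b:ℝ)⁻¹) = (b:ℝ) ^ k := by field_simp
  rw [this]
  abel

/-- The value of `Z` at the corner of a cell, scaled. -/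
noncomputable def X (b n : ℕ) (Z : (ι → ℝ) → ι → ℝ) (w : ι → Fin (b ^ n)) : ι → ℝ :=
  (b:ℝ) ^ n • Z (((b ^ n : ℕ) : ℝ)⁻¹ • nv (dv w))

/-- Decomposition into cells. -/
theorem Bz.block (h : Bz b R Z) (hb : 0 < b) (k : ℤ) (n : ℕ) :
    dn b Z (k + n) = mixT (fun w : ι → Fin (b ^ n) => dn b (zm (b ^ n) (dv w) Z) k)
      (fun w => (b:ℝ) ^ k • X b n Z w) := by
  have hb0 : (0:ℝ) < b := by exact_mod_cast hb
  have hbn : 0 < b ^ n := pow_pos hb n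
  funext u
  have h1 := cube_inv hbn (h.meas_int (k + n) u) ⟨1, fun θ => q0_abs_le _⟩
  change ∫ θ in cube ι, q0 (u - (b:ℝ) ^ (k + (n:ℤ)) • Z θ) = _
  rw [h1]
  unfold mixT
  refine Finset.sum_congr rfl fun w _ => ?_
  congr 1
  change _ = ∫ θ in cube ι, q0 (u - (b:ℝ) ^ k • X b n Z w - (b:ℝ) ^ k • zm (b ^ n) (dv w) Z θ)
  refine setIntegral_congr_fun cube_meas fun θ hθ => ?_
  rw [zm_eqn (Z := Z) (z := dv w) hbn hθ, smul_smul]
  have h2 : (b:ℝ) ^ (k + (n:ℤ)) * (((b ^ n : ℕ) : ℝ))⁻¹ = (b:ℝ) ^ k := by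
    rw [zpow_add₀ hb0.ne', zpow_natCast]
    push_cast
    field_simp
  rw [h2, smul_add, sub_sub]
  unfold X
  push_cast
  rfl

theorem Bz.zw (hb : 0 < b) (h : Bz b R Z) {n : ℕ} (w : ι → Fin (b ^ n)) :
    Bz b R (zm (b ^ n) (dv w) Z) := h.zoom hb (dv_lt w)

instance nonempty_words [NeZero b] (n : ℕ) : Nonempty (ι → Fin (b ^ n)) := by
  have : 0 < b ^ n := pow_pos (Nat.pos_of_ne_zero (NeZero.ne b)) n
  exact ⟨fun _ => ⟨0, this⟩⟩

/-- Fine scales: the density agrees with the indicator of the cube off the boundary. -/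
theorem Bz.eq_q0 (h : Bz b R Z) (hb : 0 < b) {k : ℤ} {u y : ι → ℝ} {ρ : ℝ} (hρ : ρ ≤ 1)
    (hy : ‖y‖ + (b:ℝ) ^ k * R ≤ ρ) (hu : bump ρ u < 1) : dn b Z k (u - y) = q0 u := by
  have := cube_prob (ι := ι)
  have hb0 : (0:ℝ) < b := by exact_mod_cast hb
  unfold dn
  have h1 : ∀ θ, q0 (u - y - (b:ℝ) ^ k • Z θ) = q0 u := by
    intro θ
    rw [sub_sub]
    refine q0_eq_of_bump hρ ?_ hu
    refine (norm_add_le _ _).trans (le_trans ?_ hy)
    rw [norm_smul, Real.norm_of_nonneg (by positivity)]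
    have h2 : (b:ℝ) ^ k * ‖Z θ‖ ≤ (b:ℝ) ^ k * R :=
      mul_le_mul_of_nonneg_left (h.le θ) (by positivity)
    linarith
  simp [h1]

theorem Bz.gap_fine (h : Bz b R Z) (hb : 0 < b) {k : ℤ} {Ξ : Type*} {t : Finset Ξ}
    (ht : t.Nonempty) (Y : Ξ → ι → ℝ) {ρ : ℝ} (hρ : ρ ≤ 1)
    (hY : ∀ w ∈ t, ∀ w' ∈ t, ‖Y w - Y w'‖ + (b:ℝ) ^ k * R ≤ ρ) :
    gap t Y (dn b Z k) ≤ KK ι * ρ := by
  obtain ⟨w0, hw0⟩ := ht
  have hc : (0:ℝ) < t.card := by exact_mod_cast Finset.card_pos.2 ⟨w0, hw0⟩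
  have hd := (h.dens hb k).avg ⟨w0, hw0⟩ Y
  have hb0 : (0:ℝ) < b := by exact_mod_cast hb
  have hR : 0 ≤ (b:ℝ) ^ k * R := mul_nonneg (by positivity) h.R0
  have hρ0 : 0 ≤ ρ := by
    have h1 := hY w0 hw0 w0 hw0
    have h2 := norm_nonneg (Y w0 - Y w0)
    linarith
  have h0 := (h.dens hb k).ent_nonneg
  unfold gap
  refine le_trans (show _ ≤ ent (avg t Y (dn b Z k)) by linarith) ?_
  refine le_trans ?_ (bump_integral hρ0)
  rw [← integral_comp_sub (f := bump ρ) (Y w0)]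
  unfold ent
  refine integral_mono hd.cs.negMulLog.integrable ((bump_cs ρ).comp_sub _).integrable ?_
  intro u
  simp only
  rcases lt_or_ge (bump ρ (u - Y w0)) 1 with hlt | hge
  · have h1 : avg t Y (dn b Z k) u = q0 (u - Y w0) := by
      unfold avg
      have : ∀ w ∈ t, (t.card : ℝ)⁻¹ * dn b Z k (u - Y w) = (t.card : ℝ)⁻¹ * q0 (u - Y w0) := by
        intro w hw
        congr 1
        rw [← h.eq_q0 hb hρ (hY w hw w0 hw0) hlt]
        congr 1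
        abel
      rw [Finset.sum_congr rfl this]
      simp only [Finset.sum_const, nsmul_eq_mul]
      field_simp
    rw [h1]
    refine le_trans (le_of_eq ?_) (bump_nonneg ρ _)
    rcases q0_zero_or_one (u - Y w0) with h2 | h2 <;> simp [h2]
  · exact (negMulLog_le_one (hd.nonneg u)).trans hge

/-- The gap at any scale is controlled by the diameter. -/
theorem Bz.gap_small [NeZero b] (h : Bz b R Z) (hb : 2 ≤ b) (k : ℤ) {Ξ : Type*} {t : Finset Ξ}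
    (ht : t.Nonempty) (Y : Ξ → ι → ℝ) {ρ : ℝ} (hρ : ρ ≤ 1) (hρ0 : 0 < ρ)
    (hY : ∀ w ∈ t, ∀ w' ∈ t, ‖Y w - Y w'‖ ≤ ρ / 2) :
    gap t Y (dn b Z k) ≤ KK ι * ρ := by
  have hb0 : (0:ℝ) < b := by exact_mod_cast (by omega : 0 < b)
  have hb1 : (1:ℝ) < b := by exact_mod_cast (by omega : 1 < b)
  have hR := h.R0
  obtain ⟨r, hr⟩ := exists_pow_lt_of_lt_one (show 0 < (ρ / 2) / (R + 1) by positivity)
      (show (b:ℝ)⁻¹ < 1 by exact inv_lt_one_of_one_lt₀ hb1)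
  obtain ⟨r', n', hr', hk⟩ : ∃ r' n' : ℕ, r ≤ r' ∧ k = -(r':ℤ) + n' := by
    refine ⟨r + k.natAbs, (k + r + k.natAbs).toNat, by omega, ?_⟩
    have : 0 ≤ k + r + k.natAbs := by omega
    rw [Int.toNat_of_nonneg this]
    push_cast
    ring
  have hfine : (b:ℝ) ^ (-(r':ℤ)) * R ≤ ρ / 2 := by
    rw [zpow_neg, zpow_natCast, ← inv_pow]
    have h1 : ((b:ℝ)⁻¹) ^ r' ≤ ((b:ℝ)⁻¹) ^ r :=
      pow_le_pow_of_le_one (by positivity) (inv_le_one_of_one_le₀ hb1.le) hr'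
    rw [lt_div_iff₀ (by linarith)] at hr
    have h2 : (0:ℝ) < ((b:ℝ)⁻¹) ^ r' := by positivity
    nlinarith
  rw [hk, h.block (by omega) (-(r':ℤ)) n']
  refine (gap_mixT ht Y (fun w => (h.zw (by omega) w).dens (by omega) _) _).trans ?_
  have h1 : ∀ w ∈ (Finset.univ : Finset (ι → Fin (b ^ n'))),
      (Fintype.card (ι → Fin (b ^ n')) : ℝ)⁻¹ *
        gap t Y (dn b (zm (b ^ n') (dv w) Z) (-(r':ℤ))) ≤
      (Fintype.card (ι → Fin (b ^ n')) : ℝ)⁻¹ * (KK ι * ρ) := by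
    intro w _
    refine mul_le_mul_of_nonneg_left ?_ (by positivity)
    refine (h.zw (by omega) w).gap_fine (by omega) ht Y hρ fun v hv v' hv' => ?_
    have := hY v hv v' hv'
    linarith
  refine (Finset.sum_le_sum h1).trans ?_
  rw [sum_inv_card]

end Pool.Agent.V7H68.UF
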