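import Pool.Agent.V7H68.UF.Gain

/-!
The smallest entropy rate is full.
-/

namespace Pool.Agent.V7H68.UF

open Finset Real MeasureTheory SS MS

set_option linter.unusedSectionVars false

variable {ι : Type} [Fintype ι] [DecidableEq ι] {b : ℕ} {R : ℝ} {p : ℕ → ℕ} {A : ℕ} {β : ℕ → ℝ}
  {n : ℕ} {f : (ι → ℝ) → ι → ℝ} {T : Finset ℝ}
  {c : ℝ → ℝ} {I : ℝ → Finset ι} {P : ℝ → (ι → ℝ) →ₗ[ℝ] (ι → ℝ)}

/-- The weighted sum of `single`. -/
theorem sum_single [NeZero b] (hb : 2 ≤ b) {ℓ q M a0 : ℕ} (ha0 : a0 ≤ M) (ha1 : 1 ≤ a0)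
    (h : Inst b R p A β (ℓ + M * q) f T c I P)
    (hM : ((Fintype.card ι + 1) * (A + 1) + 1) * ℓ ≤ M * q)
    (hn : ((Fintype.card ι + 1 : ℕ) : ℝ) ^ 2 * (Nat.factorial (Fintype.card ι + 1)) *
      (2 * (R + 1) + 1) ^ (Fintype.card ι + 1) < (b:ℝ) ^ ℓ)
    {K : ℕ} (hK : 1 + R2 ι R + 1 ≤ K) {τ : ℝ} (hτ0 : 0 ≤ τ) :
    (Fintype.card ι * log b) * ℓ * (1 - β ℓ) ≤ Psi b τ ℓ f T c I P + τ * ℓ * Fintype.card ι +
      (Fintype.card ι * log (2 * K + 1) + log (p ℓ) + a0 * (q * (Fintype.card ι * log b)) +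
        M * (2 * log 2 + Fintype.card ι * log 3)) +
      (q * (Fintype.card ι * log b)) * (∑ a ∈ Finset.range M, ∑ t ∈ T, c t *
        io b ℓ q (P t) (pf (P t) f t) (a + 1)) +
      (q * (Fintype.card ι * log b)) * (2 / dq b q * ∑ a ∈ Finset.Ico a0 M, ∑ t ∈ T, c t *
        pr b ℓ q (pf (P t) f t) a) := by
  have hbp : 0 < b := by omega
  have hb1 : (1:ℝ) ≤ b := by exact_mod_cast hbp
  have hlb := Real.log_nonneg hb1
  set m : ℝ := (Fintype.card ι : ℝ) with hm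
  set B : ℝ := q * (m * log b) with hB
  have hB0 : 0 ≤ B := by positivity
  have hlp : 0 ≤ log (p ℓ : ℝ) := by
    rcases Nat.eq_zero_or_pos (p ℓ) with h0 | h0
    · rw [h0]; simp
    · exact Real.log_nonneg (by exact_mod_cast h0)
  have hl2 : 0 ≤ log (2:ℝ) := Real.log_nonneg (by norm_num)
  have hl3 : 0 ≤ log (3:ℝ) := Real.log_nonneg (by norm_num)
  have hlK : 0 ≤ log (2 * (K:ℝ) + 1) := Real.log_nonneg (by
    have : (0:ℝ) ≤ K := by positivity
    linarith)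
  set E0 : ℝ := m * log (2 * K + 1) + log (p ℓ) + a0 * B + M * (2 * log 2 + m * log 3) with hE0
  have hE00 : 0 ≤ E0 := by positivity
  have hdq := dq_pos hb q
  have hkey : ∀ t ∈ T, m * log b * ℓ * (1 - (bdn b f A ℓ).indicator 1 t) ≤
      (En b (pf (P t) f t) ℓ + (I t).card * ℓ * (log b - τ)) + τ * ℓ * m + E0 +
      ∑ a ∈ Finset.Ico a0 M, (io b ℓ q (P t) (pf (P t) f t) a +
        2 / dq b q * pr b ℓ q (pf (P t) f t) a) * B := by
    intro t ht
    have h0 := (h.bz hbp ht).En_nonneg hbp ℓ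
    have hI : ((I t).card : ℝ) ≤ m := by
      rw [hm]
      exact_mod_cast (h.adm t ht).card_le
    have hsum : 0 ≤ ∑ a ∈ Finset.Ico a0 M, (io b ℓ q (P t) (pf (P t) f t) a +
        2 / dq b q * pr b ℓ q (pf (P t) f t) a) * B := by
      refine Finset.sum_nonneg fun a _ => mul_nonneg ?_ hB0
      have h1 := io_nonneg (b := b) ℓ q (P t) (pf (P t) f t) a
      have h2 := pr_nonneg (b := b) ℓ q (pf (P t) f t) a
      positivity
    have hτl : τ * ℓ * (I t).card ≤ τ * ℓ * m := mul_le_mul_of_nonneg_left hI (by positivity)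
    have hIl : 0 ≤ ((I t).card : ℝ) * ℓ * log b := by positivity
    by_cases hbad : t ∈ bdn b f A ℓ
    · rw [Set.indicator_of_mem hbad]
      simp only [Pi.one_apply, sub_self, mul_zero]
      linarith
    · rw [Set.indicator_of_notMem hbad, sub_zero, mul_one]
      have h1 := single hb h.cl (h.tb t ht) hbad (h.adm t ht) (q := q) ha0 hM hn hK
      have h2 : (m - (I t).card) * ℓ * log b = m * log b * ℓ - (I t).card * ℓ * log b := by ring
      rw [h2] at h1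
      linarith
  have h1 := h.wsum_mono hkey
  have h2 : ∑ t ∈ T, c t * (m * log b * ℓ * (1 - (bdn b f A ℓ).indicator 1 t)) =
      m * log b * ℓ * (1 - ∑ t ∈ T, c t * (bdn b f A ℓ).indicator 1 t) := by
    rw [mul_sub, mul_one, Finset.mul_sum, ← h.wsum_const (m * log b * ℓ),
      ← Finset.sum_sub_distrib]
    refine Finset.sum_congr rfl fun t _ => ?_
    rw [h.wsum_const]
    ring
  have h3 : ∑ t ∈ T, c t * (bdn b f A ℓ).indicator 1 t ≤ β ℓ := by
    have h4 := h.good 0 ℓ (fun _ => 0) (by omega) (fun _ => by simp)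
    rwa [pow_zero, zm_one h.cl.bz.zero h.cl.bz.off (fun _ => by simp)] at h4
  have h4 : m * log b * ℓ * (1 - β ℓ) ≤
      m * log b * ℓ * (1 - ∑ t ∈ T, c t * (bdn b f A ℓ).indicator 1 t) :=
    mul_le_mul_of_nonneg_left (by linarith) (by positivity)
  have h5 : ∑ t ∈ T, c t * ((En b (pf (P t) f t) ℓ + (I t).card * ℓ * (log b - τ)) +
      τ * ℓ * m + E0 + ∑ a ∈ Finset.Ico a0 M, (io b ℓ q (P t) (pf (P t) f t) a +
        2 / dq b q * pr b ℓ q (pf (P t) f t) a) * B) =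
      Psi b τ ℓ f T c I P + τ * ℓ * m + E0 +
      B * (∑ a ∈ Finset.Ico a0 M, ∑ t ∈ T, c t * io b ℓ q (P t) (pf (P t) f t) a) +
      B * (2 / dq b q * ∑ a ∈ Finset.Ico a0 M, ∑ t ∈ T, c t * pr b ℓ q (pf (P t) f t) a) := by
    have e1 : τ * ℓ * m = ∑ t ∈ T, c t * (τ * ℓ * m) := (h.wsum_const _).symm
    have e2 : E0 = ∑ t ∈ T, c t * E0 := (h.wsum_const _).symm
    conv_rhs => rw [e1, e2]
    rw [Finset.sum_comm (s := Finset.Ico a0 M) (t := T), Finset.sum_comm (s := Finset.Ico a0 M)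
      (t := T)]
    unfold Psi
    rw [Finset.mul_sum, Finset.mul_sum, Finset.mul_sum, ← Finset.sum_add_distrib,
      ← Finset.sum_add_distrib, ← Finset.sum_add_distrib, ← Finset.sum_add_distrib]
    refine Finset.sum_congr rfl fun t _ => ?_
    rw [← Finset.sum_mul, Finset.sum_add_distrib, ← Finset.mul_sum, ← Finset.mul_sum,
      ← Finset.mul_sum]
    ring
  rw [h2] at h1
  rw [h5] at h1
  have h6 : ∑ a ∈ Finset.Ico a0 M, ∑ t ∈ T, c t * io b ℓ q (P t) (pf (P t) f t) a ≤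
      ∑ a ∈ Finset.range M, ∑ t ∈ T, c t * io b ℓ q (P t) (pf (P t) f t) (a + 1) := by
    have hnn : ∀ a, 0 ≤ ∑ t ∈ T, c t * io b ℓ q (P t) (pf (P t) f t) a := fun a =>
      Finset.sum_nonneg fun t ht => mul_nonneg (h.cn t ht) (io_nonneg _ _ _ _ _)
    have e1 : ∑ a ∈ Finset.range M, ∑ t ∈ T, c t * io b ℓ q (P t) (pf (P t) f t) (a + 1) =
        ∑ a ∈ Finset.Ico 1 (M + 1), ∑ t ∈ T, c t * io b ℓ q (P t) (pf (P t) f t) a := by
      rw [Finset.sum_Ico_eq_sum_range]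
      simp only [Nat.add_sub_cancel]
      refine Finset.sum_congr rfl fun a _ => ?_
      rw [add_comm 1 a]
    rw [e1]
    refine Finset.sum_le_sum_of_subset_of_nonneg ?_ fun a _ _ => hnn a
    intro a ha
    rw [Finset.mem_Ico] at ha ⊢
    omega
  have h7 := mul_le_mul_of_nonneg_left h6 hB0
  linarith

theorem full_rate [NeZero b] [Nonempty ι] (hb : 2 ≤ b) (hR : 0 ≤ R)
    (hβ : Filter.Tendsto β Filter.atTop (nhds 0))
    {hE : ℝ} (hE0 : 0 ≤ hE)
    (hp : ∀ ε : ℝ, 0 < ε → ∀ᶠ k : ℕ in Filter.atTop, log (p k) ≤ (hE + ε) * k)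
    {δ : ℝ} (hδ : 0 < δ) {r : ℝ} (hr0 : 0 ≤ r)
    (hr1 : ∀ n : ℕ, psi b R p A β (δ / (8 * Fintype.card ι)) ι n ≤ r * n + C0 ι (R2 ι R))
    (hr2 : ∀ η : ℝ, 0 < η → ∃ C : ℝ, 0 ≤ C ∧ ∀ n : ℕ,
      (r - η) * n - C ≤ psi b R p A β (δ / (8 * Fintype.card ι)) ι n) :
    Fintype.card ι * log b - hE - δ ≤ r := by
  by_contra hcon
  rw [not_le] at hcon
  have hbp : 0 < b := by omega
  have hb0 : (0:ℝ) < b := by exact_mod_cast hbp
  have hb1 : (1:ℝ) < b := by exact_mod_cast (by omega : 1 < b)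
  have hlb : 0 < log b := Real.log_pos hb1
  set m : ℝ := (Fintype.card ι : ℝ) with hm
  have hm1 : 1 ≤ m := by
    rw [hm]
    exact_mod_cast Fintype.card_pos
  set K : ℝ := m * log b with hK
  have hK0 : 0 < K := by positivity
  set τ : ℝ := δ / (8 * m) with hτ
  have hτ0 : 0 < τ := by positivity
  have hτm : τ * m = δ / 8 := by
    rw [hτ]
    field_simp
  have hτb : τ ≤ log b := by
    rw [hτ, div_le_iff₀ (by positivity)]
    have e : log b * (8 * m) = 8 * K := by rw [hK]; ring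
    rw [e]
    linarith
  set ε : ℝ := δ / 64 with hε
  have hε0 : 0 < ε := by positivity
  set A' : ℕ := (Fintype.card ι + 1) * (A + 1) + 1 with hA'
  have hA'1 : (1:ℝ) ≤ A' := by
    rw [hA']
    push_cast
    have : (0:ℝ) ≤ ((Fintype.card ι : ℝ) + 1) * ((A:ℝ) + 1) := by positivity
    linarith
  set c1 : ℝ := 2 * log 2 + m * log 3 with hc1
  have hl2 : 0 < log (2:ℝ) := Real.log_pos (by norm_num)
  have hl3 : 0 < log (3:ℝ) := Real.log_pos (by norm_num)
  have hc10 : 0 < c1 := by positivity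
  obtain ⟨Kc, hKc⟩ := exists_nat_ge (1 + R2 ι R + 1)
  have hR2 := R2_nonneg (ι := ι) hR
  set c0 := C0 ι (R2 ι R) with hc0
  have hc00 : 0 ≤ c0 := C0_nonneg _
  set C1c := C1 ι (R2 ι R) Kc with hC1c
  have hC1c0 : 0 ≤ C1c := hc00.trans (C0_le_C1 hR2 Kc)
  -- first parameter
  set η : ℝ := ε * τ / (K * A') with hη
  have hη0 : 0 < η := by positivity
  obtain ⟨Cη, hCη0, hCη⟩ := hr2 η hη0
  -- the step
  set X1 : ℝ := K / τ * (Cη + C1c) + c1 with hX1
  have hX10 : 0 ≤ X1 := by positivity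
  obtain ⟨q0', hq0'⟩ := exists_nat_ge (A' * X1 / ε)
  set q : ℕ := q0' + 1 with hq
  have hq1 : 1 ≤ q := by omega
  have hqr : (0:ℝ) < q := by exact_mod_cast hq1
  have hqX : A' * X1 ≤ ε * q := by
    rw [div_le_iff₀ hε0] at hq0'
    have : ((q:ℕ):ℝ) = q0' + 1 := by rw [hq]; push_cast; ring
    have e : ε * ((q0':ℝ) + 1) = q0' * ε + ε := by ring
    rw [this, e]
    linarith
  set D : ℝ := 2 / dq b q with hD
  have hD0 : 0 < D := by have := dq_pos hb q; positivity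
  set lam : ℝ := ε / (4 * K * A' * D) with hlam
  have hl0 : 0 < lam := by positivity
  have hlam1 : K * A' * D * (4 * lam) = ε := by
    rw [hlam]
    field_simp
  have hKK := KK_nonneg ι
  obtain ⟨r', hr'1, hr'2⟩ : ∃ r' : ℕ, 2 * ((b:ℝ) ^ r')⁻¹ ≤ 1 ∧
      K * A' * D * (KK ι * (2 * ((b:ℝ) ^ r')⁻¹) / lam) ≤ ε := by
    obtain ⟨r', hr'⟩ := exists_pow_lt_of_lt_one
      (show 0 < min (1 / 2) (ε * lam / (2 * (K * A' * D * (KK ι + 1)))) by positivity)
      (show (b:ℝ)⁻¹ < 1 by exact inv_lt_one_of_one_lt₀ hb1)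
    rw [inv_pow] at hr'
    have e1 := hr'.le.trans (min_le_left _ _)
    have e2 := hr'.le.trans (min_le_right _ _)
    refine ⟨r', by linarith, ?_⟩
    rw [le_div_iff₀ (by positivity)] at e2
    have e3 : K * A' * D * (KK ι * (2 * ((b:ℝ) ^ r')⁻¹) / lam) =
        (((b:ℝ) ^ r')⁻¹ * (2 * (K * A' * D * KK ι))) / lam := by ring
    rw [e3, div_le_iff₀ hl0]
    refine le_trans ?_ e2
    refine mul_le_mul_of_nonneg_left ?_ (by positivity)
    have : K * A' * D * KK ι ≤ K * A' * D * (KK ι + 1) :=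
      mul_le_mul_of_nonneg_left (by linarith) (by positivity)
    linarith
  set a0 : ℕ := r' + 1 with ha0
  have hra0 : r' ≤ a0 * q := by
    have : r' * 1 ≤ a0 * q := Nat.mul_le_mul (by omega) hq1
    omega
  set V : ℝ := q * K * D * (r' / lam) with hV
  have hV0 : 0 ≤ V := by positivity
  set W : ℝ := V * (1 + A') + K / τ + A' with hW
  have hW0 : 0 < W := by positivity
  set η1 : ℝ := ε / W with hη1
  have hη10 : 0 < η1 := by positivity
  have hη1W : η1 * W = ε := by rw [hη1]; field_simp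
  have hWe : ε = V * (η1 * (1 + A')) + η1 * (K / τ) + η1 * A' := by
    rw [← hη1W, hW]
    ring
  have hwa : 0 ≤ V * (η1 * (1 + A')) := by positivity
  have hwb : 0 ≤ η1 * (K / τ) := by positivity
  have hwc : 0 ≤ η1 * A' := by positivity
  have hw1 : V * (η1 * (1 + A')) ≤ ε := by linarith
  have hw2 : K / τ * η1 ≤ ε := by
    rw [mul_comm]
    linarith
  have hw3 : η1 * A' ≤ ε := by linarith
  obtain ⟨Cη1, hCη10, hCη1⟩ := hr2 η1 hη10
  -- the constants
  set Big : ℝ := (m * log (2 * Kc + 1) + a0 * (q * K)) + K / τ * (Cη1 + 2 * c0 + 1) +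
    V * (2 * Cη1 + 2 * c0 + 1) + (Cη1 + 2 * c0 + 1) + (c0 + 1) with hBig
  have hlKc : 0 ≤ log (2 * (Kc:ℝ) + 1) := Real.log_nonneg (by
    have : (0:ℝ) ≤ Kc := by positivity
    linarith)
  -- a large multiple of `q`
  have hev : ∀ᶠ ℓ : ℕ in Filter.atTop, K * β ℓ < ε ∧ log (p ℓ) ≤ (hE + ε) * ℓ ∧ Big / ε < ℓ ∧
      ((Fintype.card ι + 1 : ℕ) : ℝ) ^ 2 * (Nat.factorial (Fintype.card ι + 1)) *
      (2 * (R + 1) + 1) ^ (Fintype.card ι + 1) < (b:ℝ) ^ ℓ ∧ 1 ≤ ℓ := by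
    have e1 : ∀ᶠ ℓ : ℕ in Filter.atTop, K * β ℓ < ε := by
      have := hβ.const_mul K
      rw [mul_zero] at this
      exact this.eventually (gt_mem_nhds hε0)
    have e2 : ∀ᶠ ℓ : ℕ in Filter.atTop, log (p ℓ) ≤ (hE + ε) * ℓ := hp ε hε0
    have e3 : ∀ᶠ ℓ : ℕ in Filter.atTop, Big / ε < ℓ :=
      tendsto_natCast_atTop_atTop.eventually_gt_atTop _
    have e4 : ∀ᶠ ℓ : ℕ in Filter.atTop, ((Fintype.card ι + 1 : ℕ) : ℝ) ^ 2 *
      (Nat.factorial (Fintype.card ι + 1)) *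
      (2 * (R + 1) + 1) ^ (Fintype.card ι + 1) < (b:ℝ) ^ ℓ :=
      (tendsto_pow_atTop_atTop_of_one_lt hb1).eventually_gt_atTop _
    filter_upwards [e1, e2, e3, e4, Filter.eventually_ge_atTop 1] with ℓ h1 h2 h3 h4 h5
    exact ⟨h1, h2, h3, h4, h5⟩
  obtain ⟨ℓ0, hℓ0⟩ := Filter.eventually_atTop.1 hev
  set ℓ' : ℕ := ℓ0 + a0 with hℓ'
  set ℓ : ℕ := q * ℓ' with hℓ
  have hℓge : ℓ0 ≤ ℓ := by
    have : 1 * ℓ' ≤ q * ℓ' := Nat.mul_le_mul_right _ hq1
    omega
  obtain ⟨hb1', hb2', hb3', hb4', hb5'⟩ := hℓ0 ℓ hℓge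
  set M : ℕ := A' * ℓ' with hMdef
  have hMq : M * q = A' * ℓ := by rw [hMdef, hℓ]; ring
  have hA'1n : 1 ≤ A' := by rw [hA']; omega
  have ha0M : a0 ≤ M := by
    have : 1 * ℓ' ≤ A' * ℓ' := Nat.mul_le_mul_right _ hA'1n
    omega
  have hℓr : (0:ℝ) < ℓ := by exact_mod_cast hb5'
  have hlp : log (p ℓ) ≤ hE * ℓ + ε * ℓ := by linarith
  have hBigℓ : Big ≤ ε * ℓ := by
    rw [div_lt_iff₀ hε0] at hb3'
    linarith
  have hMqr : (M:ℝ) * q = A' * ℓ := by exact_mod_cast hMq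
  have hMX : (M:ℝ) * X1 ≤ ε * ℓ := by
    have e1 : (M:ℝ) * (A' * X1) ≤ M * (ε * q) := mul_le_mul_of_nonneg_left hqX (by positivity)
    have e2 : (M:ℝ) * (ε * q) = A' * (ε * ℓ) := by
      rw [show (M:ℝ) * (ε * q) = ε * (M * q) by ring, hMqr]
      ring
    have e3 : (A':ℝ) * (M * X1) ≤ A' * (ε * ℓ) := by
      rw [← e2]
      linarith
    exact le_of_mul_le_mul_left e3 (by linarith)
  -- the near-minimizer
  set ns : ℕ := ℓ + M * q with hns
  have hnsr : (ns:ℝ) = ℓ + A' * ℓ := by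
    rw [hns]
    push_cast
    rw [hMqr]
  have hnearly : ∃ x ∈ Vals b R p A β τ ι ns, x < psi b R p A β τ ι ns + 1 := by
    refine exists_lt_of_csInf_lt ⟨_, Or.inl rfl⟩ ?_
    unfold psi
    linarith
  obtain ⟨x, hx, hxlt⟩ := hnearly
  have hxr : x ≤ r * ns + c0 + 1 := by
    have := hr1 ns
    linarith
  have hconst : 0 ≤ m * log (2 * Kc + 1) + a0 * (q * K) := by positivity
  have hconst2 : 0 ≤ K / τ * (Cη1 + 2 * c0 + 1) := by positivity
  have hconst3 : 0 ≤ V * (2 * Cη1 + 2 * c0 + 1) := by positivity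
  rcases hx with hx | ⟨f, T, c, I, P, hI, hx⟩
  · -- the trivial value is too large
    rw [← hK] at hx
    have e1 : (K - r) * ns ≤ c0 + 1 := by
      rw [hx] at hxr
      linarith
    have e2 : δ * ℓ ≤ (K - r) * ns := by
      rw [hnsr]
      have h5 : 0 ≤ (A':ℝ) * ℓ := by positivity
      exact mul_le_mul (by linarith) (by linarith) hℓr.le (by linarith)
    have e3 : c0 + 1 ≤ ε * ℓ := by
      refine le_trans ?_ hBigℓ
      rw [hBig]
      linarith
    have e4 : ε * ℓ < δ * ℓ := mul_lt_mul_of_pos_right (by linarith) hℓr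
    linarith
  · rw [hx] at hxr
    -- lower bounds for the parts
    set aL : ℝ := av (fun w : ι → Fin (b ^ ℓ) => Psi b τ (M * q) (zm (b ^ ℓ) (dv w) f) T c I P)
      with haL
    have e1 := hI.super hbp τ ℓ (M * q)
    rw [← haL] at e1
    have e2 : (r - η1) * ℓ - Cη1 ≤ Psi b τ ℓ f T c I P :=
      (hCη1 ℓ).trans ((hI.mono (Nat.le_add_right ℓ _)).psi_le hbp hτb)
    have e3 : (r - η1) * (A' * ℓ) - Cη1 ≤ aL := by
      rw [haL, ← av_const (Ω := ι → Fin (b ^ ℓ)) ((r - η1) * (A' * ℓ) - Cη1)]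
      refine av_mono fun w => ?_
      have e4 := hCη1 (M * q)
      push_cast at e4
      rw [hMqr] at e4
      exact e4.trans ((hI.zoom hbp (dv_lt w)).psi_le hbp hτb)
    have U0 : Psi b τ (ℓ + M * q) f T c I P ≤ r * (ℓ + A' * ℓ) + c0 + 1 := by
      rw [← hnsr]
      exact hxr
    have U1 : Psi b τ ℓ f T c I P ≤ r * ℓ + η1 * (A' * ℓ) + (Cη1 + 2 * c0 + 1) := by
      linarith
    have U2 : aL ≤ r * (A' * ℓ) + η1 * ℓ + (Cη1 + 2 * c0 + 1) := by
      linarith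
    -- losses
    have e5 := loss_sum hb hI τ
    have U3 : ∑ i ∈ Finset.range (M * q), ∑ t ∈ T, c t * gl b ℓ (pf (P t) f t) (i + 1) ≤
        η1 * (ℓ + A' * ℓ) + (2 * Cη1 + 2 * c0 + 1) := by
      refine e5.trans ?_
      rw [← haL]
      linarith
    -- invariance
    have U4 : M * (((r - η) * q - Cη) - C1c) + τ * q * ∑ a ∈ Finset.range M, ∑ t ∈ T, c t *
        io b ℓ q (P t) (pf (P t) f t) (a + 1) ≤ aL := by
      have e6 : ∀ w : ι → Fin (b ^ ℓ), M * (((r - η) * q - Cη) - C1c) +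
          τ * q * ∑ a ∈ Finset.range M, ∑ t ∈ T, c t *
            iv b (fun y => P t y = y) (dq b q) q (((a + 1) * q : ℕ) : ℤ)
              (zm (b ^ ℓ) (dv w) (pf (P t) f t)) ≤
          Psi b τ (M * q) (zm (b ^ ℓ) (dv w) f) T c I P := by
        intro w
        have e7 := gain_sum hb (hI.zoom hbp (dv_lt w)) hKc hτb (hCη q)
        simp only [zm_pf (pow_pos hbp ℓ) (dv_lt w)]
        exact e7
      have e8 := av_mono e6
      rw [av_add, av_const, av_mul, av_sum] at e8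
      refine le_trans (le_of_eq ?_) e8
      congr 2
      refine Finset.sum_congr rfl fun a _ => ?_
      rw [← wsum_av]
      rfl
    set Sio : ℝ := ∑ a ∈ Finset.range M, ∑ t ∈ T, c t * io b ℓ q (P t) (pf (P t) f t) (a + 1)
      with hSio
    set Spr : ℝ := ∑ a ∈ Finset.Ico a0 M, ∑ t ∈ T, c t * pr b ℓ q (pf (P t) f t) a with hSpr
    have V1 : q * K * Sio ≤ 4 * (ε * ℓ) := by
      have e6 : τ * q * Sio ≤ η * (A' * ℓ) + M * (Cη + C1c) + η1 * ℓ + (Cη1 + 2 * c0 + 1) := by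
        have e7 : (M:ℝ) * (((r - η) * q - Cη) - C1c) = (r - η) * (A' * ℓ) - M * (Cη + C1c) := by
          rw [← hMqr]
          ring
        rw [e7] at U4
        linarith
      have e7 : q * K * Sio = K / τ * (τ * q * Sio) := by
        field_simp
      rw [e7]
      refine (mul_le_mul_of_nonneg_left e6 (by positivity)).trans ?_
      have e8 : K / τ * (η * (A' * ℓ)) = ε * ℓ := by
        rw [hη]
        field_simp
      have e9 : K / τ * (M * (Cη + C1c)) ≤ ε * ℓ := by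
        refine le_trans ?_ hMX
        rw [hX1]
        have : 0 ≤ (M:ℝ) * c1 := by positivity
        linarith
      have e10 : K / τ * (η1 * ℓ) ≤ ε * ℓ := by
        have := mul_le_mul_of_nonneg_right hw2 hℓr.le
        linarith
      have e11 : K / τ * (Cη1 + 2 * c0 + 1) ≤ ε * ℓ := by
        refine le_trans ?_ hBigℓ
        rw [hBig]
        linarith
      linarith
    have V2 : q * K * (D * Spr) ≤ 4 * (ε * ℓ) := by
      have e6 := pr_sum hb hq1 hra0 hr'1 hl0 hI U3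
      rw [← hSpr] at e6
      have e7 : q * K * (D * Spr) = q * K * D * Spr := by ring
      rw [e7]
      refine (mul_le_mul_of_nonneg_left e6 (by positivity)).trans ?_
      have e8 : q * K * D * (M * (KK ι * (2 * ((b:ℝ) ^ r')⁻¹) / lam + 4 * lam) +
          r' * (η1 * (ℓ + A' * ℓ) + (2 * Cη1 + 2 * c0 + 1)) / lam) =
          (K * A' * D * (KK ι * (2 * ((b:ℝ) ^ r')⁻¹) / lam)) * ℓ +
          (K * A' * D * (4 * lam)) * ℓ + (V * (η1 * (1 + A'))) * ℓ +
          V * (2 * Cη1 + 2 * c0 + 1) := by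
        have e9 : q * K * D * (M * (KK ι * (2 * ((b:ℝ) ^ r')⁻¹) / lam + 4 * lam)) =
            K * D * (M * q) * (KK ι * (2 * ((b:ℝ) ^ r')⁻¹) / lam + 4 * lam) := by ring
        rw [mul_add, e9, hMqr, hV]
        ring
      rw [e8, hlam1]
      have e10 := mul_le_mul_of_nonneg_right hr'2 hℓr.le
      have e11 := mul_le_mul_of_nonneg_right hw1 hℓr.le
      have e12 : V * (2 * Cη1 + 2 * c0 + 1) ≤ ε * ℓ := by
        refine le_trans ?_ hBigℓ
        rw [hBig]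
        linarith
      linarith
    have hM' : A' * ℓ ≤ M * q := le_of_eq hMq.symm
    have e6 := sum_single hb ha0M (by omega) hI hM' hb4' hKc hτ0.le
    rw [← hm, ← hK, ← hc1, ← hSio, ← hSpr, ← hD] at e6
    have e7 : K * ℓ * (1 - β ℓ) = K * ℓ - K * β ℓ * ℓ := by ring
    rw [e7] at e6
    have e8 : K * β ℓ * ℓ ≤ ε * ℓ := mul_le_mul_of_nonneg_right hb1'.le hℓr.le
    have e9 : τ * ℓ * m = 8 * (ε * ℓ) := by
      rw [show τ * ℓ * m = τ * m * ℓ by ring, hτm, hε]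
      ring
    rw [e9] at e6
    have e10 : (M:ℝ) * c1 ≤ ε * ℓ := by
      refine le_trans ?_ hMX
      rw [hX1]
      have : 0 ≤ (M:ℝ) * (K / τ * (Cη + C1c)) := by positivity
      linarith
    have e11 : m * log (2 * Kc + 1) + a0 * (q * K) ≤ ε * ℓ := by
      refine le_trans ?_ hBigℓ
      rw [hBig]
      linarith
    have e12 : η1 * (A' * ℓ) ≤ ε * ℓ := by
      have := mul_le_mul_of_nonneg_right hw3 hℓr.le
      linarith
    have e13 : Cη1 + 2 * c0 + 1 ≤ ε * ℓ := by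
      refine le_trans ?_ hBigℓ
      rw [hBig]
      linarith
    have e14 : (K - hE - r) * ℓ ≤ 22 * (ε * ℓ) := by
      linarith
    have e15 : δ * ℓ < (K - hE - r) * ℓ := mul_lt_mul_of_pos_right (by linarith) hℓr
    have e16 : 64 * (ε * ℓ) = δ * ℓ := by rw [hε]; ring
    have e17 : 0 < ε * ℓ := by positivity
    linarith

end Pool.Agent.V7H68.UF
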