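import Pool.Agent.V7H68.UF.Single

/-!
Near-minimal instances rarely have invariant directions and have small losses.
-/

namespace Pool.Agent.V7H68.UF

open Finset Real MeasureTheory SS MS

set_option linter.unusedSectionVars false

variable {ι : Type} [Fintype ι] [DecidableEq ι] {b : ℕ} {R : ℝ} {p : ℕ → ℕ} {A : ℕ} {β : ℕ → ℝ}
  {n : ℕ} {f : (ι → ℝ) → ι → ℝ} {T : Finset ℝ}
  {c : ℝ → ℝ} {I : ℝ → Finset ι} {P : ℝ → (ι → ℝ) →ₗ[ℝ] (ι → ℝ)}

theorem C0_le_C1 {R : ℝ} (hR : 0 ≤ R) (K : ℕ) : C0 ι R ≤ C1 ι R K := by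
  unfold C1
  have h1 : C0 ι R ≤ volume.real (Metric.closedBall (0 : ι → ℝ) (1 + R + 2)) := by
    have := C0_mono (ι := ι) (show R ≤ R + 2 by linarith)
    unfold C0 at this ⊢
    rw [← add_assoc] at this
    exact this
  have h2 : 0 ≤ log (7:ℝ) := Real.log_nonneg (by norm_num)
  have h3 : 0 ≤ log (2 * (K:ℝ) + 1) := Real.log_nonneg (by
    have : (0:ℝ) ≤ K := by positivity
    linarith)
  have h4 : 0 ≤ (2 * (1 + 2 * R + 2)) ^ Fintype.card ι := by positivity
  have h5 : 0 ≤ (Fintype.card ι : ℝ) * log 7 := by positivity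
  have h6 : 0 ≤ (Fintype.card ι : ℝ) * log (2 * K + 1) := by positivity
  linarith

theorem R2_nonneg {R : ℝ} (hR : 0 ≤ R) : 0 ≤ R2 ι R := by unfold R2; positivity

/-- One step: either the entropy splits, or there is nothing to do. -/
theorem choose_ext [NeZero b] [Nonempty ι] (hb : 2 ≤ b) {k q : ℕ}
    (h : Inst b R p A β (k + q) f T c I P) {K : ℕ} (hK : 1 + R2 ι R + 1 ≤ K) {t : ℝ}
    (ht : t ∈ T) : ∃ (I' : Finset ι) (P' : (ι → ℝ) →ₗ[ℝ] (ι → ℝ)), Adm I' P' ∧
      (I'.card : ℝ) = (I t).card +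
        iv b (fun y => P t y = y) (dq b q) q ((k + q : ℕ) : ℤ) (pf (P t) f t) ∧
      q * log b * iv b (fun y => P t y = y) (dq b q) q ((k + q : ℕ) : ℤ) (pf (P t) f t) +
        av (fun v : ι → Fin (b ^ k) => En b (pf P' (zm (b ^ k) (dv v) f) t) q) - C1 ι (R2 ι R) K ≤
      En b (pf (P t) f t) (k + q) - En b (pf (P t) f t) k := by
  have hbp : 0 < b := by omega
  have hB := h.bz hbp ht
  have hadm := h.adm t ht
  by_cases hiv : Iv b (fun y => P t y = y) (dq b q) q ((k + q : ℕ) : ℤ) (pf (P t) f t)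
  · have hiv1 : iv b (fun y => P t y = y) (dq b q) q ((k + q : ℕ) : ℤ) (pf (P t) f t) = 1 :=
      if_pos hiv
    obtain ⟨y, hPy, hy1, hy2, hy3⟩ := hiv
    have hb0 : (0:ℝ) < b := by exact_mod_cast hbp
    have hy0 : y ≠ 0 := by
      rintro rfl
      rw [norm_zero] at hy1
      have : 0 < ((b:ℝ) ^ q)⁻¹ := by positivity
      linarith
    obtain ⟨i, hi⟩ := exists_max_coord y
    refine ⟨insert i (I t), (pj y i).comp (P t), Adm.cons hadm y i hy0 hPy hi, ?_, ?_⟩
    · rw [hiv1, Finset.card_insert_of_notMem (hadm.notMem hy0 hPy hi)]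
      push_cast
      ring
    · rw [hiv1, mul_one]
      have h1 := hB.inv_gain hb hi hy1 hy2 k hy3 hK
      have h2 : ∀ v : ι → Fin (b ^ k), (fun θ => pj y i (zm (b ^ k) (dv v) (pf (P t) f t) θ)) =
          pf ((pj y i).comp (P t)) (zm (b ^ k) (dv v) f) t := by
        intro v
        rw [zm_pf (pow_pos hbp k) (dv_lt v)]
        rfl
      simp only [h2] at h1
      exact h1
  · have hiv0 : iv b (fun y => P t y = y) (dq b q) q ((k + q : ℕ) : ℤ) (pf (P t) f t) = 0 :=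
      if_neg hiv
    refine ⟨I t, P t, hadm, by rw [hiv0, add_zero], ?_⟩
    rw [hiv0, mul_zero, zero_add]
    have h1 := hB.super hbp k q
    have h2 : ∀ v : ι → Fin (b ^ k), zm (b ^ k) (dv v) (pf (P t) f t) =
        pf (P t) (zm (b ^ k) (dv v) f) t := fun v => zm_pf (pow_pos hbp k) (dv_lt v) _ _ _
    simp only [h2] at h1
    have h3 := C0_le_C1 (ι := ι) hB.R0 K
    linarith

theorem gain_step [NeZero b] [Nonempty ι] (hb : 2 ≤ b) {k q : ℕ}
    (h : Inst b R p A β (k + q) f T c I P) {K : ℕ} (hK : 1 + R2 ι R + 1 ≤ K) {τ : ℝ}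
    (hτ : τ ≤ log b) {low : ℝ} (hlow : low ≤ psi b R p A β τ ι q) :
    low - C1 ι (R2 ι R) K + τ * q * ∑ t ∈ T, c t *
        iv b (fun y => P t y = y) (dq b q) q ((k + q : ℕ) : ℤ) (pf (P t) f t) ≤
      ∑ t ∈ T, c t * (En b (pf (P t) f t) (k + q) - En b (pf (P t) f t) k) +
        q * (log b - τ) * ∑ t ∈ T, c t * (I t).card := by
  have hbp : 0 < b := by omega
  have hex : ∀ t : ℝ, ∃ (I' : Finset ι) (P' : (ι → ℝ) →ₗ[ℝ] (ι → ℝ)), t ∈ T → (Adm I' P' ∧
      (I'.card : ℝ) = (I t).card +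
        iv b (fun y => P t y = y) (dq b q) q ((k + q : ℕ) : ℤ) (pf (P t) f t) ∧
      q * log b * iv b (fun y => P t y = y) (dq b q) q ((k + q : ℕ) : ℤ) (pf (P t) f t) +
        av (fun v : ι → Fin (b ^ k) => En b (pf P' (zm (b ^ k) (dv v) f) t) q) - C1 ι (R2 ι R) K ≤
      En b (pf (P t) f t) (k + q) - En b (pf (P t) f t) k) := by
    intro t
    by_cases ht : t ∈ T
    · obtain ⟨I', P', h1⟩ := choose_ext hb h hK ht
      exact ⟨I', P', fun _ => h1⟩
    · exact ⟨∅, LinearMap.id, fun h => absurd h ht⟩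
  choose I' P' hIP using hex
  set J : ℝ → ℝ := fun t =>
    iv b (fun y => P t y = y) (dq b q) q ((k + q : ℕ) : ℤ) (pf (P t) f t) with hJ
  have h1 : ∀ v : ι → Fin (b ^ k), low ≤
      ∑ t ∈ T, c t * (En b (pf (P' t) (zm (b ^ k) (dv v) f) t) q +
        (I' t).card * q * (log b - τ)) := by
    intro v
    have h2 : Inst b R p A β q (zm (b ^ k) (dv v) f) T c I' P' :=
      (h.zoom hbp (dv_lt v)).change fun t ht => (hIP t ht).1
    exact hlow.trans (h2.psi_le hbp hτ)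
  have h2 : low ≤ ∑ t ∈ T, c t * (av (fun v : ι → Fin (b ^ k) =>
      En b (pf (P' t) (zm (b ^ k) (dv v) f) t) q) + (I' t).card * q * (log b - τ)) := by
    rw [← av_const (Ω := ι → Fin (b ^ k)) low]
    refine (av_mono h1).trans (le_of_eq ?_)
    rw [← wsum_av]
    refine Finset.sum_congr rfl fun t _ => ?_
    rw [av_add, av_const]
  have h3 : ∑ t ∈ T, c t * (av (fun v : ι → Fin (b ^ k) =>
      En b (pf (P' t) (zm (b ^ k) (dv v) f) t) q) + (I' t).card * q * (log b - τ)) ≤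
      ∑ t ∈ T, c t * ((En b (pf (P t) f t) (k + q) - En b (pf (P t) f t) k) +
        q * (log b - τ) * (I t).card - τ * q * J t + C1 ι (R2 ι R) K) := by
    refine h.wsum_mono fun t ht => ?_
    obtain ⟨-, e1, e2⟩ := hIP t ht
    rw [e1]
    have e3 : J t = iv b (fun y => P t y = y) (dq b q) q ((k + q : ℕ) : ℤ) (pf (P t) f t) := rfl
    rw [← e3] at e2 ⊢
    nlinarith
  have h4 : ∑ t ∈ T, c t * ((En b (pf (P t) f t) (k + q) - En b (pf (P t) f t) k) +
        q * (log b - τ) * (I t).card - τ * q * J t + C1 ι (R2 ι R) K) =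
      ∑ t ∈ T, c t * (En b (pf (P t) f t) (k + q) - En b (pf (P t) f t) k) +
        q * (log b - τ) * ∑ t ∈ T, c t * (I t).card - τ * q * ∑ t ∈ T, c t * J t +
        C1 ι (R2 ι R) K := by
    have e1 : C1 ι (R2 ι R) K = ∑ t ∈ T, c t * C1 ι (R2 ι R) K := (h.wsum_const _).symm
    conv_rhs => rw [e1]
    rw [Finset.mul_sum, Finset.mul_sum, ← Finset.sum_add_distrib, ← Finset.sum_sub_distrib,
      ← Finset.sum_add_distrib]
    exact Finset.sum_congr rfl fun t _ => by ring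
  rw [h4] at h3
  linarith

theorem gain_sum [NeZero b] [Nonempty ι] (hb : 2 ≤ b) {M q : ℕ}
    (h : Inst b R p A β (M * q) f T c I P) {K : ℕ} (hK : 1 + R2 ι R + 1 ≤ K) {τ : ℝ}
    (hτ : τ ≤ log b) {low : ℝ} (hlow : low ≤ psi b R p A β τ ι q) :
    M * (low - C1 ι (R2 ι R) K) + τ * q * ∑ a ∈ Finset.range M, ∑ t ∈ T, c t *
        iv b (fun y => P t y = y) (dq b q) q (((a + 1) * q : ℕ) : ℤ) (pf (P t) f t) ≤
      Psi b τ (M * q) f T c I P := by
  have hbp : 0 < b := by omega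
  have key : ∀ N : ℕ, N ≤ M → N * (low - C1 ι (R2 ι R) K) + τ * q * ∑ a ∈ Finset.range N,
      ∑ t ∈ T, c t *
        iv b (fun y => P t y = y) (dq b q) q (((a + 1) * q : ℕ) : ℤ) (pf (P t) f t) ≤
      ∑ t ∈ T, c t * (En b (pf (P t) f t) (N * q) - En b (pf (P t) f t) 0) +
        N * q * (log b - τ) * ∑ t ∈ T, c t * (I t).card := by
    intro N hN
    induction N with
    | zero => simp
    | succ N ih =>
      have h1 := ih (by omega)
      have hle : N * q + q ≤ M * q := by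
        have : (N + 1) * q ≤ M * q := Nat.mul_le_mul_right q hN
        linarith
      have h2 := gain_step hb (h.mono hle) hK hτ hlow
      have e1 : N * q + q = (N + 1) * q := by ring
      rw [e1] at h2
      rw [Finset.sum_range_succ]
      have e2 : ∑ t ∈ T, c t * (En b (pf (P t) f t) ((N + 1) * q) - En b (pf (P t) f t) 0) =
          ∑ t ∈ T, c t * (En b (pf (P t) f t) (N * q) - En b (pf (P t) f t) 0) +
          ∑ t ∈ T, c t * (En b (pf (P t) f t) ((N + 1) * q) - En b (pf (P t) f t) (N * q)) := by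
        rw [← Finset.sum_add_distrib]
        exact Finset.sum_congr rfl fun t _ => by ring
      rw [e2]
      push_cast at h1 h2 ⊢
      linarith
  have h1 := key M le_rfl
  refine h1.trans ?_
  unfold Psi
  rw [Finset.mul_sum, ← Finset.sum_add_distrib]
  refine Finset.sum_le_sum fun t ht => ?_
  have h2 := (h.bz hbp ht).En_nonneg hbp 0
  have h3 := mul_nonneg (h.cn t ht) h2
  push_cast
  nlinarith

/-- The losses of a near-minimal instance. -/
theorem loss_sum [NeZero b] (hb : 2 ≤ b) {ℓ L : ℕ}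
    (h : Inst b R p A β (ℓ + L) f T c I P) (τ : ℝ) :
    ∑ i ∈ Finset.range L, ∑ t ∈ T, c t * gl b ℓ (pf (P t) f t) (i + 1) ≤
      Psi b τ (ℓ + L) f T c I P - Psi b τ ℓ f T c I P - av (fun w : ι → Fin (b ^ ℓ) =>
      Psi b τ L (zm (b ^ ℓ) (dv w) f) T c I P) + C0 ι (R2 ι R) := by
  have hbp : 0 < b := by omega
  rw [Finset.sum_comm]
  have h1 : av (fun w : ι → Fin (b ^ ℓ) => Psi b τ L (zm (b ^ ℓ) (dv w) f) T c I P) =
      ∑ t ∈ T, c t * (av (fun w : ι → Fin (b ^ ℓ) =>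
        En b (zm (b ^ ℓ) (dv w) (pf (P t) f t)) L) + (I t).card * L * (log b - τ)) := by
    have h2 : ∀ t, av (fun w : ι → Fin (b ^ ℓ) =>
        En b (zm (b ^ ℓ) (dv w) (pf (P t) f t)) L) + (I t).card * L * (log b - τ) =
        av (fun w : ι → Fin (b ^ ℓ) => En b (pf (P t) (zm (b ^ ℓ) (dv w) f) t) L +
          (I t).card * L * (log b - τ)) := by
      intro t
      rw [av_add, av_const]
      congr 2
      funext w
      rw [zm_pf (pow_pos hbp ℓ) (dv_lt w)]
    simp only [h2]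
    rw [wsum_av]
    rfl
  rw [h1]
  unfold Psi
  have h3 : C0 ι (R2 ι R) = ∑ t ∈ T, c t * C0 ι (R2 ι R) := (h.wsum_const _).symm
  rw [h3, ← Finset.sum_sub_distrib, ← Finset.sum_sub_distrib, ← Finset.sum_add_distrib]
  refine Finset.sum_le_sum fun t ht => ?_
  rw [← Finset.mul_sum]
  have h4 := (h.bz hbp ht).sum_gl_le hbp ℓ L
  have h5 := mul_le_mul_of_nonneg_left h4 (h.cn t ht)
  push_cast
  nlinarith

/-- The sum of the mean translation norms. -/
theorem pr_sum [NeZero b] (hb : 2 ≤ b) {ℓ M q a0 r : ℕ} (hq : 1 ≤ q) (hr : r ≤ a0 * q)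
    (hr2 : 2 * ((b:ℝ) ^ r)⁻¹ ≤ 1) {lam : ℝ} (hl : 0 < lam)
    (h : Inst b R p A β (ℓ + M * q) f T c I P) {G : ℝ}
    (hG : ∑ i ∈ Finset.range (M * q), ∑ t ∈ T, c t * gl b ℓ (pf (P t) f t) (i + 1) ≤ G) :
    ∑ a ∈ Finset.Ico a0 M, ∑ t ∈ T, c t * pr b ℓ q (pf (P t) f t) a ≤
      M * (KK ι * (2 * ((b:ℝ) ^ r)⁻¹) / lam + 4 * lam) + r * G / lam := by
  have hbp : 0 < b := by omega
  have hb0 : (0:ℝ) < b := by exact_mod_cast hbp
  set g : ℕ → ℝ := fun i => ∑ t ∈ T, c t * gl b ℓ (pf (P t) f t) i with hg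
  have hg0 : ∀ i, 0 ≤ g i := fun i => Finset.sum_nonneg fun t ht =>
    mul_nonneg (h.cn t ht) ((h.bz hbp ht).gl_nonneg hbp ℓ i)
  have hG0 : 0 ≤ G := (Finset.sum_nonneg fun i _ => hg0 (i + 1)).trans hG
  have h1 : ∀ a ∈ Finset.Ico a0 M, ∑ t ∈ T, c t * pr b ℓ q (pf (P t) f t) a ≤
      (KK ι * (2 * ((b:ℝ) ^ r)⁻¹) / lam + 4 * lam) +
        lam⁻¹ * ∑ j ∈ Finset.range r, g (a * q - j) := by
    intro a ha
    rw [Finset.mem_Ico] at ha
    have hra : r ≤ a * q := hr.trans (Nat.mul_le_mul_right q ha.1)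
    have h2 : ∀ t ∈ T, pr b ℓ q (pf (P t) f t) a ≤
        (KK ι * (2 * ((b:ℝ) ^ r)⁻¹) / lam + 4 * lam) +
        lam⁻¹ * ∑ j ∈ Finset.range r, gl b ℓ (pf (P t) f t) (a * q - j) := by
      intro t ht
      have h3 := (h.bz hbp ht).pair_chain hb ℓ (a * q) r hra hr2 hl
        (cellU b ℓ (pf (P t) f t) (a * q)) (fun w w' hw => ⟨congrArg Prod.snd hw, by
          rw [smul_sub]
          exact norm_sub_le_of_fl (congrArg Prod.fst hw)⟩)
      refine le_trans h3 (le_of_eq ?_)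
      rw [add_div, div_eq_inv_mul (∑ j ∈ Finset.range r, gl b ℓ (pf (P t) f t) (a * q - j))]
      ring
    refine (h.wsum_mono h2).trans (le_of_eq ?_)
    have h4 : ∀ t, c t * ((KK ι * (2 * ((b:ℝ) ^ r)⁻¹) / lam + 4 * lam) +
        lam⁻¹ * ∑ j ∈ Finset.range r, gl b ℓ (pf (P t) f t) (a * q - j)) =
        c t * (KK ι * (2 * ((b:ℝ) ^ r)⁻¹) / lam + 4 * lam) +
        lam⁻¹ * ∑ j ∈ Finset.range r, c t * gl b ℓ (pf (P t) f t) (a * q - j) := by
      intro t
      rw [← Finset.mul_sum]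
      ring
    rw [Finset.sum_congr rfl fun t _ => h4 t, Finset.sum_add_distrib, h.wsum_const,
      ← Finset.mul_sum, Finset.sum_comm]
  refine (Finset.sum_le_sum h1).trans ?_
  rw [Finset.sum_add_distrib, Finset.sum_const, nsmul_eq_mul, Nat.card_Ico, ← Finset.mul_sum,
    Finset.sum_comm]
  have hK := KK_nonneg ι
  have h2 : ((M - a0 : ℕ) : ℝ) * (KK ι * (2 * ((b:ℝ) ^ r)⁻¹) / lam + 4 * lam) ≤
      M * (KK ι * (2 * ((b:ℝ) ^ r)⁻¹) / lam + 4 * lam) := by
    refine mul_le_mul_of_nonneg_right (by exact_mod_cast Nat.sub_le M a0) (by positivity)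
  have h3 : ∑ j ∈ Finset.range r, ∑ a ∈ Finset.Ico a0 M, g (a * q - j) ≤ r * G := by
    have h4 : ∀ j ∈ Finset.range r, ∑ a ∈ Finset.Ico a0 M, g (a * q - j) ≤ G := by
      intro j hj
      rw [Finset.mem_range] at hj
      refine le_trans ?_ hG
      have hinj : Set.InjOn (fun a => a * q - j - 1) (Finset.Ico a0 M : Set ℕ) := by
        intro a ha a' ha' haa
        simp only [Finset.coe_Ico, Set.mem_Ico] at ha ha'
        have e1 : r ≤ a * q := hr.trans (Nat.mul_le_mul_right q ha.1)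
        have e2 : r ≤ a' * q := hr.trans (Nat.mul_le_mul_right q ha'.1)
        simp only at haa
        have e3 : a * q = a' * q := by omega
        exact Nat.eq_of_mul_eq_mul_right (by omega) e3
      have e4 : ∑ a ∈ Finset.Ico a0 M, g (a * q - j) =
          ∑ i ∈ (Finset.Ico a0 M).image (fun a => a * q - j - 1), g (i + 1) := by
        rw [Finset.sum_image hinj]
        refine Finset.sum_congr rfl fun a ha => ?_
        rw [Finset.mem_Ico] at ha
        have e1 : r ≤ a * q := hr.trans (Nat.mul_le_mul_right q ha.1)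
        congr 1
        omega
      rw [e4]
      refine Finset.sum_le_sum_of_subset_of_nonneg ?_ fun i _ _ => hg0 _
      intro i hi
      rw [Finset.mem_image] at hi
      obtain ⟨a, ha, rfl⟩ := hi
      rw [Finset.mem_Ico] at ha
      rw [Finset.mem_range]
      have e1 : r ≤ a * q := hr.trans (Nat.mul_le_mul_right q ha.1)
      have e2 : a * q < M * q := Nat.mul_lt_mul_of_pos_right ha.2 (by omega)
      omega
    refine (Finset.sum_le_sum h4).trans (le_of_eq ?_)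
    rw [Finset.sum_const, Finset.card_range, nsmul_eq_mul]
  have h4 : lam⁻¹ * ∑ j ∈ Finset.range r, ∑ a ∈ Finset.Ico a0 M, g (a * q - j) ≤ r * G / lam := by
    rw [div_eq_inv_mul]
    exact mul_le_mul_of_nonneg_left h3 (by positivity)
  linarith

end Pool.Agent.V7H68.UF
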