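import Pool.Agent.V7H68.UF.Ent

/-!
The gaps of the classes of words are controlled by the losses of the increments.
-/

namespace Pool.Agent.V7H68.UF

open Finset Real MeasureTheory SS MS

set_option linter.unusedSectionVars false

variable {ι : Type} [Fintype ι] [DecidableEq ι] {b : ℕ} {R : ℝ} {Z : (ι → ℝ) → ι → ℝ}

theorem Bz.gap_step [NeZero b] (h : Bz b R Z) (hb : 0 < b) (n i : ℕ)
    {κ : Type*} [DecidableEq κ] (F : (ι → Fin (b ^ n)) → κ)
    (hF : ∀ w w', F w = F w' → zm (b ^ n) (dv w) Z = zm (b ^ n) (dv w') Z) :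
    av (fun w : ι → Fin (b ^ n) => gap (cls F w)
        (fun v => (b:ℝ) ^ (i:ℤ) • X b n Z v) (dn b (zm (b ^ n) (dv w) Z) i)) ≤
      av (fun w : ι → Fin (b ^ n) => gap (cls F w)
        (fun v => (b:ℝ) ^ ((i:ℤ) - 1) • X b n Z v) (dn b (zm (b ^ n) (dv w) Z) ((i:ℤ) - 1)))
      + gl b n Z i := by
  have hb' : (b:ℝ) ≠ 0 := by exact_mod_cast hb.ne'
  set Y : (ι → Fin (b ^ n)) → ι → ℝ := fun v => (b:ℝ) ^ (i:ℤ) • X b n Z v with hY
  have e1 : ∀ w, gap (cls F w) Y (dn b (zm (b ^ n) (dv w) Z) i) -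
      gap (cls F w) (fun v => (b:ℝ) ^ ((i:ℤ) - 1) • X b n Z v)
        (dn b (zm (b ^ n) (dv w) Z) ((i:ℤ) - 1)) =
      inc b (avg (cls F w) Y (dn b (zm (b ^ n) (dv w) Z) i)) -
        inc b (dn b (zm (b ^ n) (dv w) Z) i) := by
    intro w
    rw [inc_gap hb, (h.zw hb w).coarse hb]
    congr 2
    funext v
    rw [hY]
    simp only
    rw [smul_smul]
    congr 1
    rw [zpow_sub_one₀ hb']
    ring
  have e2 : av (fun w : ι → Fin (b ^ n) =>
      inc b (avg (cls F w) Y (dn b (zm (b ^ n) (dv w) Z) i))) ≤ inc b (dn b Z ((i:ℤ) + n)) := by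
    rw [h.block hb i n, mixT_cls F (fun w w' hw => by rw [hF w w' hw])]
    exact inc_mix hb _ (fun _ _ => by positivity) (fun w _ => ((h.zw hb w).dens hb _).cs.avg _ _)
      (fun w _ => avg_nonneg _ _ ((h.zw hb w).dens hb _).nonneg)
  have e3 := av_sub (fun w : ι → Fin (b ^ n) => gap (cls F w) Y (dn b (zm (b ^ n) (dv w) Z) i))
    (fun w => gap (cls F w) (fun v => (b:ℝ) ^ ((i:ℤ) - 1) • X b n Z v)
        (dn b (zm (b ^ n) (dv w) Z) ((i:ℤ) - 1)))
  simp only [e1] at e3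
  rw [av_sub] at e3
  unfold gl
  linarith

theorem Bz.gap_chain [NeZero b] (h : Bz b R Z) (hb : 2 ≤ b) (n i r : ℕ) (hr : r ≤ i)
    (hr2 : 2 * ((b:ℝ) ^ r)⁻¹ ≤ 1)
    {κ : Type*} [DecidableEq κ] (F : (ι → Fin (b ^ n)) → κ)
    (hF : ∀ w w', F w = F w' → zm (b ^ n) (dv w) Z = zm (b ^ n) (dv w') Z ∧
      ‖(b:ℝ) ^ i • (X b n Z w - X b n Z w')‖ ≤ 1) :
    av (fun w : ι → Fin (b ^ n) => gap (cls F w)
        (fun v => (b:ℝ) ^ (i:ℤ) • X b n Z v) (dn b (zm (b ^ n) (dv w) Z) i)) ≤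
      KK ι * (2 * ((b:ℝ) ^ r)⁻¹) + ∑ j ∈ Finset.range r, gl b n Z (i - j) := by
  have hb0 : 0 < b := by omega
  have hbr : (0:ℝ) < b := by exact_mod_cast hb0
  have hb' : (b:ℝ) ≠ 0 := by positivity
  set g : ℕ → ℝ := fun j => av (fun w : ι → Fin (b ^ n) => gap (cls F w)
        (fun v => (b:ℝ) ^ ((i:ℤ) - j) • X b n Z v) (dn b (zm (b ^ n) (dv w) Z) ((i:ℤ) - j)))
    with hg
  have h1 : ∀ s, s ≤ r → g 0 ≤ g s + ∑ j ∈ Finset.range s, gl b n Z (i - j) := by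
    intro s hs
    induction s with
    | zero => simp
    | succ s ih =>
      have h3 := ih (by omega)
      have h2 := h.gap_step hb0 n (i - s) F (fun w w' hw => (hF w w' hw).1)
      have h4 : g s ≤ g (s + 1) + gl b n Z (i - s) := by
        rw [hg]
        simp only
        have h5 : ((i - s : ℕ) : ℤ) = (i:ℤ) - s := by
          rw [Nat.cast_sub (by omega)]
        have h6 : (i:ℤ) - ((s + 1 : ℕ) : ℤ) = (i:ℤ) - s - 1 := by push_cast; ring
        rw [h5] at h2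
        rw [h6]
        exact h2
      rw [Finset.sum_range_succ]
      linarith
  have h2 : g r ≤ KK ι * (2 * ((b:ℝ) ^ r)⁻¹) := by
    rw [hg]
    refine (av_mono fun w => ?_).trans (le_of_eq (av_const (KK ι * (2 * ((b:ℝ) ^ r)⁻¹))))
    refine (h.zw hb0 w).gap_small hb _ (cls_ne F w) _ hr2 (by positivity) ?_
    intro v hv v' hv'
    rw [mem_cls] at hv hv'
    have h4 := (hF v v' (hv.trans hv'.symm)).2
    rw [← smul_sub]
    have h5 : (b:ℝ) ^ ((i:ℤ) - r) • (X b n Z v - X b n Z v') =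
        ((b:ℝ) ^ r)⁻¹ • ((b:ℝ) ^ i • (X b n Z v - X b n Z v')) := by
      rw [smul_smul]
      congr 1
      rw [zpow_sub₀ hb', zpow_natCast, zpow_natCast]
      field_simp
    rw [h5, norm_smul, Real.norm_of_nonneg (by positivity)]
    have : (0:ℝ) < ((b:ℝ) ^ r)⁻¹ := by positivity
    nlinarith
  have h3 := h1 r le_rfl
  have h4 : g 0 = av (fun w : ι → Fin (b ^ n) => gap (cls F w)
        (fun v => (b:ℝ) ^ (i:ℤ) • X b n Z v) (dn b (zm (b ^ n) (dv w) Z) i)) := by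
    rw [hg]
    simp
  rw [← h4]
  linarith

/-- The mean translation norm within the classes. -/
theorem Bz.pair_chain [NeZero b] (h : Bz b R Z) (hb : 2 ≤ b) (n i r : ℕ) (hr : r ≤ i)
    (hr2 : 2 * ((b:ℝ) ^ r)⁻¹ ≤ 1) {lam : ℝ} (hl : 0 < lam)
    {κ : Type*} [DecidableEq κ] (F : (ι → Fin (b ^ n)) → κ)
    (hF : ∀ w w', F w = F w' → zm (b ^ n) (dv w) Z = zm (b ^ n) (dv w') Z ∧
      ‖(b:ℝ) ^ i • (X b n Z w - X b n Z w')‖ ≤ 1) :
    av (fun w : ι → Fin (b ^ n) => pairN (cls F w)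
        (fun v => (b:ℝ) ^ i • X b n Z v) (nrm (dn b (zm (b ^ n) (dv w) Z) i))) ≤
      (KK ι * (2 * ((b:ℝ) ^ r)⁻¹) + ∑ j ∈ Finset.range r, gl b n Z (i - j)) / lam + 4 * lam := by
  have h1 := h.gap_chain hb n i r hr hr2 F hF
  have h2 : ∀ w : ι → Fin (b ^ n), pairN (cls F w)
        (fun v => (b:ℝ) ^ i • X b n Z v) (nrm (dn b (zm (b ^ n) (dv w) Z) i)) ≤
      lam⁻¹ * gap (cls F w) (fun v => (b:ℝ) ^ (i:ℤ) • X b n Z v)
        (dn b (zm (b ^ n) (dv w) Z) i) + 4 * lam := by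
    intro w
    have h5 := pair_le_gap (cls_ne F w) (fun v => (b:ℝ) ^ (i:ℤ) • X b n Z v)
      ((h.zw (by omega) w).dens (by omega : 0 < b) i) hl
    simp only [zpow_natCast] at h5 ⊢
    rw [div_eq_inv_mul] at h5
    exact h5
  refine (av_mono h2).trans ?_
  rw [av_add, av_mul, av_const, div_eq_inv_mul]
  have : 0 ≤ lam⁻¹ := by positivity
  have h3 := mul_le_mul_of_nonneg_left h1 this
  linarith

end Pool.Agent.V7H68.UF
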