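import Pool.Agent.V7H68.UF.Chain
import Pool.Agent.V7H68.MS.Inv

/-!
The entropy gained from a nearly invariant direction.
-/

namespace Pool.Agent.V7H68.UF

open Finset Real MeasureTheory SS MS

set_option linter.unusedSectionVars false

variable {ι : Type} [Fintype ι] [DecidableEq ι] {b : ℕ} {R : ℝ} {Z : (ι → ℝ) → ι → ℝ}

/-- Projection along `y` onto the vectors with vanishing coordinate `p`. -/
noncomputable def pj (y : ι → ℝ) (p : ι) : (ι → ℝ) →ₗ[ℝ] (ι → ℝ) where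
  toFun x := x - (x p / y p) • y
  map_add' x x' := by
    funext i
    simp only [Pi.add_apply, Pi.sub_apply, Pi.smul_apply, smul_eq_mul]
    ring
  map_smul' c x := by
    funext i
    simp only [Pi.sub_apply, Pi.smul_apply, smul_eq_mul, RingHom.id_apply]
    ring

theorem pj_apply (y : ι → ℝ) (p : ι) (x : ι → ℝ) : pj y p x = x - (x p / y p) • y := rfl

theorem pj_norm {y : ι → ℝ} {p : ι} (hp : |y p| = ‖y‖) (hy : y ≠ 0) (x : ι → ℝ) :
    ‖pj y p x‖ ≤ 2 * ‖x‖ := by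
  have h0 : 0 < ‖y‖ := norm_pos_iff.2 hy
  rw [pj_apply]
  refine (norm_sub_le _ _).trans ?_
  rw [norm_smul, Real.norm_eq_abs, abs_div, hp, div_mul_cancel₀ _ h0.ne']
  have h1 : |x p| ≤ ‖x‖ := by
    have := norm_le_pi_norm x p
    rwa [Real.norm_eq_abs] at this
  linarith

theorem pj_self {y : ι → ℝ} {p : ι} (h : y p ≠ 0) : pj y p y = 0 := by
  rw [pj_apply, div_self h, one_smul, sub_self]

theorem pj_smul {y : ι → ℝ} {p : ι} {c : ℝ} (hc : c ≠ 0) : pj (c • y) p = pj y p := by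
  ext x i
  simp only [pj, LinearMap.coe_comp, Function.comp_apply, LinearMap.coe_mk,
    AddHom.coe_mk, Pi.sub_apply, Pi.smul_apply, smul_eq_mul]
  have : (LinearMap.single ℝ (fun _ => ℝ) x) 1 p / (c * y p) * (c * y i) =
      (LinearMap.single ℝ (fun _ => ℝ) x) 1 p / y p * y i := by
    by_cases hy : y p = 0
    · simp [hy]
    · field_simp
  rw [this]

theorem X_lin (n : ℕ) (Z : (ι → ℝ) → ι → ℝ) (P : (ι → ℝ) →ₗ[ℝ] (ι → ℝ))
    (w : ι → Fin (b ^ n)) : X b n (fun u => P (Z u)) w = P (X b n Z w) := by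
  unfold X
  rw [map_smul]

theorem Bz.coarse_avg (h : Bz b R Z) (hb : 0 < b) {Ξ : Type*} [Fintype Ξ] (T : Ξ → ι → ℝ)
    (k : ℤ) (i : ℕ) :
    SS.coarse b (avg Finset.univ (fun t => ((b:ℝ) ^ i)⁻¹ • T t) (dn b Z (k - i))) =
      avg Finset.univ (fun t => ((b:ℝ) ^ (i + 1))⁻¹ • T t) (dn b Z (k - (i + 1 : ℕ))) := by
  rw [SS.coarse_avg hb, h.coarse hb]
  congr 1
  · funext t
    rw [smul_smul]
    congr 1
    rw [pow_succ, mul_inv]
    ring
  · congr 1
    push_cast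
    ring

theorem Bz.ent_avg_shifts (h : Bz b R Z) (hb : 0 < b) {Ξ : Type*} [Fintype Ξ] (T : Ξ → ι → ℝ)
    (k : ℤ) (r : ℕ) :
    ent (avg Finset.univ T (dn b Z k)) =
      ent (avg Finset.univ (fun t => ((b:ℝ) ^ r)⁻¹ • T t) (dn b Z (k - r))) +
      ∑ i ∈ Finset.range r,
        inc b (avg Finset.univ (fun t => ((b:ℝ) ^ i)⁻¹ • T t) (dn b Z (k - i))) := by
  induction r with
  | zero => simp
  | succ r ih =>
    rw [ih, Finset.sum_range_succ]
    have : inc b (avg Finset.univ (fun t => ((b:ℝ) ^ r)⁻¹ • T t) (dn b Z (k - r))) =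
        ent (avg Finset.univ (fun t => ((b:ℝ) ^ r)⁻¹ • T t) (dn b Z (k - r))) -
        ent (avg Finset.univ (fun t => ((b:ℝ) ^ (r + 1))⁻¹ • T t)
          (dn b Z (k - (r + 1 : ℕ)))) := by
      unfold inc
      rw [h.coarse_avg hb]
    rw [this]
    ring

/-- The threshold for invariance. -/
noncomputable def dq (b q : ℕ) : ℝ := (2 * (b:ℝ) ^ (2 * q) * (1 + q * log b))⁻¹

theorem dq_pos (hb : 2 ≤ b) (q : ℕ) : 0 < dq b q := by
  have hb1 : (1:ℝ) ≤ b := by exact_mod_cast (by omega : 1 ≤ b)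
  have := Real.log_nonneg hb1
  unfold dq
  positivity

theorem nrm_nsmul_le {p : (ι → ℝ) → ℝ} (hp : CS p) (y : ι → ℝ) (j : ℕ) :
    nrm p ((j:ℝ) • y) ≤ j * nrm p y := by
  induction j with
  | zero => simp [nrm_zero]
  | succ j ih =>
    have h1 : ((j + 1 : ℕ) : ℝ) • y = (j:ℝ) • y + y := by push_cast; rw [add_smul, one_smul]
    rw [h1]
    have h2 := nrm_add hp ((j:ℝ) • y) y
    push_cast
    linarith

/-- The constant of `inv_gain`. -/
noncomputable def C1 (ι : Type) [Fintype ι] (R : ℝ) (K : ℕ) : ℝ :=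
  1 + volume.real (Metric.closedBall (0 : ι → ℝ) (1 + R + 2)) +
    ((2 * (1 + 2 * R + 2)) ^ Fintype.card ι + Fintype.card ι * log 7 +
      Fintype.card ι * log (2 * K + 1))

theorem Bz.inv_lower [NeZero b] (h : Bz b R Z) (hb : 2 ≤ b) {u : ι → ℝ} {p : ι}
    (hp : |u p| = ‖u‖) (hu : 1 ≤ ‖u‖) {K : ℕ} (hK : 1 + R + 1 ≤ K) (q : ℕ) :
    q * log b + En b (fun θ => pj u p (Z θ)) q ≤
    ent (avg Finset.univ (fun j : Fin (b ^ q) => ((j : ℕ) : ℝ) • u) (dn b Z q)) +
      ((2 * (1 + 2 * R + 2)) ^ Fintype.card ι + Fintype.card ι * log 7 +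
      Fintype.card ι * log (2 * K + 1)) := by
  classical
  have hbp : 0 < b := by omega
  have hb0 : (0:ℝ) < b := by exact_mod_cast hbp
  have hun : u ≠ 0 := by
    intro h0
    rw [h0, norm_zero] at hu
    linarith
  have hup : u p ≠ 0 := by
    intro h0
    rw [h0, abs_zero] at hp
    linarith
  set G' : (ι → ℝ) → ι → ℝ := fun θ => pj u p (Z θ) with hG'
  have hR := h.R0
  have hB' : Bz b (2 * R) G' := h.lin (pj u p) (pj_norm hp hun) (by norm_num)
  set M : ℝ := (2 * ((3:ℕ):ℝ) + 1) ^ Fintype.card ι with hM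
  have hM0 : 0 < M := by positivity
  have hlogM : log M = Fintype.card ι * log 7 := by
    rw [hM, Real.log_pow]
    norm_num
  have hbq : 0 < b ^ q := pow_pos hbp q
  have : Nonempty (Fin (b ^ q)) := ⟨⟨0, hbq⟩⟩
  set T : Fin (b ^ q) → ι → ℝ := fun j => ((j : ℕ) : ℝ) • u with hT
  have e1 := h.block hbp 0 q
  simp only [zpow_zero, one_smul, zero_add] at e1
  have e1' := hB'.block hbp 0 q
  simp only [zpow_zero, one_smul, zero_add] at e1'
  unfold En
  rw [e1, avg_mixT2, e1']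
  set Y : Fin (b ^ q) × (ι → Fin (b ^ q)) → ι → ℝ := fun z => T z.1 + X b q Z z.2 with hY
  have h1 := mix_lower (fun z : Fin (b ^ q) × (ι → Fin (b ^ q)) =>
      (h.zw hbp z.2).dens hbp 0)
    (R := 1 + R) (fun z u hu => (h.zw hbp z.2).supp _ hbp (by simpa using hu)) hK Y
  have h2 := mix_upper (fun w : ι → Fin (b ^ q) => (hB'.zw hbp w).dens hbp 0)
    (R := 1 + 2 * R) (by linarith) (fun w u hu => (hB'.zw hbp w).supp _ hbp (by simpa using hu))
    (fun w => X b q G' w)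
  set N : ℝ := (Fintype.card (ι → Fin (b ^ q)) : ℝ) with hN
  have hNpos : 0 < N := by rw [hN]; exact_mod_cast Fintype.card_pos
  set F' : (ι → Fin (b ^ q)) → ι → ℤ := fun w => fl (X b q G' w) with hF'
  set Rl : (ι → Fin (b ^ q)) → (ι → Fin (b ^ q)) → Prop := fun v w =>
    ∀ j, |F' w j - F' v j| ≤ ((3:ℕ):ℤ) with hRl
  set nr : (ι → Fin (b ^ q)) → ℝ := fun w => ((Finset.univ.filter (fun v => Rl v w)).card : ℝ)
    with hnr
  have hnrpos : ∀ w, 0 < nr w := by
    intro w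
    rw [hnr]
    simp only
    have : 0 < (Finset.univ.filter (fun v => Rl v w)).card := by
      rw [Finset.card_pos]
      exact ⟨w, by simp [hRl]⟩
    exact_mod_cast this
  have hsum : ∑ w, nr w / (cls F' w).card ≤ N * M := by
    refine sum_rel_le F' Rl (fun v => Fintype.piFinset fun j =>
      Finset.Icc (F' v j - ((3:ℕ):ℤ)) (F' v j + ((3:ℕ):ℤ))) (fun v w hvw => ?_) (fun v => ?_)
    · rw [Fintype.mem_piFinset]
      intro j
      rw [Finset.mem_Icc]
      have := abs_le.1 (hvw j)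
      constructor <;> omega
    · rw [hM]
      exact le_of_eq (card_box (F' v) 3)
  have hlog := mean_log_le F' hnrpos hM0 hsum
  -- class sizes in the product
  have hcls : ∀ z : Fin (b ^ q) × (ι → Fin (b ^ q)),
      ((cls (fun z => fl (Y z)) z).card : ℝ) ≤ nr z.2 := by
    intro z
    rw [hnr]
    simp only
    refine Nat.cast_le.2 ?_
    refine Finset.card_le_card_of_injOn (fun z => z.2) ?_ ?_
    · intro z' hz'
      have hz1 : fl (Y z') = fl (Y z) :=
        (mem_cls (F := fun z => fl (Y z))).1 (Finset.mem_coe.1 hz')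
      have h3 := norm_sub_le_of_fl2 hz1.symm
      simp only [Finset.coe_filter, Finset.mem_univ, true_and, Set.mem_ofPred_eq, hRl]
      intro j
      have h4 : ‖X b q G' z.2 - X b q G' z'.2‖ ≤ 2 := by
        rw [hG', X_lin, X_lin, ← map_sub]
        have h5 : pj u p (X b q Z z.2 - X b q Z z'.2) = pj u p (Y z - Y z') := by
          rw [hY]
          simp only [hT, map_sub, map_add, map_smul, pj_self hup, smul_zero]
          abel
        rw [h5]
        refine (pj_norm hp hun _).trans ?_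
        linarith
      refine fl_near (K := 3) ?_ j
      push_cast
      linarith
    · intro z1 hz1 z2 hz2 h12
      have e1 : fl (Y z1) = fl (Y z) := (mem_cls (F := fun z => fl (Y z))).1 (Finset.mem_coe.1 hz1)
      have e2 : fl (Y z2) = fl (Y z) := (mem_cls (F := fun z => fl (Y z))).1 (Finset.mem_coe.1 hz2)
      have e3 : ⌊Y z1 p⌋ = ⌊Y z2 p⌋ := congrFun (e1.trans e2.symm) p
      have e4 := Int.abs_sub_lt_one_of_floor_eq_floor e3
      have e5 : Y z1 p - Y z2 p = (((z1.1 : ℕ) : ℝ) - ((z2.1 : ℕ) : ℝ)) * u p := by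
        rw [hY]
        simp only [hT, Pi.add_apply, Pi.smul_apply, smul_eq_mul]
        simp only at h12
        rw [h12]
        ring
      rw [e5, abs_mul, hp] at e4
      have e6 : |((z1.1 : ℕ) : ℝ) - ((z2.1 : ℕ) : ℝ)| < 1 := by
        by_contra hcon
        rw [not_lt] at hcon
        nlinarith [norm_nonneg u]
      have e7 : (z1.1 : ℕ) = (z2.1 : ℕ) := by
        have e8 : |(((z1.1 : ℕ) : ℤ) - ((z2.1 : ℕ) : ℤ) : ℤ)| < 1 := by exact_mod_cast e6
        rw [Int.abs_lt_one_iff] at e8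
        omega
      exact Prod.ext (Fin.ext e7) h12
  have hhf : hf (fun z => fl (Y z)) ≤ ∑ w, N⁻¹ * log (nr w) := by
    unfold hf
    have h3 : ∀ z : Fin (b ^ q) × (ι → Fin (b ^ q)), z ∈ (Finset.univ : Finset _) →
        (Fintype.card (Fin (b ^ q) × (ι → Fin (b ^ q))) : ℝ)⁻¹ *
          log ((cls (fun z => fl (Y z)) z).card) ≤
        (Fintype.card (Fin (b ^ q) × (ι → Fin (b ^ q))) : ℝ)⁻¹ * log (nr z.2) := fun z _ =>
      mul_le_mul_of_nonneg_left (Real.log_le_log (cls_pos _ z) (hcls z)) (by positivity)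
    refine (Finset.sum_le_sum h3).trans (le_of_eq ?_)
    rw [Fintype.sum_prod_type]
    simp only [Finset.sum_const, Finset.card_univ, Fintype.card_fin, nsmul_eq_mul]
    rw [Finset.mul_sum]
    refine Finset.sum_congr rfl fun w _ => ?_
    rw [Fintype.card_prod, Fintype.card_fin]
    push_cast
    rw [← hN, mul_inv]
    field_simp
  have hcard : log (Fintype.card (Fin (b ^ q) × (ι → Fin (b ^ q)))) = q * log b + log N := by
    rw [Fintype.card_prod, Fintype.card_fin]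
    push_cast
    rw [Real.log_mul (by positivity) (by rw [← hN]; exact hNpos.ne'), Real.log_pow]
  rw [hcard] at h1
  rw [hlogM] at hlog
  linarith

theorem Bz.inv_gain [NeZero b] (h : Bz b R Z) (hb : 2 ≤ b) {y : ι → ℝ} {p : ι}
    (hp : |y p| = ‖y‖) {q : ℕ} (hy1 : ((b:ℝ) ^ q)⁻¹ ≤ ‖y‖) (hy2 : ‖y‖ ≤ 1) (i0 : ℕ)
    (hn : nrm (dn b Z ((i0 + q : ℕ) : ℤ)) y ≤ dq b q) {K : ℕ} (hK : 1 + R + 1 ≤ K) :
    q * log b + av (fun v : ι → Fin (b ^ i0) => En b (fun θ => pj y p (zm (b ^ i0) (dv v) Z θ)) q)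
      - C1 ι R K ≤ En b Z (i0 + q) - En b Z i0 := by
  have hbp : 0 < b := by omega
  have hb0 : (0:ℝ) < b := by exact_mod_cast hbp
  have hb1 : (1:ℝ) ≤ b := by exact_mod_cast (by omega : 1 ≤ b)
  have hlb : 0 ≤ log b := Real.log_nonneg hb1
  have hbqr : (0:ℝ) < (b:ℝ) ^ q := by positivity
  have hy0 : 0 < ‖y‖ := lt_of_lt_of_le (by positivity) hy1
  have hR := h.R0
  set Nn : ℕ := ⌈‖y‖⁻¹⌉₊ with hNn
  have hN1 : ‖y‖⁻¹ ≤ Nn := Nat.le_ceil _
  have hN2 : (Nn:ℝ) < ‖y‖⁻¹ + 1 := Nat.ceil_lt_add_one (by positivity)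
  have hN3 : (Nn:ℝ) ≤ 2 * (b:ℝ) ^ q := by
    have h1 : ‖y‖⁻¹ ≤ (b:ℝ) ^ q := by
      rw [inv_le_comm₀ hy0 hbqr]
      exact hy1
    have h2 : (1:ℝ) ≤ (b:ℝ) ^ q := one_le_pow₀ hb1
    linarith
  have hN0 : (Nn:ℝ) ≠ 0 := by
    have : 0 < ‖y‖⁻¹ := by positivity
    linarith
  set u : ι → ℝ := (Nn:ℝ) • y with hu
  have hunorm : ‖u‖ = Nn * ‖y‖ := by
    rw [hu, norm_smul, Real.norm_of_nonneg (by positivity)]
  have hu1 : 1 ≤ ‖u‖ := by
    rw [hunorm]
    have := mul_le_mul_of_nonneg_right hN1 hy0.le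
    rwa [inv_mul_cancel₀ hy0.ne'] at this
  have hu2 : ‖u‖ ≤ 2 := by
    rw [hunorm]
    have := mul_le_mul_of_nonneg_right hN2.le hy0.le
    rw [add_mul, inv_mul_cancel₀ hy0.ne'] at this
    linarith
  have hup : |u p| = ‖u‖ := by
    rw [hunorm, hu, Pi.smul_apply, smul_eq_mul, abs_mul, hp, abs_of_nonneg (by positivity)]
  have hbq : 0 < b ^ q := pow_pos hbp q
  have : Nonempty (Fin (b ^ q)) := ⟨⟨0, hbq⟩⟩
  set T : Fin (b ^ q) → ι → ℝ := fun j => ((j : ℕ) : ℝ) • u with hT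
  have hTne : (Finset.univ : Finset (Fin (b ^ q))).Nonempty := Finset.univ_nonempty
  have hcardT : ((Finset.univ : Finset (Fin (b ^ q))).card : ℝ) = (b:ℝ) ^ q := by simp
  set i : ℕ := i0 + q with hi
  have hd := h.dens hbp (i:ℤ)
  have hnT : ∀ j j', nrm (dn b Z i) (T j - T j') ≤ 2 * (b:ℝ) ^ (2 * q) * dq b q := by
    have key : ∀ j j' : Fin (b ^ q), (j':ℕ) ≤ j →
        nrm (dn b Z i) (T j - T j') ≤ 2 * (b:ℝ) ^ (2 * q) * dq b q := by
      intro j j' hj
      have e1 : T j - T j' = ((((j:ℕ) - (j':ℕ)) * Nn : ℕ) : ℝ) • y := by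
        rw [hT, hu]
        simp only
        rw [smul_smul, smul_smul, ← sub_smul]
        congr 1
        push_cast [Nat.cast_sub hj]
        ring
      rw [e1]
      refine (nrm_nsmul_le hd.cs y _).trans ?_
      have e2 : (((((j:ℕ) - (j':ℕ)) * Nn : ℕ)) : ℝ) ≤ 2 * (b:ℝ) ^ (2 * q) := by
        push_cast [Nat.cast_sub hj]
        have e3 : ((j:ℕ):ℝ) ≤ (b:ℝ) ^ q := by exact_mod_cast j.2.le
        have e4 : (0:ℝ) ≤ ((j':ℕ):ℝ) := by positivity
        have e5 : (0:ℝ) ≤ (Nn:ℝ) := by positivity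
        have e6 : (b:ℝ) ^ (2 * q) = (b:ℝ) ^ q * (b:ℝ) ^ q := by rw [two_mul, pow_add]
        rw [e6]
        have e7 : (((j:ℕ):ℝ) - ((j':ℕ):ℝ)) * Nn ≤ (b:ℝ) ^ q * Nn :=
          mul_le_mul_of_nonneg_right (by linarith) e5
        have e8 : (b:ℝ) ^ q * Nn ≤ (b:ℝ) ^ q * (2 * (b:ℝ) ^ q) :=
          mul_le_mul_of_nonneg_left hN3 hbqr.le
        linarith
      exact mul_le_mul e2 hn (nrm_nonneg _ _) (by positivity)
    intro j j'
    rcases le_total (j':ℕ) (j:ℕ) with h1 | h1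
    · exact key j j' h1
    · have h2 := key j' j h1
      rw [← nrm_neg, neg_sub]
      exact h2
  have hgap : gap Finset.univ T (dn b Z i) ≤ 1 := by
    refine (gap_le_pair hTne T hd.cs hd.nonneg).trans ?_
    have h1 : pairN Finset.univ T (nrm (dn b Z i)) ≤ 2 * (b:ℝ) ^ (2 * q) * dq b q := by
      unfold pairN
      have hc : (0:ℝ) < ((Finset.univ : Finset (Fin (b ^ q))).card : ℝ) := by
        exact_mod_cast Finset.card_pos.2 hTne
      calc _ ≤ ∑ w ∈ (Finset.univ : Finset (Fin (b ^ q))),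
            ((Finset.univ : Finset (Fin (b ^ q))).card : ℝ)⁻¹ *
            ∑ w' ∈ (Finset.univ : Finset (Fin (b ^ q))),
              ((Finset.univ : Finset (Fin (b ^ q))).card : ℝ)⁻¹ *
                (2 * (b:ℝ) ^ (2 * q) * dq b q) := by
            refine Finset.sum_le_sum fun w _ => mul_le_mul_of_nonneg_left ?_ (by positivity)
            refine Finset.sum_le_sum fun w' _ => mul_le_mul_of_nonneg_left ?_ (by positivity)
            exact hnT w w'
        _ = 2 * (b:ℝ) ^ (2 * q) * dq b q := by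
            simp only [Finset.sum_const, nsmul_eq_mul]
            field_simp
    have h2 : (0:ℝ) < 1 + q * log b := by positivity
    rw [hcardT, Real.log_pow]
    refine (mul_le_mul_of_nonneg_left h1 h2.le).trans (le_of_eq ?_)
    unfold dq
    have h3 : (0:ℝ) < (b:ℝ) ^ (2 * q) := by positivity
    field_simp
  -- big window
  have h1 := h.ent_avg_shifts hbp T (i:ℤ) q
  have hiq : (i:ℤ) - (q:ℤ) = (i0:ℤ) := by rw [hi]; push_cast; ring
  rw [hiq] at h1
  have h4 : 0 ≤ gap Finset.univ (fun t => ((b:ℝ) ^ q)⁻¹ • T t) (dn b Z i0) :=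
    gap_nonneg hTne _ (h.dens hbp _).cs (h.dens hbp _).nonneg
  -- decomposition along words
  have h5 : ∀ i' ∈ Finset.range q,
      av (fun v : ι → Fin (b ^ i0) => inc b (avg Finset.univ (fun t => ((b:ℝ) ^ i')⁻¹ • T t)
        (dn b (zm (b ^ i0) (dv v) Z) ((q:ℤ) - i')))) ≤
      inc b (avg Finset.univ (fun t => ((b:ℝ) ^ i')⁻¹ • T t) (dn b Z ((i:ℤ) - i'))) := by
    intro i' _
    have e1 : (i:ℤ) - i' = ((q:ℤ) - i') + i0 := by rw [hi]; push_cast; ring
    rw [e1, h.block hbp ((q:ℤ) - i') i0, avg_mixT]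
    exact inc_mixT hbp (fun z => ((h.zw hbp z).dens hbp _).avg hTne _) _
  have h6 := Finset.sum_le_sum h5
  rw [← av_sum] at h6
  have h7 : ∀ v : ι → Fin (b ^ i0), ∑ i' ∈ Finset.range q,
      inc b (avg Finset.univ (fun t => ((b:ℝ) ^ i')⁻¹ • T t)
        (dn b (zm (b ^ i0) (dv v) Z) ((q:ℤ) - i'))) =
      ent (avg Finset.univ T (dn b (zm (b ^ i0) (dv v) Z) q)) -
        ent (avg Finset.univ (fun t => ((b:ℝ) ^ q)⁻¹ • T t)
          (dn b (zm (b ^ i0) (dv v) Z) ((q:ℤ) - q))) := by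
    intro v
    rw [(h.zw hbp v).ent_avg_shifts hbp T q q]
    ring
  simp only [h7] at h6
  have h8 : ∀ v : ι → Fin (b ^ i0), ent (avg Finset.univ (fun t => ((b:ℝ) ^ q)⁻¹ • T t)
      (dn b (zm (b ^ i0) (dv v) Z) ((q:ℤ) - q))) ≤
      volume.real (Metric.closedBall (0 : ι → ℝ) (1 + R + 2)) := by
    intro v
    refine ent_le_vol (((h.zw hbp v).dens hbp _).avg hTne _) ?_
    refine avg_supp _ _ ?_ ?_
    · rw [sub_self]
      exact fun x hx => (h.zw hbp v).supp 0 hbp (by simpa using hx)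
    · intro t _
      rw [hT]
      simp only
      rw [smul_smul, norm_smul]
      have ht : ((t : ℕ) : ℝ) ≤ (b:ℝ) ^ q := by exact_mod_cast t.2.le
      have h9 : ‖((b:ℝ) ^ q)⁻¹ * ((t:ℕ):ℝ)‖ ≤ 1 := by
        rw [Real.norm_of_nonneg (by positivity), inv_mul_le_iff₀ (by positivity), mul_one]
        exact ht
      nlinarith [norm_nonneg u, norm_nonneg (((b:ℝ) ^ q)⁻¹ * ((t:ℕ):ℝ))]
  have h9 : ∀ v : ι → Fin (b ^ i0), q * log b + En b (fun θ => pj y p (zm (b ^ i0) (dv v) Z θ)) q -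
      (((2 * (1 + 2 * R + 2)) ^ Fintype.card ι + Fintype.card ι * log 7 +
      Fintype.card ι * log (2 * K + 1)) +
        volume.real (Metric.closedBall (0 : ι → ℝ) (1 + R + 2))) ≤
      ent (avg Finset.univ T (dn b (zm (b ^ i0) (dv v) Z) q)) -
        ent (avg Finset.univ (fun t => ((b:ℝ) ^ q)⁻¹ • T t)
          (dn b (zm (b ^ i0) (dv v) Z) ((q:ℤ) - q))) := by
    intro v
    have e1 := (h.zw hbp v).inv_lower hb hup hu1 hK q
    rw [hu, pj_smul hN0] at e1
    have e2 := h8 v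
    have e3 : T = fun j : Fin (b ^ q) => ((j : ℕ) : ℝ) • (Nn:ℝ) • y := rfl
    rw [e3] at e2 ⊢
    linarith
  have h10 := av_mono h9
  rw [av_sub, av_add, av_const, av_const] at h10
  unfold gap at hgap h4
  have h11 : En b Z i = ent (dn b Z i) := rfl
  have h12 : En b Z i0 = ent (dn b Z i0) := rfl
  rw [h11, h12]
  unfold C1
  have h13 : av (fun v : ι → Fin (b ^ i0) =>
      En b (fun θ => pj y p (zm (b ^ i0) (dv v) Z θ)) q) = av (fun v : ι → Fin (b ^ i0) =>
      En b (fun θ => (pj y p) (zm (b ^ i0) (dv v) Z θ)) q) := rfl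
  linarith

end Pool.Agent.V7H68.UF
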