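import Pool.Agent.V7H68.UF.Core

/-!
The volume of neighbourhoods of sets of lines.
-/

namespace Pool.Agent.V7H68.UF

open Finset Real MeasureTheory SS MS Filter
open scoped ENNReal

set_option linter.unusedSectionVars false

variable {ι : Type} [Fintype ι] [DecidableEq ι] {b : ℕ}

theorem slices_ge {Y : Set ((ι → ℝ) × ℝ)} (hY : MeasurableSet Y)
    (hYc : Y ⊆ cube ι ×ˢ Set.Icc (0:ℝ) 1) {lam : ℝ} (hlam : 0 < lam)
    (hv : ENNReal.ofReal lam ≤ volume Y) :
    MeasurableSet {t | ENNReal.ofReal (lam / 2) ≤ volume ((fun v => (v, t)) ⁻¹' Y)} ∧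
    {t | ENNReal.ofReal (lam / 2) ≤ volume ((fun v => (v, t)) ⁻¹' Y)} ⊆ Set.Icc 0 1 ∧
    ENNReal.ofReal (lam / 2) ≤
      volume {t | ENNReal.ofReal (lam / 2) ≤ volume ((fun v => (v, t)) ⁻¹' Y)} := by
  have hm : Measurable fun t : ℝ => volume ((fun v : ι → ℝ => (v, t)) ⁻¹' Y) :=
    measurable_measure_prodMk_right hY
  set T : Set ℝ := {t | ENNReal.ofReal (lam / 2) ≤ volume ((fun v => (v, t)) ⁻¹' Y)} with hT
  have hTm : MeasurableSet T := measurableSet_le measurable_const hm
  have hempty : ∀ t, t ∉ Set.Icc (0:ℝ) 1 → (fun v : ι → ℝ => (v, t)) ⁻¹' Y = ∅ := by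
    intro t ht
    ext v
    simp only [Set.mem_preimage, Set.mem_empty_iff_false, iff_false]
    exact fun h => ht (hYc h).2
  have hTs : T ⊆ Set.Icc 0 1 := by
    intro t ht
    by_contra hc
    have h1 : ENNReal.ofReal (lam / 2) ≤ volume ((fun v : ι → ℝ => (v, t)) ⁻¹' Y) := ht
    rw [hempty t hc, measure_empty] at h1
    have h2 : 0 < ENNReal.ofReal (lam / 2) := ENNReal.ofReal_pos.2 (by positivity)
    exact absurd h1 (not_le.2 h2)
  refine ⟨hTm, hTs, ?_⟩
  have hcube : volume (cube ι) = 1 := by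
    rw [cube_eq, Real.volume_pi_Ico]
    simp
  have h1 : ∀ t, volume ((fun v : ι → ℝ => (v, t)) ⁻¹' Y) ≤
      T.indicator (fun _ => 1) t + (Set.Icc (0:ℝ) 1).indicator
        (fun _ => ENNReal.ofReal (lam / 2)) t := by
    intro t
    by_cases ht : t ∈ T
    · rw [Set.indicator_of_mem ht]
      refine le_trans ?_ le_self_add
      rw [← hcube]
      exact measure_mono fun v hv => (hYc hv).1
    · by_cases ht2 : t ∈ Set.Icc (0:ℝ) 1
      · rw [Set.indicator_of_notMem ht, zero_add, Set.indicator_of_mem ht2]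
        have : ¬ ENNReal.ofReal (lam / 2) ≤ volume ((fun v : ι → ℝ => (v, t)) ⁻¹' Y) := ht
        exact (not_le.1 this).le
      · rw [hempty t ht2, measure_empty]
        exact zero_le
  have h2 : volume Y ≤ volume T + ENNReal.ofReal (lam / 2) := by
    rw [Measure.volume_eq_prod, Measure.prod_apply_symm hY]
    refine (lintegral_mono h1).trans ?_
    rw [lintegral_add_left (measurable_const.indicator hTm), lintegral_indicator_const hTm,
      lintegral_indicator_const measurableSet_Icc, one_mul, Real.volume_Icc]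
    simp
  have h3 : ENNReal.ofReal (lam / 2) + ENNReal.ofReal (lam / 2) ≤
      volume T + ENNReal.ofReal (lam / 2) := by
    refine le_trans (le_of_eq ?_) (hv.trans h2)
    rw [← ENNReal.ofReal_add (by positivity) (by positivity)]
    congr 1
    ring
  exact (ENNReal.add_le_add_iff_right ENNReal.ofReal_ne_top).1 h3

/-- Few words have many bad states. -/
theorem few_bad {W : Type} [Fintype W] [Nonempty W] {X : Type} (T : X → W → X) {dd : X → ℝ}
    (hdd : ∀ x, 0 ≤ dd x) {n : ℕ} (hn : 0 < n) (x : X) {κ' κ'' : ℝ} (hκ' : 0 < κ')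
    (h : DD T dd n x ≤ κ'' * n) (S : Finset (Fin n → W)) [DecidablePred fun w : Fin n → W =>
      dcr T dd n x w ≤ κ' * n] :
    (S.card : ℝ) - κ'' / κ' * Fintype.card (Fin n → W) ≤
      (S.filter fun w => dcr T dd n x w ≤ κ' * n).card := by
  classical
  have hn0 : (0:ℝ) < n := by exact_mod_cast hn
  have hN : (0:ℝ) < Fintype.card (Fin n → W) := by exact_mod_cast Fintype.card_pos
  have hnn : ∀ (n : ℕ) (x : X) (w : Fin n → W), 0 ≤ dcr T dd n x w := by
    intro n
    induction n with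
    | zero => intro x w; simp [dcr]
    | succ n ih =>
      intro x w
      simp only [dcr]
      exact add_nonneg (hdd x) (ih _ _)
  have h1 : ((S.filter fun w => ¬ dcr T dd n x w ≤ κ' * n).card : ℝ) * (κ' * n) ≤
      Fintype.card (Fin n → W) * (κ'' * n) := by
    calc _ = ∑ _w ∈ S.filter (fun w => ¬ dcr T dd n x w ≤ κ' * n), κ' * n := by
          rw [Finset.sum_const, nsmul_eq_mul]
      _ ≤ ∑ w ∈ S.filter (fun w => ¬ dcr T dd n x w ≤ κ' * n), dcr T dd n x w := by
          refine Finset.sum_le_sum fun w hw => ?_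
          rw [Finset.mem_filter, not_le] at hw
          exact hw.2.le
      _ ≤ ∑ w, dcr T dd n x w :=
          Finset.sum_le_sum_of_subset_of_nonneg (Finset.subset_univ _) fun w _ _ => hnn n x w
      _ = Fintype.card (Fin n → W) * DD T dd n x := by
          rw [← av_dcr]
          unfold av
          rw [← Finset.mul_sum, ← mul_assoc, mul_inv_cancel₀ hN.ne', one_mul]
      _ ≤ _ := mul_le_mul_of_nonneg_left h hN.le
  have h2 : ((S.filter fun w => ¬ dcr T dd n x w ≤ κ' * n).card : ℝ) ≤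
      κ'' / κ' * Fintype.card (Fin n → W) := by
    rw [div_mul_eq_mul_div, le_div_iff₀ hκ']
    have h3 : n * (((S.filter fun w => ¬ dcr T dd n x w ≤ κ' * n).card : ℝ) * κ') ≤
        n * (κ'' * Fintype.card (Fin n → W)) := by linarith
    exact le_of_mul_le_mul_left h3 hn0
  have h3 : ((S.filter fun w => dcr T dd n x w ≤ κ' * n).card : ℝ) +
      (S.filter fun w => ¬ dcr T dd n x w ≤ κ' * n).card = S.card := by
    exact_mod_cast Finset.card_filter_add_card_filter_not (s := S)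
      (fun w => dcr T dd n x w ≤ κ' * n)
  linarith

open Classical in
theorem uf_main [Nonempty ι] (hb : 2 ≤ b) {R : ℝ} (hR : 0 ≤ R) {p : ℕ → ℕ} {h : ℝ} (hh : 0 ≤ h)
    (hp : ∀ ε : ℝ, 0 < ε → ∀ᶠ k : ℕ in Filter.atTop, log (p k) ≤ (h + ε) * k * log b)
    {F : (ι → ℝ) → ι → ℝ} (hF : ∀ᵐ v ∂(volume.restrict (cube ι)), DifferentiableAt ℝ F v)
    {ε lam : ℝ} (hε : 0 < ε) (hlam : 0 < lam) :
    ∃ (β : ℕ) (c : ℝ), 2 ≤ β ∧ 0 < c ∧ ∀ g : (ι → ℝ) → ι → ℝ, Cl b R p g → ∀ a0 : ι → ℝ,
      ∀ Y : Set ((ι → ℝ) × ℝ), MeasurableSet Y → Y ⊆ cube ι ×ˢ Set.Icc (0:ℝ) 1 →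
      ENNReal.ofReal lam ≤ volume Y → ∀ (n : ℕ) (U : Set ((ι → ℝ) × ℝ)), MeasurableSet U →
      (∀ v t, (v, t) ∈ Y → ∀ y : ι → ℝ,
        (∀ i, |y i - (g v + (F v + a0) + t • v) i| < ((β:ℝ) ^ n)⁻¹) → (y, t) ∈ U) →
      ENNReal.ofReal (c * (((β:ℝ) ^ n)⁻¹) ^ (h + ε)) ≤ volume U := by
  have : NeZero b := ⟨by omega⟩
  have hbp : 0 < b := by omega
  have hb0 : (0:ℝ) < b := by exact_mod_cast hbp
  have hb1 : (1:ℝ) < b := by exact_mod_cast (by omega : 1 < b)
  set L : ℝ := log b with hL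
  have hL0 : 0 < L := Real.log_pos hb1
  set m : ℝ := (Fintype.card ι : ℝ) with hm
  have hm1 : 1 ≤ m := by
    rw [hm]
    exact_mod_cast Fintype.card_pos
  set K0 : ℝ := m * L with hK0
  have hK00 : 0 < K0 := by positivity
  set hE : ℝ := h * L with hhE
  have hE0 : 0 ≤ hE := by positivity
  have hp' : ∀ ε : ℝ, 0 < ε → ∀ᶠ k : ℕ in Filter.atTop, log (p k) ≤ (hE + ε) * k := by
    intro ε hε
    filter_upwards [hp (ε / L) (by positivity)] with k hk
    refine hk.trans (le_of_eq ?_)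
    rw [hhE]
    field_simp
  set lam' : ℝ := lam / 4 with hlam'
  have hlam'0 : 0 < lam' := by positivity
  set η : ℝ := ε * L / 8 with hη
  have hη0 : 0 < η := by positivity
  set κ' : ℝ := min 1 (ε / (32 * m)) with hκ'
  have hκ'0 : 0 < κ' := lt_min one_pos (by positivity)
  have hκ'1 : κ' ≤ 1 := min_le_left _ _
  have hκ'2 : κ' * K0 ≤ ε * L / 32 := by
    have h1 : κ' ≤ ε / (32 * m) := min_le_right _ _
    refine (mul_le_mul_of_nonneg_right h1 hK00.le).trans (le_of_eq ?_)
    rw [hK0]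
    field_simp
  set κ2 : ℝ := κ' * lam' / 2 with hκ2
  have hκ20 : 0 < κ2 := by positivity
  set κ : ℝ := min (κ2 * lam' / 2) lam' with hκ
  have hκ0 : 0 < κ := lt_min (by positivity) hlam'0
  obtain ⟨RM, hRM, hgood⟩ := exists_good hF (ENNReal.ofReal_pos.2 hκ0)
  set C1 : ℝ := (2 * (R + RM + 4)) ^ Fintype.card ι + Fintype.card ι * log 9 with hC1
  have hC10 : 0 ≤ C1 := add_nonneg (by positivity)
    (mul_nonneg (by positivity) (Real.log_nonneg (by norm_num)))
  set K : ℕ := ⌈R + RM + 4⌉₊ with hK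
  have hKR : R + RM + 2 + 2 ≤ K := by
    have := Nat.le_ceil (R + RM + 4)
    rw [hK]
    linarith
  set M1 : ℝ := (2 * (K:ℝ) + 1) ^ Fintype.card ι with hM1
  have hM10 : 1 ≤ M1 := one_le_pow₀ (by have : (0:ℝ) ≤ K := Nat.cast_nonneg K
                                        linarith)
  obtain ⟨N0, hN0⟩ := ml (ι := ι) hb (R := R + RM) (by positivity) hE0 hp' hη0 hκ0
  obtain ⟨q2, hq2⟩ := exists_nat_gt ((C1 + log M1) / (ε * L / 4))
  set q : ℕ := N0 + q2 + 1 with hq
  have hq0 : (0:ℝ) < q := by exact_mod_cast (by omega : 0 < q)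
  set β : ℕ := b ^ q with hβ
  have hβ2 : 2 ≤ β := le_trans hb (Nat.le_self_pow (by omega) b)
  have : NeZero β := ⟨by omega⟩
  obtain ⟨n0, G, hGm, hGc, hGκ, hG⟩ := hgood β hβ2
  have hqr2 : (q2:ℝ) ≤ q := by exact_mod_cast (by omega : q2 ≤ q)
  have hqC : C1 + log M1 ≤ ε * L / 4 * q := by
    have h2 : (C1 + log M1) / (ε * L / 4) < q := lt_of_lt_of_le hq2 hqr2
    rw [div_lt_iff₀ (by positivity)] at h2
    linarith
  set h0 : ℝ := (K0 - hE - η) * q - C1 with hh0
  have hβr : (β:ℝ) = (b:ℝ) ^ q := by rw [hβ]; push_cast; rfl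
  have hβ0 : (0:ℝ) < β := by rw [hβr]; positivity
  have hβ1 : (1:ℝ) ≤ β := by exact_mod_cast (by omega : 1 ≤ β)
  set N : ℝ := (β:ℝ) ^ Fintype.card ι with hN
  have hN0' : 0 < N := by positivity
  have hlogN : log N = q * K0 := by
    rw [hN, hβr, Real.log_pow, Real.log_pow, hK0]
    ring
  set ε1 : ℝ := ε * L / 16 * q with hε1
  have hε10 : 0 < ε1 := by positivity
  obtain ⟨lam0, hlam0, hlam01, hmp⟩ := many_paths (W := ι → Fin β) (Λ := ι → ℤ)
    (le_refl (log (Fintype.card (ι → Fin β)))) hε10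
  set g0 : ℝ := max (h0 - ε1) 0 with hg0
  have hg00 : 0 ≤ g0 := le_max_right _ _
  have hh0K : h0 ≤ q * K0 := by
    rw [hh0]
    have : 0 ≤ (hE + η) * q := by positivity
    linarith
  have hg0K : g0 ≤ q * K0 := max_le (by linarith) (by positivity)
  have hg0κ : g0 * κ' ≤ ε1 / 2 := by
    have h1 : g0 * κ' ≤ q * K0 * κ' := mul_le_mul_of_nonneg_right hg0K hκ'0.le
    have h2 : q * (κ' * K0) ≤ q * (ε * L / 32) := mul_le_mul_of_nonneg_left hκ'2 hq0.le
    rw [hε1]
    linarith
  obtain ⟨n1, hn1⟩ := exists_nat_gt (- log (lam' / 4) / (lam0 * ε1 / 2))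
  rw [div_lt_iff₀ (by positivity)] at hn1
  -- the exponent
  have hexp : -(q * L * (h + ε)) ≤ g0 - ε1 - g0 * κ' - log N - log M1 := by
    have h1 : (h0 - ε1) * (1 - κ') ≤ g0 * (1 - κ') :=
      mul_le_mul_of_nonneg_right (le_max_left _ _) (by linarith)
    have h2 : κ' * h0 ≤ κ' * (q * K0) := mul_le_mul_of_nonneg_left hh0K hκ'0.le
    have h3 : q * (κ' * K0) ≤ q * (ε * L / 32) := mul_le_mul_of_nonneg_left hκ'2 hq0.le
    have h4 : 0 ≤ κ' * ε1 := by positivity
    have h5 : h0 = q * K0 - h * (q * L) - ε * L / 8 * q - C1 := by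
      rw [hh0, hhE, hη]
      ring
    rw [hlogN]
    have h6 : ε1 = ε * L * q / 16 := by rw [hε1]; ring
    have h7 : 0 ≤ ε * L * q := by positivity
    have h8 : q * L * (h + ε) = h * (q * L) + ε * L * q := by ring
    have h9 : g0 * (1 - κ') = g0 - g0 * κ' := by ring
    have h10 : (h0 - ε1) * (1 - κ') = h0 - ε1 - κ' * h0 + κ' * ε1 := by ring
    nlinarith
  refine ⟨β, lam' / 4 * lam' / N ^ n0 * (((β:ℝ) ^ (n1 + 1))⁻¹) ^ (h + ε), hβ2,
    mul_pos (by positivity) (Real.rpow_pos_of_pos (by positivity) _), ?_⟩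
  intro g hg a0 Y hYm hYc hYv n' U hUm hU'
  set n : ℕ := n' + (n1 + 1) with hn
  have hn0 : (0:ℝ) < n := by exact_mod_cast (by omega : 0 < n)
  have hU : ∀ v t, (v, t) ∈ Y → ∀ y : ι → ℝ,
      (∀ i, |y i - (g v + (F v + a0) + t • v) i| < ((β:ℝ) ^ n)⁻¹) → (y, t) ∈ U := by
    intro v t hvt y hy
    refine hU' v t hvt y fun i => (hy i).trans_le ?_
    exact inv_anti₀ (by positivity) (pow_le_pow_right₀ hβ1 (by omega))
  obtain ⟨Tb, hTbm, hTbv, hTb⟩ := core hb (q := q) (n0 := n0) (hE := hE) (by omega) hGm hGκ hG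
    (hN0 q (by omega)) (h0 := h0) (by rw [hh0]) hE0 hη0.le hκ0.le hκ20 hRM hg a0 n
  obtain ⟨hT1m, hT1s, hT1v⟩ := slices_ge hYm hYc hlam hYv
  set T1 : Set ℝ := {t | ENNReal.ofReal (lam / 2) ≤ volume ((fun v => (v, t)) ⁻¹' Y)} with hT1
  have hTv : ENNReal.ofReal lam' ≤ volume (T1 \ Tb) := by
    have h1 : T1 ⊆ (T1 \ Tb) ∪ (Tb ∩ Set.Icc 0 1) := by
      intro t ht
      by_cases h : t ∈ Tb
      · exact Or.inr ⟨h, hT1s ht⟩
      · exact Or.inl ⟨ht, h⟩
    have h2 : volume T1 ≤ volume (T1 \ Tb) + ENNReal.ofReal lam' := by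
      refine (measure_mono h1).trans ((measure_union_le _ _).trans ?_)
      refine add_le_add le_rfl (hTbv.trans (ENNReal.ofReal_le_ofReal ?_))
      rw [div_le_iff₀ hκ20]
      have := min_le_left (κ2 * lam' / 2) lam'
      linarith
    have h3 : ENNReal.ofReal lam' + ENNReal.ofReal lam' ≤
        volume (T1 \ Tb) + ENNReal.ofReal lam' := by
      refine le_trans (le_of_eq ?_) (hT1v.trans h2)
      rw [← ENNReal.ofReal_add hlam'0.le hlam'0.le]
      congr 1
      rw [hlam']; ring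
    exact (ENNReal.add_le_add_iff_right ENNReal.ofReal_ne_top).1 h3
  set D : ℝ := lam' / 4 * exp (- (q * L * (h + ε) * n)) / N ^ n0 with hD
  have hslice : ∀ t ∈ T1 \ Tb, ENNReal.ofReal D ≤ volume ((fun y => (y, t)) ⁻¹' U) := by
    rintro t ⟨ht1, htb⟩
    have ht01 := hT1s ht1
    have hta : |t| ≤ 1 := by rw [abs_le]; constructor <;> linarith [ht01.1, ht01.2]
    set Yt : Set (ι → ℝ) := (fun v => (v, t)) ⁻¹' Y ∩ G with hYt
    have hYtc : Yt ⊆ cube ι := fun v hv => hGc hv.2
    have hYtv : ENNReal.ofReal lam' ≤ volume Yt := by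
      have h1 : (fun v => (v, t)) ⁻¹' Y ⊆ Yt ∪ (cube ι \ G) := by
        intro v hv
        by_cases h : v ∈ G
        · exact Or.inl ⟨hv, h⟩
        · exact Or.inr ⟨(hYc hv).1, h⟩
      have h2 : volume ((fun v => (v, t)) ⁻¹' Y) ≤ volume Yt + ENNReal.ofReal lam' := by
        refine (measure_mono h1).trans ((measure_union_le _ _).trans ?_)
        exact add_le_add le_rfl (hGκ.trans (ENNReal.ofReal_le_ofReal (min_le_right _ _)))
      have h3 : ENNReal.ofReal lam' + ENNReal.ofReal lam' ≤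
          volume Yt + ENNReal.ofReal lam' := by
        refine le_trans (le_of_eq ?_) ((show ENNReal.ofReal (lam / 2) ≤
          volume ((fun v => (v, t)) ⁻¹' Y) from ht1).trans h2)
        rw [← ENNReal.ofReal_add hlam'0.le hlam'0.le]
        congr 1
        rw [hlam']; ring
      exact (ENNReal.add_le_add_iff_right ENNReal.ofReal_ne_top).1 h3
    obtain ⟨dd, hdd, hDD⟩ := hTb t ht01 htb
    have hdd0 : ∀ x, 0 ≤ dd x := by
      intro x
      rcases hdd x with h | ⟨h, -⟩ <;> rw [h]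
      exact zero_le_one
    have h1 := slice_bound hβ2 (X := fun u => g u + (F u + a0) + t • u) (n0 := n0)
      (R := R + RM + 2) (K := K) hKR hYtc (by
        intro u hu x hx hux
        have hins : ∀ i, x.2 i < β ^ x.1 := cell_lt (by omega) (hYtc hu) hux
        refine cell_norm (by omega) (f := g) (F := fun u => F u + a0) hta ?_
          ((hG u hu.2 x hx hux).add_const a0) hux
        intro v
        have e : β ^ x.1 = b ^ (q * x.1) := by rw [hβ, pow_mul]
        rw [e]
        refine hg.bz.bdd (q * x.1) x.2 (fun i => ?_) v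
        rw [← e]
        exact hins i) hYtv n (U := (fun y => (y, t)) ⁻¹' U) (by
        intro u hu y hy
        exact hU u t hu.1 y hy)
      (B0 := lam' / 4 * exp (g0 * n - ε1 * n - g0 * (κ' * n))) (by
        intro S hS
        have hNw : (0:ℝ) < Fintype.card (Fin n → ι → Fin β) := by
          exact_mod_cast Fintype.card_pos
        set S' := S.filter fun w => dcr (chd β) dd n ((0, 0) : St ι) w ≤ κ' * n with hS'
        have h2 := few_bad (chd β) hdd0 (by omega : 0 < n) ((0, 0) : St ι) hκ'0 hDD S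
        have h3 : κ2 / κ' = lam' / 2 := by
          rw [hκ2]
          field_simp
        rw [h3] at h2
        have h4 : lam' / 2 * Fintype.card (Fin n → ι → Fin β) ≤ S'.card := by
          rw [hS']
          linarith
        have h5 := hmp h0 (St ι) (chd β) (lb β n0 fun u => g u + (F u + a0) + t • u) dd hdd n
          ((0, 0) : St ι) S' (κ' * n) (lam' / 2) (by positivity) h4 (by
            intro w hw
            rw [hS', Finset.mem_filter] at hw
            exact hw.2) (by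
            rw [← hg0]
            have e1 : lam' / 2 / 2 = lam' / 4 := by ring
            rw [e1, ← Real.exp_log (show 0 < lam' / 4 by positivity)]
            refine Real.exp_le_exp.2 ?_
            have e2 : g0 * κ' * n ≤ ε1 / 2 * n := mul_le_mul_of_nonneg_right hg0κ hn0.le
            have e3 : lam0 * (g0 * (κ' * n) - ε1 * n) ≤ lam0 * (- (ε1 / 2) * n) :=
              mul_le_mul_of_nonneg_left (by linarith) hlam0.le
            refine e3.trans ?_
            have e4 : (n1:ℝ) ≤ n := by exact_mod_cast (by omega : n1 ≤ n)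
            have e5 : (n1:ℝ) * (lam0 * ε1 / 2) ≤ n * (lam0 * ε1 / 2) :=
              mul_le_mul_of_nonneg_right e4 (by positivity)
            linarith)
        have e1 : lam' / 2 / 2 = lam' / 4 := by ring
        rw [e1, ← hg0] at h5
        refine h5.trans ?_
        exact_mod_cast Finset.card_le_card
          (Finset.image_subset_image (Finset.filter_subset _ _)))
    refine le_trans (ENNReal.ofReal_le_ofReal ?_) h1
    rw [hD]
    have h5 : M1 ^ n = exp (n * log M1) := by
      rw [Real.exp_nat_mul, Real.exp_log (by linarith)]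
    have h6 : N ^ n = exp (n * log N) := by
      rw [Real.exp_nat_mul, Real.exp_log hN0']
    have h7 : exp (- (q * L * (h + ε) * n)) ≤
        exp (g0 * n - ε1 * n - g0 * (κ' * n)) / (N ^ n * M1 ^ n) := by
      rw [h5, h6, ← Real.exp_add, ← Real.exp_sub]
      refine Real.exp_le_exp.2 ?_
      have := mul_le_mul_of_nonneg_right hexp hn0.le
      linarith
    have h8 : lam' / 4 * exp (g0 * n - ε1 * n - g0 * (κ' * n)) / (N ^ n * (N ^ n0 * M1 ^ n)) =
        lam' / 4 * (exp (g0 * n - ε1 * n - g0 * (κ' * n)) / (N ^ n * M1 ^ n)) / N ^ n0 := by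
      field_simp
    rw [h8]
    refine div_le_div_of_nonneg_right ?_ (by positivity)
    exact mul_le_mul_of_nonneg_left h7 (by positivity)
  rw [Measure.volume_eq_prod, Measure.prod_apply_symm hUm]
  have h1 : ENNReal.ofReal D * volume (T1 \ Tb) ≤
      ∫⁻ t, volume ((fun y : ι → ℝ => (y, t)) ⁻¹' U) := by
    rw [← setLIntegral_const]
    refine le_trans ?_ (setLIntegral_le_lintegral (T1 \ Tb) _)
    exact setLIntegral_mono (measurable_measure_prodMk_right hUm) hslice
  refine le_trans ?_ h1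
  refine le_trans ?_ (mul_le_mul_right hTv _)
  have hD0 : 0 ≤ D := by rw [hD]; positivity
  rw [← ENNReal.ofReal_mul hD0]
  refine ENNReal.ofReal_le_ofReal (le_of_eq ?_)
  have h2 : (((β:ℝ) ^ (n1 + 1))⁻¹) ^ (h + ε) * (((β:ℝ) ^ n')⁻¹) ^ (h + ε) =
      exp (- (q * L * (h + ε) * n)) := by
    rw [← Real.mul_rpow (by positivity) (by positivity), ← mul_inv, ← pow_add,
      Real.rpow_def_of_pos (by positivity), Real.log_inv, Real.log_pow, hβr, Real.log_pow]
    congr 1
    have e : n1 + 1 + n' = n := by omega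
    rw [e]
    ring
  rw [hD, mul_assoc, h2]
  ring

end Pool.Agent.V7H68.UF
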