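import Pool.Agent.V7H68.MS.FamMain

/-!
A large set of points all of whose small cells are cells on which a function is nearly linear.
-/

namespace Pool.Agent.V7H68.UF

open Finset Real MeasureTheory SS MS Filter
open scoped ENNReal

set_option linter.unusedSectionVars false

variable {ι : Type} [Fintype ι] [DecidableEq ι]

/-- A cell on which `F` is nearly linear. -/
def Nice (β : ℕ) (F : (ι → ℝ) → ι → ℝ) (RM : ℝ) (x : St ι) : Prop :=
  ∃ M : (ι → ℝ) →L[ℝ] (ι → ℝ), ‖M‖ ≤ RM ∧ ∀ u ∈ cell β x,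
    ‖F u - F (corner β x) - M (u - corner β x)‖ ≤ ((β:ℝ) ^ (x.1 + 1))⁻¹

theorem Nice.add_const {β : ℕ} {F : (ι → ℝ) → ι → ℝ} {RM : ℝ} {x : St ι} (h : Nice β F RM x)
    (a : ι → ℝ) : Nice β (fun v => F v + a) RM x := by
  obtain ⟨M, hM, h⟩ := h
  refine ⟨M, hM, fun u hu => ?_⟩
  have h1 := h u hu
  simpa using h1

theorem exists_good {F : (ι → ℝ) → ι → ℝ}
    (hF : ∀ᵐ v ∂(volume.restrict (cube ι)), DifferentiableAt ℝ F v) {κ : ℝ≥0∞} (hκ : 0 < κ) :
    ∃ RM : ℝ, 0 ≤ RM ∧ ∀ β : ℕ, 2 ≤ β → ∃ (n0 : ℕ) (G : Set (ι → ℝ)), MeasurableSet G ∧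
      G ⊆ cube ι ∧ volume (cube ι \ G) ≤ κ ∧
      ∀ u ∈ G, ∀ x : St ι, n0 ≤ x.1 → u ∈ cell β x → Nice β F RM x := by
  classical
  set A : ℕ → Set (ι → ℝ) := fun j => {v | DifferentiableAt ℝ F v ∧ ‖fderiv ℝ F v‖ ≤ j} with hA
  have hAm : ∀ j, MeasurableSet (A j) := fun j =>
    (measurableSet_of_differentiableAt ℝ F).inter
      (measurableSet_le (measurable_fderiv ℝ F).norm measurable_const)
  have hvol : volume (cube ι) ≠ ⊤ := by
    rw [cube_eq, Real.volume_pi_Ico]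
    simp
  have h1 := tendsto_measure_iInter_atTop (μ := volume) (s := fun j => cube ι \ A j)
    (fun j => (cube_meas.diff (hAm j)).nullMeasurableSet)
    (fun i j hij => Set.diff_subset_diff_right fun v hv =>
      ⟨hv.1, hv.2.trans (by exact_mod_cast hij)⟩)
    ⟨0, ne_top_of_le_ne_top hvol (measure_mono Set.diff_subset)⟩
  have h2 : volume (⋂ j, cube ι \ A j) = 0 := by
    rw [ae_restrict_iff' cube_meas] at hF
    refine measure_mono_null ?_ hF
    intro v hv
    rw [Set.mem_iInter] at hv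
    intro hc
    have hvc := (hv 0).1
    refine (hv ⌈‖fderiv ℝ F v‖⌉₊).2 ⟨hc hvc, Nat.le_ceil _⟩
  rw [h2] at h1
  obtain ⟨j, hj⟩ := (h1.eventually (gt_mem_nhds hκ)).exists
  refine ⟨j, Nat.cast_nonneg j, fun β hβ => ?_⟩
  have hβ' : 0 < β := by omega
  set G : ℕ → Set (ι → ℝ) := fun n0 => {u | u ∈ cube ι ∧ ∀ x : St ι, n0 ≤ x.1 → u ∈ cell β x →
    Nice β F j x} with hG
  have hGm : ∀ n0, MeasurableSet (G n0) := by
    intro n0
    have : G n0 = cube ι ∩ ⋂ x : St ι, if n0 ≤ x.1 ∧ ¬ Nice β F j x then (cell β x)ᶜ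
        else Set.univ := by
      ext u
      simp only [hG, Set.mem_ofPred_eq, Set.mem_inter_iff, Set.mem_iInter]
      refine and_congr_right fun _ => forall_congr' fun x => ?_
      by_cases hx : n0 ≤ x.1 ∧ ¬ Nice β F j x
      · rw [if_pos hx]
        constructor
        · intro h hu
          exact hx.2 (h hx.1 hu)
        · intro h _ hu
          exact absurd hu h
      · rw [if_neg hx]
        simp only [Set.mem_univ, iff_true]
        intro h _
        by_contra hn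
        exact hx ⟨h, hn⟩
    rw [this]
    refine cube_meas.inter (MeasurableSet.iInter fun x => ?_)
    split
    · exact (cell_meas hβ' x).compl
    · exact MeasurableSet.univ
  have h3 := tendsto_measure_iInter_atTop (μ := volume) (s := fun n0 => cube ι \ G n0)
    (fun n0 => (cube_meas.diff (hGm n0)).nullMeasurableSet)
    (fun i k hik => Set.diff_subset_diff_right fun v hv =>
      ⟨hv.1, fun x hx hvx => hv.2 x (hik.trans hx) hvx⟩)
    ⟨0, ne_top_of_le_ne_top hvol (measure_mono Set.diff_subset)⟩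
  have h4 : volume (⋂ n0, cube ι \ G n0) < κ := by
    refine lt_of_le_of_lt (measure_mono ?_) hj
    intro v hv
    rw [Set.mem_iInter] at hv
    refine ⟨(hv 0).1, fun hvA => ?_⟩
    obtain ⟨n0, hn0⟩ := cell_diff hvA.1 hβ
    exact (hv n0).2 ⟨(hv 0).1, fun x hx hvx => ⟨fderiv ℝ F v, hvA.2, hn0 x hx hvx⟩⟩
  obtain ⟨n0, hn0⟩ := (h3.eventually (gt_mem_nhds h4)).exists
  exact ⟨n0, G n0, hGm n0, fun u hu => hu.1, hn0.le, fun u hu x hx hux => hu.2 x hx hux⟩

end Pool.Agent.V7H68.UF
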