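import Pool.Agent.V7H68.UF.Bad

/-!
The smallest entropy rate over a class of functions with few zooms.
-/

namespace Pool.Agent.V7H68.UF

open Finset Real MeasureTheory SS MS

set_option linter.unusedSectionVars false

variable {ι : Type} [Fintype ι] [DecidableEq ι] {b : ℕ}

/-- Functions with bounded zooms which have at most `p k` zooms, `k` levels further down. -/
structure Cl (b : ℕ) (R : ℝ) (p : ℕ → ℕ) (f : (ι → ℝ) → ι → ℝ) : Prop where
  bz : Bz b R f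
  cnt : ∀ (q : ℕ) (z : ι → ℕ), (∀ i, z i < b ^ q) → ∀ k : ℕ,
    (Set.range fun w : ι → Fin (b ^ k) => zm (b ^ k) (dv w) (zm (b ^ q) z f)).ncard ≤ p k

theorem low_lt {p q : ℕ} {z z2 : ι → ℕ} (hz : ∀ i, z i < b ^ q) (hz2 : ∀ i, z2 i < b ^ p) (i : ι) :
    b ^ p * z i + z2 i < b ^ (q + p) := by
  have h1 := hz i
  have h2 := hz2 i
  have h3 : b ^ p * (z i + 1) ≤ b ^ p * b ^ q := Nat.mul_le_mul_left _ h1
  rw [pow_add, mul_comm (b ^ q)]
  nlinarith

theorem Cl.zoom {R : ℝ} {p : ℕ → ℕ} {f : (ι → ℝ) → ι → ℝ} (h : Cl b R p f) (hb : 0 < b) {q : ℕ}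
    {z : ι → ℕ} (hz : ∀ i, z i < b ^ q) : Cl b R p (zm (b ^ q) z f) where
  bz := h.bz.zoom hb hz
  cnt q' z' hz' k := by
    rw [zm_zm (by positivity) (by positivity) z z' hz', ← pow_add]
    exact h.cnt (q + q') _ (low_lt hz hz') k

/-- The projected function. -/
noncomputable def pf (P : (ι → ℝ) →ₗ[ℝ] (ι → ℝ)) (f : (ι → ℝ) → ι → ℝ) (t : ℝ) :
    (ι → ℝ) → ι → ℝ := fun θ => P (ft f t θ)

theorem zm_pf {N : ℕ} (hN : 0 < N) {z : ι → ℕ} (hz : ∀ i, z i < N)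
    (P : (ι → ℝ) →ₗ[ℝ] (ι → ℝ)) (f : (ι → ℝ) → ι → ℝ) (t : ℝ) :
    zm N z (pf P f t) = pf P (zm N z f) t := by
  unfold pf
  rw [zm_lin, zm_ft hN hz]

/-- The bound for the projected functions. -/
noncomputable def R2 (ι : Type) [Fintype ι] (R : ℝ) : ℝ := 2 ^ Fintype.card ι * (R + 1)

theorem Bz.pf {R : ℝ} {f : (ι → ℝ) → ι → ℝ} (h : Bz b R f) (hb : 0 < b) {t : ℝ} (ht : |t| ≤ 1)
    {I : Finset ι} {P : (ι → ℝ) →ₗ[ℝ] (ι → ℝ)} (hP : Adm I P) : Bz b (R2 ι R) (pf P f t) :=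
  (h.ft hb ht).lin P hP.norm_le' (by positivity)

/-- Instances: a function, finitely many weighted parameters, and projections. -/
structure Inst (b : ℕ) (R : ℝ) (p : ℕ → ℕ) (A : ℕ) (β : ℕ → ℝ) (n : ℕ)
    (f : (ι → ℝ) → ι → ℝ) (T : Finset ℝ) (c : ℝ → ℝ) (I : ℝ → Finset ι)
    (P : ℝ → (ι → ℝ) →ₗ[ℝ] (ι → ℝ)) : Prop where
  cl : Cl b R p f
  tb : ∀ t ∈ T, |t| ≤ 1
  cn : ∀ t ∈ T, 0 ≤ c t
  cs : ∑ t ∈ T, c t = 1
  adm : ∀ t ∈ T, Adm (I t) (P t)
  good : ∀ (k l : ℕ) (z : ι → ℕ), k + l ≤ n → (∀ i, z i < b ^ k) →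
    ∑ t ∈ T, c t * (bdn b (zm (b ^ k) z f) A l).indicator 1 t ≤ β l

/-- The value of an instance. -/
noncomputable def Psi (b : ℕ) (τ : ℝ) (n : ℕ) (f : (ι → ℝ) → ι → ℝ) (T : Finset ℝ) (c : ℝ → ℝ)
    (I : ℝ → Finset ι) (P : ℝ → (ι → ℝ) →ₗ[ℝ] (ι → ℝ)) : ℝ :=
  ∑ t ∈ T, c t * (En b (pf (P t) f t) n + (I t).card * n * (log b - τ))

variable {R : ℝ} {p : ℕ → ℕ} {A : ℕ} {β : ℕ → ℝ} {n : ℕ} {f : (ι → ℝ) → ι → ℝ} {T : Finset ℝ}
  {c : ℝ → ℝ} {I : ℝ → Finset ι} {P : ℝ → (ι → ℝ) →ₗ[ℝ] (ι → ℝ)}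

theorem Inst.mono (h : Inst b R p A β n f T c I P) {n' : ℕ} (hn : n' ≤ n) :
    Inst b R p A β n' f T c I P where
  cl := h.cl
  tb := h.tb
  cn := h.cn
  cs := h.cs
  adm := h.adm
  good k l z hkl hz := h.good k l z (hkl.trans hn) hz

theorem Inst.zoom {k : ℕ} (h : Inst b R p A β (k + n) f T c I P) (hb : 0 < b) {z : ι → ℕ}
    (hz : ∀ i, z i < b ^ k) : Inst b R p A β n (zm (b ^ k) z f) T c I P where
  cl := h.cl.zoom hb hz
  tb := h.tb
  cn := h.cn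
  cs := h.cs
  adm := h.adm
  good k' l z' hkl hz' := by
    rw [zm_zm (by positivity) (by positivity) z z' hz', ← pow_add]
    exact h.good (k + k') l _ (by omega) (low_lt hz hz')

theorem Inst.change (h : Inst b R p A β n f T c I P) {I' : ℝ → Finset ι}
    {P' : ℝ → (ι → ℝ) →ₗ[ℝ] (ι → ℝ)} (hadm : ∀ t ∈ T, Adm (I' t) (P' t)) :
    Inst b R p A β n f T c I' P' where
  cl := h.cl
  tb := h.tb
  cn := h.cn
  cs := h.cs
  adm := hadm
  good := h.good

theorem Inst.bz (h : Inst b R p A β n f T c I P) (hb : 0 < b) {t : ℝ} (ht : t ∈ T) :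
    Bz b (R2 ι R) (pf (P t) f t) := h.cl.bz.pf hb (h.tb t ht) (h.adm t ht)

/-- Weighted sums. -/
theorem Inst.wsum_mono (h : Inst b R p A β n f T c I P) {F G : ℝ → ℝ}
    (hFG : ∀ t ∈ T, F t ≤ G t) : ∑ t ∈ T, c t * F t ≤ ∑ t ∈ T, c t * G t :=
  Finset.sum_le_sum fun t ht => mul_le_mul_of_nonneg_left (hFG t ht) (h.cn t ht)

theorem Inst.wsum_const (h : Inst b R p A β n f T c I P) (a : ℝ) : ∑ t ∈ T, c t * a = a := by
  rw [← Finset.sum_mul, h.cs, one_mul]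

theorem Inst.Psi_nonneg (h : Inst b R p A β n f T c I P) (hb : 0 < b) {τ : ℝ}
    (hτ : τ ≤ log b) (k : ℕ) : 0 ≤ Psi b τ k f T c I P := by
  refine Finset.sum_nonneg fun t ht => mul_nonneg (h.cn t ht) ?_
  have h1 := (h.bz hb ht).En_nonneg hb k
  have h2 : 0 ≤ ((I t).card : ℝ) * k * (log b - τ) :=
    mul_nonneg (by positivity) (by linarith)
  linarith

theorem wsum_av {Ω : Type*} [Fintype Ω] (T : Finset ℝ) (c : ℝ → ℝ) (F : ℝ → Ω → ℝ) :
    ∑ t ∈ T, c t * av (F t) = av (fun w => ∑ t ∈ T, c t * F t w) := by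
  rw [av_sum]
  exact Finset.sum_congr rfl fun t _ => (av_mul _ _).symm

theorem Inst.super [NeZero b] (h : Inst b R p A β n f T c I P) (hb : 0 < b) (τ : ℝ) (k l : ℕ) :
    Psi b τ k f T c I P + av (fun w : ι → Fin (b ^ k) =>
      Psi b τ l (zm (b ^ k) (dv w) f) T c I P) - C0 ι (R2 ι R) ≤ Psi b τ (k + l) f T c I P := by
  unfold Psi
  have h1 : av (fun w : ι → Fin (b ^ k) => ∑ t ∈ T, c t *
      (En b (pf (P t) (zm (b ^ k) (dv w) f) t) l + (I t).card * l * (log b - τ))) =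
      ∑ t ∈ T, c t * (av (fun w : ι → Fin (b ^ k) =>
        En b (zm (b ^ k) (dv w) (pf (P t) f t)) l) + (I t).card * l * (log b - τ)) := by
    have h2 : ∀ t, av (fun w : ι → Fin (b ^ k) =>
        En b (zm (b ^ k) (dv w) (pf (P t) f t)) l) + (I t).card * l * (log b - τ) =
        av (fun w : ι → Fin (b ^ k) => En b (pf (P t) (zm (b ^ k) (dv w) f) t) l +
          (I t).card * l * (log b - τ)) := by
      intro t
      rw [av_add, av_const]
      congr 2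
      funext w
      rw [zm_pf (pow_pos hb k) (dv_lt w)]
    simp only [h2]
    rw [wsum_av]
  rw [h1, ← Finset.sum_add_distrib]
  have h3 : C0 ι (R2 ι R) = ∑ t ∈ T, c t * C0 ι (R2 ι R) := (h.wsum_const _).symm
  rw [h3, ← Finset.sum_sub_distrib]
  refine Finset.sum_le_sum fun t ht => ?_
  have h4 := (h.bz hb ht).super hb k l
  have h5 := mul_le_mul_of_nonneg_left h4 (h.cn t ht)
  push_cast
  nlinarith

/-- The possible values, and the trivial upper bound. -/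
def Vals (b : ℕ) (R : ℝ) (p : ℕ → ℕ) (A : ℕ) (β : ℕ → ℝ) (τ : ℝ) (ι : Type) [Fintype ι]
    [DecidableEq ι] (n : ℕ) : Set ℝ :=
  {x | x = n * (Fintype.card ι * log b) ∨ ∃ (f : (ι → ℝ) → ι → ℝ) (T : Finset ℝ) (c : ℝ → ℝ)
    (I : ℝ → Finset ι) (P : ℝ → (ι → ℝ) →ₗ[ℝ] (ι → ℝ)), Inst b R p A β n f T c I P ∧
    x = Psi b τ n f T c I P}

/-- The smallest value. -/
noncomputable def psi (b : ℕ) (R : ℝ) (p : ℕ → ℕ) (A : ℕ) (β : ℕ → ℝ) (τ : ℝ) (ι : Type)
    [Fintype ι] [DecidableEq ι] (n : ℕ) : ℝ := sInf (Vals b R p A β τ ι n)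

theorem Vals_bdd (hb : 0 < b) {τ : ℝ} (hτ : τ ≤ log b) (n : ℕ) :
    ∀ x ∈ Vals b R p A β τ ι n, 0 ≤ x := by
  have hb1 : (1:ℝ) ≤ b := by exact_mod_cast hb
  have := Real.log_nonneg hb1
  rintro x (rfl | ⟨f, T, c, I, P, hI, rfl⟩)
  · positivity
  · exact hI.Psi_nonneg hb hτ n

theorem psi_nonneg (hb : 0 < b) {τ : ℝ} (hτ : τ ≤ log b) (n : ℕ) : 0 ≤ psi b R p A β τ ι n :=
  Real.sInf_nonneg (Vals_bdd hb hτ n)

theorem psi_le (hb : 0 < b) {τ : ℝ} (hτ : τ ≤ log b) (n : ℕ) :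
    psi b R p A β τ ι n ≤ n * (Fintype.card ι * log b) :=
  csInf_le ⟨0, fun x hx => Vals_bdd hb hτ n x hx⟩ (Or.inl rfl)

theorem Inst.psi_le (h : Inst b R p A β n f T c I P) (hb : 0 < b) {τ : ℝ} (hτ : τ ≤ log b) :
    psi b R p A β τ ι n ≤ Psi b τ n f T c I P :=
  csInf_le ⟨0, fun x hx => Vals_bdd hb hτ n x hx⟩ (Or.inr ⟨f, T, c, I, P, h, rfl⟩)

theorem psi_super [NeZero b] (hb : 0 < b) {τ : ℝ} (hτ : τ ≤ log b) (k l : ℕ) :
    psi b R p A β τ ι k + psi b R p A β τ ι l - C0 ι (R2 ι R) ≤ psi b R p A β τ ι (k + l) := by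
  refine le_csInf ⟨_, Or.inl rfl⟩ ?_
  rintro x (rfl | ⟨f, T, c, I, P, hI, rfl⟩)
  · have h1 := UF.psi_le (R := R) (p := p) (A := A) (β := β) (ι := ι) hb hτ k
    have h2 := UF.psi_le (R := R) (p := p) (A := A) (β := β) (ι := ι) hb hτ l
    have h3 := C0_nonneg (ι := ι) (R2 ι R)
    push_cast
    linarith
  · have h1 := hI.super hb τ k l
    have h2 := (hI.mono (Nat.le_add_right k l)).psi_le hb hτ
    have h3 : psi b R p A β τ ι l ≤ av (fun w : ι → Fin (b ^ k) =>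
        Psi b τ l (zm (b ^ k) (dv w) f) T c I P) := by
      rw [← av_const (Ω := ι → Fin (b ^ k)) (psi b R p A β τ ι l)]
      exact av_mono fun w => (hI.zoom hb (dv_lt w)).psi_le hb hτ
    linarith

/-- The rate. -/
theorem exists_rate [NeZero b] (hb : 0 < b) {τ : ℝ} (hτ : τ ≤ log b) (R : ℝ) (p : ℕ → ℕ) (A : ℕ)
    (β : ℕ → ℝ) : ∃ r : ℝ, 0 ≤ r ∧ r ≤ Fintype.card ι * log b ∧
      (∀ n : ℕ, psi b R p A β τ ι n ≤ r * n + C0 ι (R2 ι R)) ∧
      ∀ η : ℝ, 0 < η → ∃ C : ℝ, 0 ≤ C ∧ ∀ n : ℕ, (r - η) * n - C ≤ psi b R p A β τ ι n := by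
  have hb1 : (1:ℝ) ≤ b := by exact_mod_cast hb
  have hlb := Real.log_nonneg hb1
  set K : ℝ := Fintype.card ι * log b with hK
  have hK0 : 0 ≤ K := by positivity
  set C := C0 ι (R2 ι R) with hC
  have hC0 : 0 ≤ C := C0_nonneg _
  set u : ℕ → ℝ := fun n => C - psi b R p A β τ ι n with hu
  have hsub : Subadditive u := by
    intro k l
    have := psi_super (R := R) (p := p) (A := A) (β := β) (ι := ι) hb hτ k l
    rw [hu]
    simp only
    linarith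
  have hlow : ∀ n : ℕ, -K ≤ u n / n := by
    intro n
    rcases Nat.eq_zero_or_pos n with h0 | h0
    · rw [h0]; simp [hK0]
    · have hn : (0:ℝ) < n := by exact_mod_cast h0
      rw [le_div_iff₀ hn]
      have := UF.psi_le (R := R) (p := p) (A := A) (β := β) (ι := ι) hb hτ n
      rw [hu]
      simp only
      nlinarith
  have hbdd : BddBelow (Set.range fun n : ℕ => u n / n) :=
    ⟨-K, by rintro _ ⟨n, rfl⟩; exact hlow n⟩
  have hlim := hsub.tendsto_lim hbdd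
  have h1 : -K ≤ hsub.lim := ge_of_tendsto hlim (Filter.Eventually.of_forall hlow)
  have h2 : hsub.lim ≤ 0 := by
    have h3 : Filter.Tendsto (fun n : ℕ => C / n) Filter.atTop (nhds 0) :=
      tendsto_const_nhds.div_atTop tendsto_natCast_atTop_atTop
    refine le_of_tendsto_of_tendsto hlim h3 (Filter.Eventually.of_forall fun n => ?_)
    have := psi_nonneg (R := R) (p := p) (A := A) (β := β) (ι := ι) hb hτ n
    exact div_le_div_of_nonneg_right (by rw [hu]; simp only; linarith) (by positivity)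
  refine ⟨- hsub.lim, by linarith, by linarith, fun n => ?_, fun η hη => ?_⟩
  · rcases Nat.eq_zero_or_pos n with h0 | h0
    · have := UF.psi_le (R := R) (p := p) (A := A) (β := β) (ι := ι) hb hτ n
      rw [h0] at this ⊢
      simp only [Nat.cast_zero, zero_mul, mul_zero] at this ⊢
      linarith
    · have hn : (0:ℝ) < n := by exact_mod_cast h0
      have h3 := hsub.lim_le_div hbdd (n := n) (by omega)
      rw [le_div_iff₀ hn] at h3
      have e : u n = C - psi b R p A β τ ι n := rfl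
      linarith
  · have h3 : ∀ᶠ n : ℕ in Filter.atTop, u n / n < hsub.lim + η :=
      hlim.eventually (gt_mem_nhds (by linarith))
    obtain ⟨n0, hn0⟩ := Filter.eventually_atTop.1 h3
    refine ⟨K * (n0 + 1), by positivity, fun n => ?_⟩
    rcases lt_or_ge n (n0 + 1) with h4 | h4
    · have h5 := psi_nonneg (R := R) (p := p) (A := A) (β := β) (ι := ι) hb hτ n
      have h6 : (n:ℝ) ≤ n0 + 1 := by exact_mod_cast h4.le
      have h7 : (-hsub.lim - η) * n ≤ K * n := by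
        refine mul_le_mul_of_nonneg_right ?_ (by positivity)
        linarith
      have h8 : K * n ≤ K * (n0 + 1) := mul_le_mul_of_nonneg_left h6 hK0
      linarith
    · have h5 := hn0 n (by omega)
      have hn : (0:ℝ) < n := by exact_mod_cast (by omega : 0 < n)
      rw [div_lt_iff₀ hn] at h5
      have e : u n = C - psi b R p A β τ ι n := rfl
      have h6 : 0 ≤ K * (n0 + 1) := by positivity
      linarith

end Pool.Agent.V7H68.UF
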